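import Pool.Agent.K3h3.RS.Uniq
import Pool.Agent.K3h40.RS.SpanReg
import Pool.Agent.K3h40.RS.LogInj
import Pool.Agent.K3h30.RS.Int

/-!
# Rubin's conjecture and the set `S`: adding a prime ideal to `S`
-/

set_option autoImplicit false
set_option linter.unusedSectionVars false

open NumberField IsDedekindDomain Filter Topology

noncomputable section

namespace Pool.Agent.Run7.h97.RB

open Pool.Agent.K3h30.RS

/-! ## The group ring -/

section alg

/-- `(1 - x) ^ 2` divides `1 - x` if `x` has finite order. -/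
theorem exists_reg {R : Type} [CommRing R] [Algebra ℚ R] (x : R) (m : ℕ) (hm : 0 < m)
    (hx : x ^ m = 1) : ∃ b : R, ∀ n : ℕ, b ^ n * (1 - x) ^ (n + 1) = 1 - x := by
  have h1 : (1 - x) * ∑ i ∈ Finset.range m, x ^ i = 0 := by
    rw [mul_neg_geom_sum, hx, sub_self]
  have h2 : (1 - x) * (∑ i ∈ Finset.range m, ∑ j ∈ Finset.range i, x ^ j) =
      m - ∑ i ∈ Finset.range m, x ^ i := by
    rw [Finset.mul_sum]
    simp_rw [mul_neg_geom_sum]
    rw [Finset.sum_sub_distrib]
    simp
  let B : R := ∑ i ∈ Finset.range m, ∑ j ∈ Finset.range i, x ^ j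
  have h3 : (1 - x) ^ 2 * B = (m : R) * (1 - x) := by
    have : (1 - x) ^ 2 * B = (1 - x) * ((1 - x) * B) := by ring
    rw [this, h2, mul_sub, h1, sub_zero, mul_comm]
  have hm' : algebraMap ℚ R ((m : ℚ)⁻¹) * (m : R) = 1 := by
    have : (m : R) = algebraMap ℚ R (m : ℚ) := (map_natCast _ m).symm
    rw [this, ← map_mul, inv_mul_cancel₀ (by positivity), map_one]
  have h4 : (algebraMap ℚ R ((m : ℚ)⁻¹) * B) * (1 - x) ^ 2 = 1 - x := by
    calc (algebraMap ℚ R ((m : ℚ)⁻¹) * B) * (1 - x) ^ 2 =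
        algebraMap ℚ R ((m : ℚ)⁻¹) * ((1 - x) ^ 2 * B) := by ring
      _ = (algebraMap ℚ R ((m : ℚ)⁻¹) * (m : R)) * (1 - x) := by rw [h3]; ring
      _ = 1 - x := by rw [hm', one_mul]
  refine ⟨algebraMap ℚ R ((m : ℚ)⁻¹) * B, fun n => ?_⟩
  induction n with
  | zero => rw [pow_zero, one_mul, zero_add, pow_one]
  | succ n ih =>
    calc (algebraMap ℚ R ((m : ℚ)⁻¹) * B) ^ (n + 1) * (1 - x) ^ (n + 1 + 1) =
        (algebraMap ℚ R ((m : ℚ)⁻¹) * B) * (1 - x) *
          ((algebraMap ℚ R ((m : ℚ)⁻¹) * B) ^ n * (1 - x) ^ (n + 1)) := by ring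
      _ = (algebraMap ℚ R ((m : ℚ)⁻¹) * B) * (1 - x) ^ 2 := by rw [ih]; ring
      _ = 1 - x := h4

variable {G : Type} [CommGroup G] [Finite G]

theorem exists_reg_group (g : G) : ∃ b : MonoidAlgebra ℚ G, ∀ n : ℕ,
    b ^ n * (1 - MonoidAlgebra.single g 1) ^ (n + 1) = 1 - MonoidAlgebra.single g 1 := by
  refine exists_reg _ (orderOf g) (orderOf_pos g) ?_
  rw [MonoidAlgebra.single_pow, pow_orderOf_eq_one, one_pow]
  rfl

theorem toR_one_sub (g : G) : toR (1 - MonoidAlgebra.single g (1 : ℚ)) =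
    1 - MonoidAlgebra.single g (1 : ℝ) := by
  rw [map_sub, map_one, Pool.Agent.K3h62.RS.toR_single]
  norm_num

theorem cv_one_sub (χ : G →* ℂˣ) (g : G) :
    charValue χ (1 - MonoidAlgebra.single g (1 : ℝ)) = 1 - (χ g : ℂ) := by
  rw [Pool.Agent.K3h62.RS.charValue_eq, map_sub, map_one, Pool.Agent.K3h62.RS.cvHom_single]
  norm_num

end alg

/-! ## The regulator of `x / γ x` -/

section reg

variable {H G : Type} [Field H] [NumberField H] [CommGroup G] [Finite G] [MulSemiringAction G H]

theorem av_mul (w : Place H) (x y : H) : av w (x * y) = av w x * av w y := by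
  cases w with
  | inl w => simp only [av, map_mul]; ring
  | inr w => simp only [av, map_mul]

theorem reg_mul (w : Place H) (x y : Hˣ) : reg G w (x * y) = reg G w x + reg G w y := by
  unfold reg
  rw [← Finset.sum_add_distrib]
  refine Finset.sum_congr rfl fun γ _ => ?_
  rw [act_map_mul, Units.val_mul, av_mul, Real.log_mul, MonoidAlgebra.single_add]
  · exact (Pool.Agent.K3h40.RS.av_pos w _).ne'
  · exact (Pool.Agent.K3h40.RS.av_pos w _).ne'

theorem reg_one (w : Place H) : reg G w 1 = 0 := by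
  have h := reg_mul (G := G) w 1 1
  rw [mul_one] at h
  exact left_eq_add.1 h

theorem reg_inv (w : Place H) (x : Hˣ) : reg G w x⁻¹ = -reg G w x := by
  have h := reg_mul (G := G) w x x⁻¹
  rw [mul_inv_cancel, reg_one] at h
  exact eq_neg_of_add_eq_zero_right h.symm

theorem reg_act (w : Place H) (γ : G) (x : Hˣ) :
    reg G w (act γ x) = MonoidAlgebra.single γ 1 * reg G w x := by
  unfold reg
  letI := Fintype.ofFinite G
  rw [Finset.mul_sum, ← Equiv.sum_comp (Equiv.mulLeft γ)]
  refine Finset.sum_congr rfl fun δ _ => ?_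
  rw [MonoidAlgebra.single_mul_single, one_mul, ← act_mul]
  simp only [Equiv.coe_mulLeft]
  congr 5
  rw [mul_inv, mul_comm γ⁻¹, mul_assoc, inv_mul_cancel, mul_one]

/-- the regulator of `x ^ (1 - γ)` -/
theorem reg_div (w : Place H) (γ : G) (x : Hˣ) :
    reg G w (x * (act γ x)⁻¹) = (1 - MonoidAlgebra.single γ 1) * reg G w x := by
  rw [reg_mul, reg_inv, reg_act, sub_mul, one_mul, sub_eq_add_neg]

end reg

/-! ## Frobenius automorphisms and decomposition groups -/

section frob

variable {F H G : Type} [Field F] [NumberField F] [Field H] [NumberField H] [Algebra F H]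
  [CommGroup G] [Finite G] [MulSemiringAction G H]

theorem adicAbv_congr (w : HeightOneSpectrum (𝓞 H)) {x y : H}
    (h : w.valuation H x = w.valuation H y) :
    HeightOneSpectrum.adicAbv H w x = HeightOneSpectrum.adicAbv H w y := by
  rw [HeightOneSpectrum.adicAbv_def, HeightOneSpectrum.adicAbv_def, h]

/-- the Frobenius automorphism is in the decomposition group -/
theorem frob_val [hG : IsGaloisGroup G F H] {v : HeightOneSpectrum (𝓞 F)} {γ : G}
    (h : IsFrob (H := H) v γ) {w : HeightOneSpectrum (𝓞 H)} (hw : Above {v} w) (x : H) :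
    w.valuation H (γ • x) = w.valuation H x := by
  obtain ⟨w', hw', hval⟩ := (Pool.Agent.K3h25.RS.t_TRANS F H G v w hw).1 γ
  have hle : w.asIdeal ≤ w'.asIdeal := by
    intro y hy
    have h1 : w.valuation H (y : H) < 1 := (w.valuation_lt_one_iff_mem (K := H) y).2 hy
    rw [← w'.valuation_lt_one_iff_mem (K := H)]
    change w'.valuation H (y : H) < 1
    rw [hval]
    have h2 : γ • (y : H) = (γ • (y : H) - (y : H) ^ (Ideal.absNorm v.asIdeal)) +
        (y : H) ^ (Ideal.absNorm v.asIdeal) := by ring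
    rw [h2]
    refine lt_of_le_of_lt (Valuation.map_add _ _ _) (max_lt (h w hw y) ?_)
    rw [map_pow]
    have h3 := Pool.Agent.K3h62.RS.two_le_absNorm v
    exact pow_lt_one₀ zero_le h1 (by omega)
  have hww : w' = w := by
    apply HeightOneSpectrum.ext
    exact (w.isMaximal.eq_of_le w'.isPrime.ne_top hle).symm
  rw [← hval, hww]

theorem frob_fixes [hG : IsGaloisGroup G F H] {v : HeightOneSpectrum (𝓞 F)} {γ : G}
    (h : IsFrob (H := H) v γ) {w : HeightOneSpectrum (𝓞 H)} (hw : Above {v} w) :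
    Fixes (Sum.inr w : Place H) γ := by
  intro x
  exact adicAbv_congr w (frob_val h hw x)

end frob

/-! ## Adding a prime ideal to `S` -/

section add

variable {F H G : Type} [Field F] [NumberField F] [Field H] [NumberField H] [Algebra F H]
  [CommGroup G] [Finite G] [MulSemiringAction G H]

theorem above_cons {S : Finset (HeightOneSpectrum (𝓞 F))} {v : HeightOneSpectrum (𝓞 F)}
    (hv : v ∉ S) {w : HeightOneSpectrum (𝓞 H)} :
    Above ((Finset.cons v S hv : Finset (HeightOneSpectrum (𝓞 F))) :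
      Set (HeightOneSpectrum (𝓞 F))) w ↔
      Above {v} w ∨ Above (S : Set (HeightOneSpectrum (𝓞 F))) w := by
  constructor
  · rintro ⟨v', h1, h2⟩
    rw [Finset.mem_coe, Finset.mem_cons] at h1
    rcases h1 with h1 | h1
    · subst h1
      exact Or.inl ⟨v', rfl, h2⟩
    · exact Or.inr ⟨v', h1, h2⟩
  · rintro (⟨v', h1, h2⟩ | ⟨v', h1, h2⟩)
    · rw [Set.mem_singleton_iff] at h1
      subst h1
      exact ⟨v', Finset.mem_coe.2 (Finset.mem_cons_self _ _), h2⟩
    · exact ⟨v', Finset.mem_coe.2 (Finset.mem_cons.2 (Or.inr h1)), h2⟩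

theorem inS_cons {S : Finset (HeightOneSpectrum (𝓞 F))} {v : HeightOneSpectrum (𝓞 F)}
    (hv : v ∉ S) {u : Place H} (h : InS (S : Set (HeightOneSpectrum (𝓞 F))) u) :
    InS ((Finset.cons v S hv : Finset (HeightOneSpectrum (𝓞 F))) :
      Set (HeightOneSpectrum (𝓞 F))) u := by
  cases u with
  | inl u => trivial
  | inr u => exact (above_cons hv).2 (Or.inr h)

theorem inS_of_cons {S : Finset (HeightOneSpectrum (𝓞 F))} {v : HeightOneSpectrum (𝓞 F)}
    (hv : v ∉ S) {u : Place H}
    (h : InS ((Finset.cons v S hv : Finset (HeightOneSpectrum (𝓞 F))) :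
      Set (HeightOneSpectrum (𝓞 F))) u) :
    InS (S : Set (HeightOneSpectrum (𝓞 F))) u ∨
      ∃ w : HeightOneSpectrum (𝓞 H), u = Sum.inr w ∧ Above {v} w := by
  cases u with
  | inl u => exact Or.inl trivial
  | inr u =>
    rcases (above_cons hv).1 h with h1 | h1
    · exact Or.inr ⟨u, rfl, h1⟩
    · exact Or.inl h1

variable [hG : IsGaloisGroup G F H]

/-- The data for `S ∪ {v}`, where the Frobenius automorphism of the prime ideal `v` is not trivial:
the places `w_1, ..., w_r` are the same, and the functions `L_S(χ, s)` are multiplied by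
`1 - χ(v) N v ^ (-s)`. -/
def addPrime (D : RubinData F H G) (v : HeightOneSpectrum (𝓞 F)) (hv : v ∉ D.S)
    (h1 : D.σ v ≠ 1) : RubinData F H G where
  S := Finset.cons v D.S hv
  unramified v' h' := D.unramified v' fun h => h' (Finset.mem_cons.2 (Or.inr h))
  r := D.r
  w := D.w
  inS i := inS_cons hv (D.inS i)
  splits := D.splits
  distinct := D.distinct
  all := by
    intro u hu h
    rcases inS_of_cons hv hu with h2 | ⟨w, rfl, hw⟩
    · exact D.all u h2 h
    · exact absurd (h _ (frob_fixes (D.frob v hv) hw)) h1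
  more := by
    obtain ⟨u, h2, h3⟩ := D.more
    exact ⟨u, inS_cons hv h2, h3⟩
  σ := D.σ
  frob v' h' := D.frob v' fun h => h' (Finset.mem_cons.2 (Or.inr h))
  L χ s := (1 - (χ (D.σ v) : ℂ) * (Ideal.absNorm v.asIdeal : ℂ) ^ (-s)) * D.L χ s
  analytic χ := by
    refine DifferentiableOn.mul ?_ (D.analytic χ)
    have h2 := Pool.Agent.K3h62.RS.two_le_absNorm v
    have h3 : (Ideal.absNorm v.asIdeal : ℂ) ≠ 0 := by
      exact_mod_cast (by omega : Ideal.absNorm v.asIdeal ≠ 0)
    refine Differentiable.differentiableOn ?_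
    refine (differentiable_const _).sub ((differentiable_const _).mul ?_)
    exact (differentiable_id.neg).const_cpow (Or.inl h3)
  euler χ s hs := by
    classical
    have h0 := D.euler χ s hs
    have h2 := Pool.Agent.K3h62.RS.two_le_absNorm v
    have h4 : ‖(Ideal.absNorm v.asIdeal : ℂ) ^ (-s)‖ < 1 := by
      rw [Complex.norm_natCast_cpow_of_pos (by omega), Complex.neg_re]
      apply Real.rpow_lt_one_of_one_lt_of_neg
      · exact_mod_cast (by omega : 1 < Ideal.absNorm v.asIdeal)
      · linarith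
    have hχ : ‖((χ (D.σ v) : ℂˣ) : ℂ)‖ = 1 := by
      have h5 : ((χ (D.σ v) : ℂˣ) : ℂ) ^ orderOf (D.σ v) = 1 := by
        rw [← Units.val_pow_eq_pow_val, ← map_pow, pow_orderOf_eq_one, map_one, Units.val_one]
      exact Complex.norm_eq_one_of_pow_eq_one h5 (orderOf_pos _).ne'
    have hne : (1 - (χ (D.σ v) : ℂ) * (Ideal.absNorm v.asIdeal : ℂ) ^ (-s)) ≠ 0 := by
      intro h5
      rw [sub_eq_zero] at h5
      have h6 := congrArg norm h5
      rw [norm_one, norm_mul, hχ, one_mul] at h6
      exact absurd h6 h4.ne'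
    let f : {v' : HeightOneSpectrum (𝓞 F) // v' ∉ D.S} → ℂ := fun v' =>
      (1 - (χ (D.σ v') : ℂ) * (Ideal.absNorm (v' : HeightOneSpectrum (𝓞 F)).asIdeal : ℂ) ^ (-s))⁻¹
    let g : {v' : HeightOneSpectrum (𝓞 F) // v' ∉ D.S} → ℂ := fun v' =>
      if v' = ⟨v, hv⟩ then (1 - (χ (D.σ v) : ℂ) * (Ideal.absNorm v.asIdeal : ℂ) ^ (-s)) else 1
    have hg : HasProd g (1 - (χ (D.σ v) : ℂ) * (Ideal.absNorm v.asIdeal : ℂ) ^ (-s)) := by
      have := hasProd_single (f := g) (⟨v, hv⟩ : {v' : HeightOneSpectrum (𝓞 F) // v' ∉ D.S})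
        (fun b hb => by simp only [g]; rw [if_neg hb])
      simp only [g, if_true] at this
      exact this
    have hfg := hg.mul h0
    let i : {v' : HeightOneSpectrum (𝓞 F) // v' ∉ Finset.cons v D.S hv} →
        {v' : HeightOneSpectrum (𝓞 F) // v' ∉ D.S} := fun v' =>
      ⟨v'.1, fun h => v'.2 (Finset.mem_cons.2 (Or.inr h))⟩
    have hi : Function.Injective i := fun a b h => Subtype.ext (congrArg (fun z => z.1) h)
    have h7 := (hi.hasProd_iff (f := fun v' => g v' * f v')
      (a := (1 - (χ (D.σ v) : ℂ) * (Ideal.absNorm v.asIdeal : ℂ) ^ (-s)) * D.L χ s) ?_).2 hfg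
    · refine h7.congr_fun ?_
      intro v'
      have h8 : i v' ≠ ⟨v, hv⟩ := by
        intro h9
        apply v'.2
        rw [Finset.mem_cons]
        exact Or.inl (congrArg (fun z => z.1) h9)
      simp only [Function.comp_apply, g]
      rw [if_neg h8, one_mul]
    · intro x hx
      have hxv : x = ⟨v, hv⟩ := by
        by_contra hne'
        apply hx
        refine ⟨⟨x.1, ?_⟩, Subtype.ext rfl⟩
        rw [Finset.mem_cons, not_or]
        exact ⟨fun h => hne' (Subtype.ext h), x.2⟩
      subst hxv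
      simp only [g, f, if_true]
      exact mul_inv_cancel₀ hne

theorem addPrime_S (D : RubinData F H G) {v : HeightOneSpectrum (𝓞 F)} (hv : v ∉ D.S)
    (h1 : D.σ v ≠ 1) : (addPrime D v hv h1).S = Finset.cons v D.S hv := rfl

theorem addPrime_LT (D : RubinData F H G) {v : HeightOneSpectrum (𝓞 F)} (hv : v ∉ D.S)
    (h1 : D.σ v ≠ 1) (T : Finset (HeightOneSpectrum (𝓞 F))) (χ : G →* ℂˣ) (s : ℂ) :
    (addPrime D v hv h1).LT T χ s =
      (1 - (χ (D.σ v) : ℂ) * (Ideal.absNorm v.asIdeal : ℂ) ^ (-s)) * D.LT T χ s := by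
  unfold RubinData.LT addPrime
  simp only
  ring

/-! ## The definitions for the main theorem -/

/-- `Larger T D n D'`: the data `D'` are obtained from `D` by adding, one after the other, `n` prime
ideals outside `T` with nontrivial Frobenius automorphisms to `S`. -/
inductive Larger (T : Finset (HeightOneSpectrum (𝓞 F))) :
    RubinData F H G → ℕ → RubinData F H G → Prop
  | refl (D : RubinData F H G) : Larger T D 0 D
  | step (D D' : RubinData F H G) (n : ℕ) (v : HeightOneSpectrum (𝓞 F)) (hv : v ∉ D.S)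
      (h1 : D.σ v ≠ 1) (hvT : v ∉ T) (h : Larger T (addPrime D v hv h1) n D') :
      Larger T D (n + 1) D'

end add

section defs

variable {F H G : Type} [Field F] [NumberField F] [Field H] [NumberField H] [Algebra F H]
  [CommGroup G] [Finite G] [MulSemiringAction G H]

/-- There are at least `r + 2` places in `S`: two places which are not among `v_1, ..., v_r` and which
are different (not conjugate). -/
def Two (D : RubinData F H G) : Prop :=
  ∃ u u' : Place H, InS (D.S : Set (HeightOneSpectrum (𝓞 F))) u ∧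
    InS (D.S : Set (HeightOneSpectrum (𝓞 F))) u' ∧ (∀ i, ¬ Conj G u (D.w i)) ∧
    (∀ i, ¬ Conj G u' (D.w i)) ∧ ¬ Conj G u u'

/-- Rubin's conjecture for `S`, `T` up to the factors in `M`: the Stark element `u` exists, and for
all `ψ = ψ_1 ∧ ... ∧ ψ_r` some `n ψ(u)`, `n ∈ M`, is in `ℤ[G]`. For `M = {1}` this is Rubin's
conjecture, if `M` is the set of the numbers prime to `p` it is its `p`-part. -/
def RubinUpTo (D : RubinData F H G) (M : Submonoid ℕ) (T : Finset (HeightOneSpectrum (𝓞 F))) :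
    Prop :=
  ∃ u : Wedge G D.r (D.U T), D.InER u ∧ D.IsStark T u ∧ ∀ ψ : Fin D.r → GHom G (D.U T),
    ∃ n ∈ M, ∃ z : MonoidAlgebra ℤ G, (n : MonoidAlgebra ℚ G) * u.value ψ = toQ z

/-- `u` is a place over `S ∖ {v_1, ..., v_r}` -/
def Other (D : RubinData F H G) (u : Place H) : Prop :=
  InS (D.S : Set (HeightOneSpectrum (𝓞 F))) u ∧ ∀ i, ¬ Conj G u (D.w i)

variable (G) in
/-- the decomposition group of `u` -/
def Dec (u : Place H) : Subgroup G where
  carrier := {γ | Fixes u γ}
  mul_mem' := by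
    intro a b ha hb x
    rw [mul_smul, ha, hb]
  one_mem' := by
    intro x
    rw [one_smul]
  inv_mem' := by
    intro a ha x
    have h := ha (a⁻¹ • x)
    rw [smul_inv_smul] at h
    exact h.symm

/-- the numbers of elements of the decomposition groups of the places of `S ∖ {v_1, ..., v_r}` -/
def decCards (D : RubinData F H G) : Set ℤ :=
  {a | ∃ u : Place H, Other D u ∧ a = Nat.card (Dec G u)}

end defs

end Pool.Agent.Run7.h97.RB
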