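import Pool.Agent.Run7.h97.RB.F

/-!
# Rubin's conjecture for the sets `S ∪ {v}`: the subgroup of the good Frobenius automorphisms
-/

set_option autoImplicit false
set_option linter.unusedSectionVars false

open NumberField IsDedekindDomain Filter Topology

noncomputable section

namespace Pool.Agent.Run7.h97.RB

open Pool.Agent.K3h30.RS
open Pool.Agent.K3h62.RS (charValue_mul charValue_eq toR_single cvHom_single two_le_absNorm)

/-! ## Sums and multiples -/

section

variable {H G : Type} [Field H] [NumberField H] [CommGroup G] [Finite G] [MulSemiringAction G H]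
variable {r : ℕ} {U : Subgroup Hˣ}

/-- the multiple `q u` -/
def scale (q : MonoidAlgebra ℚ G) (u : Wedge G r U) : Wedge G r U :=
  ⟨u.n, fun k => q * u.c k, u.x⟩

theorem scale_regulator (q : MonoidAlgebra ℚ G) (u : Wedge G r U) (w : Fin r → Place H) :
    (scale q u).regulator w = toR q * u.regulator w := by
  unfold Wedge.regulator
  rw [Finset.mul_sum]
  refine Finset.sum_congr rfl fun k _ => ?_
  change toR (q * u.c k) * _ = _
  rw [map_mul, mul_assoc]
  rfl

theorem scale_value (q : MonoidAlgebra ℚ G) (u : Wedge G r U) (ψ : Fin r → GHom G U) :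
    (scale q u).value ψ = q * u.value ψ := by
  unfold Wedge.value
  rw [Finset.mul_sum]
  refine Finset.sum_congr rfl fun k _ => ?_
  change (q * u.c k) * _ = _
  rw [mul_assoc]
  rfl

/-- the sum of two elements -/
def sum (u u' : Wedge G r U) : Wedge G r U :=
  ⟨u.n + u'.n, Fin.append u.c u'.c, Fin.append u.x u'.x⟩

theorem sum_regulator (u u' : Wedge G r U) (w : Fin r → Place H) :
    (sum u u').regulator w = u.regulator w + u'.regulator w := by
  unfold Wedge.regulator
  change ∑ k : Fin (u.n + u'.n), toR (Fin.append u.c u'.c k) * Matrix.det (Matrix.of fun a b =>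
    reg G (w a) (Fin.append u.x u'.x k b : Hˣ)) = _
  rw [Fin.sum_univ_add]
  simp only [Fin.append_left, Fin.append_right]

theorem sum_value (u u' : Wedge G r U) (ψ : Fin r → GHom G U) :
    (sum u u').value ψ = u.value ψ + u'.value ψ := by
  unfold Wedge.value
  change ∑ k : Fin (u.n + u'.n), Fin.append u.c u'.c k * toQ (Matrix.det (Matrix.of fun a b =>
    (ψ a).f (Additive.ofMul (Fin.append u.x u'.x k b)))) = _
  rw [Fin.sum_univ_add]
  simp only [Fin.append_left, Fin.append_right]

theorem sum_c (u u' : Wedge G r U) {P : MonoidAlgebra ℚ G → Prop} (h : ∀ k, P (u.c k))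
    (h' : ∀ k, P (u'.c k)) : ∀ k, P ((sum u u').c k) := by
  intro k
  change P (Fin.append u.c u'.c k)
  refine Fin.addCases (fun i => ?_) (fun i => ?_) k
  · rw [Fin.append_left]
    exact h i
  · rw [Fin.append_right]
    exact h' i

end

section

variable {F H G : Type} [Field F] [NumberField F] [Field H] [NumberField H] [Algebra F H]
  [CommGroup G] [Finite G] [MulSemiringAction G H] [hG : IsGaloisGroup G F H]

theorem cv_single (χ : G →* ℂˣ) (g : G) :
    charValue χ (toR (MonoidAlgebra.single g (1 : ℚ))) = (χ g : ℂ) := by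
  rw [toR_single, charValue_eq, cvHom_single]
  norm_num

theorem cv_add (χ : G →* ℂˣ) (a b : MonoidAlgebra ℝ G) :
    charValue χ (a + b) = charValue χ a + charValue χ b := by
  rw [charValue_eq, charValue_eq, charValue_eq, map_add]

theorem single_mul_single' (g h : G) : (MonoidAlgebra.single g (1 : ℚ)) *
    MonoidAlgebra.single h 1 = MonoidAlgebra.single (g * h) 1 := by
  rw [MonoidAlgebra.single_mul_single, one_mul]

/-- **The Stark element for `S` exists if those for the sets `S ∪ {v}` exist, for prime ideals `v`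
whose Frobenius automorphisms generate `G`.** -/
theorem stark_of_closure (D : RubinData F H G) (T : Finset (HeightOneSpectrum (𝓞 F)))
    (h2 : Two D) (A : Set G) (hcl : Subgroup.closure A = ⊤)
    (h : ∀ g ∈ A, g ≠ 1 → ∃ (v : HeightOneSpectrum (𝓞 F)) (hv : v ∉ D.S) (h1 : D.σ v ≠ 1),
      D.σ v = g ∧ (addPrime D v hv h1).Stark T) : D.Stark T := by
  classical
  have hone := lim_one D h2 T
  let _ := Fintype.ofFinite G
  have hE : ∀ g : G, ∃ E : Wedge G D.r (D.U T), D.InER E ∧ ∀ (χ : G →* ℂˣ) (l : ℂ), Lim D T χ l →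
      charValue χ (E.regulator D.w) = (1 - (χ g : ℂ)) * l := by
    intro g
    have hg : g ∈ Subgroup.closure A := by
      rw [hcl]
      exact Subgroup.mem_top g
    have zero : ∃ E : Wedge G D.r (D.U T), D.InER E ∧ ∀ (χ : G →* ℂˣ) (l : ℂ), Lim D T χ l →
        charValue χ (E.regulator D.w) = (1 - (χ 1 : ℂ)) * l := by
      refine ⟨⟨0, fun k => k.elim0, fun k => k.elim0⟩, fun χ _ k => k.elim0, fun χ l _ => ?_⟩
      have h3 : (⟨0, fun k => k.elim0, fun k => k.elim0⟩ : Wedge G D.r (D.U T)).regulator D.w =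
          0 := rfl
      rw [h3, map_one, Units.val_one, sub_self, zero_mul, charValue_eq, map_zero]
    induction hg using Subgroup.closure_induction with
    | mem g hg =>
      by_cases hg1 : g = 1
      · rw [hg1]
        exact zero
      · obtain ⟨v, hv, h1, h3, h4⟩ := h g hg hg1
        subst h3
        exact exists_descend D hv h1 T h2 h4
    | one => exact zero
    | mul a b _ _ ha hb =>
      obtain ⟨E, e1, e2⟩ := ha
      obtain ⟨E', e1', e2'⟩ := hb
      refine ⟨sum E (scale (MonoidAlgebra.single a 1) E'), ?_, ?_⟩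
      · intro χ hχ
        refine sum_c _ _ (P := fun c => charValue χ (toR c) = 0) (e1 χ hχ) fun k => ?_
        change charValue χ (toR (MonoidAlgebra.single a 1 * E'.c k)) = 0
        rw [map_mul, charValue_mul, e1' χ hχ k, mul_zero]
      · intro χ l hl
        rw [sum_regulator, scale_regulator, cv_add, charValue_mul, cv_single, e2 χ l hl,
          e2' χ l hl, map_mul, Units.val_mul]
        ring
    | inv a _ ha =>
      obtain ⟨E, e1, e2⟩ := ha
      refine ⟨scale (-MonoidAlgebra.single a⁻¹ 1) E, ?_, ?_⟩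
      · intro χ hχ k
        change charValue χ (toR (-MonoidAlgebra.single a⁻¹ 1 * E.c k)) = 0
        rw [map_mul, charValue_mul, e1 χ hχ k, mul_zero]
      · intro χ l hl
        have h3 : charValue χ (toR (-MonoidAlgebra.single a⁻¹ (1 : ℚ))) =
            -((χ a : ℂ))⁻¹ := by
          rw [map_neg, charValue_eq, map_neg, ← charValue_eq, cv_single, map_inv,
            Units.val_inv_eq_inv_val]
        rw [scale_regulator, charValue_mul, e2 χ l hl, h3, map_inv, Units.val_inv_eq_inv_val]
        have h4 : (χ a : ℂ) ≠ 0 := (χ a).ne_zero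
        field_simp
        ring
  choose E hE1 hE2 using hE
  obtain ⟨u, hu1, hu2⟩ := exists_sum E
    (algebraMap ℚ (MonoidAlgebra ℚ G) ((Fintype.card G : ℚ)⁻¹)) D.w
  refine ⟨u, ?_, ?_⟩
  · intro χ hχ k
    obtain ⟨i, k', h3⟩ := hu1 k
    rw [h3, map_mul, charValue_mul, hE1 i χ hχ k', mul_zero]
  · intro χ
    have key : ∀ l, Lim D T χ l → charValue χ (u.regulator D.w) =
        ((Fintype.card G : ℂ)⁻¹) * ∑ g : G, (1 - (χ g : ℂ)) * l := by
      intro l hl
      rw [hu2, charValue_mul, charValue_eq χ (∑ i, (E i).regulator D.w), map_sum]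
      congr 1
      · rw [MonoidAlgebra.coe_algebraMap]
        change charValue χ (toR (MonoidAlgebra.single 1 ((Fintype.card G : ℚ)⁻¹))) = _
        rw [toR_single, charValue_eq, cvHom_single, map_one]
        push_cast
        ring
      · refine Finset.sum_congr rfl fun g _ => ?_
        rw [← charValue_eq]
        exact hE2 g χ l hl
    by_cases hχ : χ = 1
    · subst hχ
      rw [key 0 hone]
      simp only [mul_zero, Finset.sum_const_zero]
      exact hone
    · obtain ⟨g₀, hgA, hg₀⟩ : ∃ g₀ ∈ A, χ g₀ ≠ 1 := by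
        by_contra hcon
        push Not at hcon
        apply hχ
        have h3 : Subgroup.closure A ≤ χ.ker := by
          rw [Subgroup.closure_le]
          intro g hg
          exact hcon g hg
        rw [hcl] at h3
        exact MonoidHom.ext fun g => h3 (Subgroup.mem_top g)
      have hg1 : g₀ ≠ 1 := by
        rintro rfl
        exact hg₀ (map_one χ)
      obtain ⟨v, hv, h1, h3, h4⟩ := h g₀ hgA hg1
      subst h3
      obtain ⟨u', -, su'⟩ : ∃ u : Wedge G D.r ((addPrime D v hv h1).U T),
        (addPrime D v hv h1).InER u ∧ (addPrime D v hv h1).IsStark T u := h4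
      obtain ⟨l, hl⟩ := exists_lim D hv h1 T su' hg₀
      rw [key l hl]
      have h5 : ∑ g : G, (χ g : ℂ) = 0 := by
        have h6 : (χ (D.σ v) : ℂ) * ∑ g : G, (χ g : ℂ) = ∑ g : G, (χ g : ℂ) := by
          rw [Finset.mul_sum, ← Equiv.sum_comp (Equiv.mulLeft (D.σ v)) (fun g => (χ g : ℂ))]
          refine Finset.sum_congr rfl fun g _ => ?_
          rw [Equiv.coe_mulLeft, map_mul, Units.val_mul]
        have h7 : ((χ (D.σ v) : ℂ) - 1) * ∑ g : G, (χ g : ℂ) = 0 := by
          rw [sub_mul, h6, one_mul, sub_self]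
        rcases mul_eq_zero.1 h7 with h8 | h8
        · exfalso
          apply hg₀
          apply Units.ext
          rw [Units.val_one]
          exact sub_eq_zero.1 h8
        · exact h8
      have h6 : ∑ g : G, (1 - (χ g : ℂ)) * l = (Fintype.card G : ℂ) * l := by
        rw [← Finset.sum_mul, Finset.sum_sub_distrib, h5, sub_zero]
        simp
      rw [h6, ← mul_assoc, inv_mul_cancel₀, one_mul]
      · exact hl
      · exact_mod_cast Fintype.card_ne_zero

/-- the `d` for which `(1 - d⁻¹) V` is integral up to `M` -/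
def IntFor (M : Submonoid ℕ) (V : MonoidAlgebra ℚ G) (d : G) : Prop :=
  ∃ n ∈ M, ∃ z : MonoidAlgebra ℤ G,
    (n : MonoidAlgebra ℚ G) * ((1 - MonoidAlgebra.single d⁻¹ 1) * V) = toQ z

theorem toQ_single' (g : G) : toQ (MonoidAlgebra.single g (1 : ℤ)) = MonoidAlgebra.single g 1 := by
  simp [toQ]

theorem intFor_one (M : Submonoid ℕ) (V : MonoidAlgebra ℚ G) : IntFor M V 1 := by
  refine ⟨1, M.one_mem, 0, ?_⟩
  have h3 : (1 : MonoidAlgebra ℚ G) - MonoidAlgebra.single (1 : G)⁻¹ 1 = 0 := by
    rw [inv_one]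
    exact sub_self _
  rw [h3, zero_mul, mul_zero, map_zero]

theorem intFor_mul {M : Submonoid ℕ} {V : MonoidAlgebra ℚ G} {d e : G} (hd : IntFor M V d)
    (he : IntFor M V e) : IntFor M V (d * e) := by
  obtain ⟨n, hn, z, hz⟩ := hd
  obtain ⟨n', hn', z', hz'⟩ := he
  refine ⟨n * n', M.mul_mem hn hn', (n' : MonoidAlgebra ℤ G) * z +
    (n : MonoidAlgebra ℤ G) * (MonoidAlgebra.single d⁻¹ 1 * z'), ?_⟩
  rw [map_add, map_mul, map_mul, map_mul, map_natCast, map_natCast, toQ_single', ← hz, ← hz',
    mul_inv, ← single_mul_single']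
  push_cast
  ring

theorem intFor_inv {M : Submonoid ℕ} {V : MonoidAlgebra ℚ G} {d : G} (hd : IntFor M V d) :
    IntFor M V d⁻¹ := by
  obtain ⟨n, hn, z, hz⟩ := hd
  refine ⟨n, hn, -(MonoidAlgebra.single d 1 * z), ?_⟩
  rw [map_neg, map_mul, toQ_single', ← hz, inv_inv]
  have h3 : (MonoidAlgebra.single d (1 : ℚ)) * MonoidAlgebra.single d⁻¹ 1 = 1 := by
    rw [single_mul_single', mul_inv_cancel]
    rfl
  linear_combination (-((n : MonoidAlgebra ℚ G) * V)) * h3

theorem intFor_closure {M : Submonoid ℕ} {V : MonoidAlgebra ℚ G} {A : Set G}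
    (h : ∀ d ∈ A, IntFor M V d) {d : G} (hd : d ∈ Subgroup.closure A) : IntFor M V d := by
  induction hd using Subgroup.closure_induction with
  | mem g hg => exact h g hg
  | one => exact intFor_one M V
  | mul a b _ _ ha hb => exact intFor_mul ha hb
  | inv a _ ha => exact intFor_inv ha

/-- **Prime ideals whose Frobenius automorphisms generate `G` suffice.** -/
theorem main_closure (D : RubinData F H G) (M : Submonoid ℕ)
    (T : Finset (HeightOneSpectrum (𝓞 F))) (hT : Disjoint D.S T) (h2 : Two D) (m : ℕ) (hm : m ∈ M)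
    (hspan : (m : ℤ) ∈ Ideal.span (decCards D)) (A : Set G) (hcl : Subgroup.closure A = ⊤)
    (h : ∀ g ∈ A, g ≠ 1 → ∃ (v : HeightOneSpectrum (𝓞 F)) (hv : v ∉ D.S) (h1 : D.σ v ≠ 1),
      v ∉ T ∧ D.σ v = g ∧ RubinUpTo (addPrime D v hv h1) M T) : RubinUpTo D M T := by
  obtain ⟨η, eη, sη⟩ := stark_of_closure D T h2 A hcl (fun g hgA hg => by
    obtain ⟨v, hv, h1, -, h3, h4⟩ := h g hgA hg
    exact ⟨v, hv, h1, h3, stark_of_rubin h4⟩)
  refine ⟨η, eη, sη, fun ψ => ?_⟩
  have hI : ∀ d : G, IntFor M (η.value ψ) d := by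
    intro d
    refine intFor_closure (A := A) ?_ (by rw [hcl]; exact Subgroup.mem_top d)
    intro g hgA
    by_cases hg : g = 1
    · rw [hg]
      exact intFor_one M _
    · obtain ⟨v, hv, h1, hvT, h3, h4⟩ := h g hgA hg
      obtain ⟨u', eu', su', iu'⟩ : ∃ u : Wedge G D.r ((addPrime D v hv h1).U T),
        (addPrime D v hv h1).InER u ∧ (addPrime D v hv h1).IsStark T u ∧
          ∀ ψ : Fin D.r → GHom G ((addPrime D v hv h1).U T), ∃ n ∈ M, ∃ z : MonoidAlgebra ℤ G,
            (n : MonoidAlgebra ℚ G) * u.value ψ = toQ z := h4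
      subst h3
      obtain ⟨ψ', hψ'⟩ := key_value D hv h1 T h2 hvT hT η eη sη u' eu' su' ψ
      unfold IntFor
      rw [hψ']
      exact iu' ψ'
  obtain ⟨n, hn, z, hz⟩ := int_of_span M (η.value ψ) (decCards D) (by
    rintro a ⟨u, hu, rfl⟩
    have h3 := int_of_dec M u _ (nrm_value D h2 η eη hu ψ) (fun d _ => hI d)
    exact_mod_cast h3) hspan
  refine ⟨n * m, M.mul_mem hn hm, z, ?_⟩
  rw [← hz]
  push_cast
  ring

end

end Pool.Agent.Run7.h97.RB
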