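import Pool.Agent.Run7.h97.RB.S
import Pool.Agent.W352.ChAbs.Main
import Pool.Agent.W401.Cheb.Main
import Pool.Agent.W401.Cheb.Frob

/-!
# Rubin's conjecture for the sets `S ∪ {v}`: the density
-/

set_option autoImplicit false
set_option linter.unusedSectionVars false

open NumberField IsDedekindDomain Filter Topology

noncomputable section

namespace Pool.Agent.Run7.h97.RB

open Pool.Agent.K3h30.RS
open Pool.Agent.W401.Cheb (GK ChebK dens chebotarev torsor)

theorem chebK : ChebK := Pool.Agent.W352.ChAbs.main chebotarev fun L => torsor L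

section

variable {F H G : Type} [Field F] [NumberField F] [Field H] [NumberField H] [Algebra F H]
  [CommGroup G] [Finite G] [MulSemiringAction G H] [hG : IsGaloisGroup G F H]

/-- the projection of the absolute Galois group -/
theorem exists_proj (D : RubinData F H G) : ∃ π : GK F →* G, Function.Surjective π ∧
    IsOpen (π.ker : Set (GK F)) ∧ ∀ v : HeightOneSpectrum (𝓞 F), v ∉ D.S → ∀ σ : GK F,
      Pool.Agent.W401.Cheb.IsFrob v σ → D.σ v = π σ := by
  classical
  have hgal : IsGalois F H := IsGaloisGroup.isGalois G F H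
  let ι : H →ₐ[F] AlgebraicClosure F := IsAlgClosed.lift
  let _ : Algebra H (AlgebraicClosure F) := ι.toRingHom.toAlgebra
  have : IsScalarTower F H (AlgebraicClosure F) :=
    IsScalarTower.of_algebraMap_eq' ι.comp_algebraMap.symm
  let r : GK F →* (H ≃ₐ[F] H) := AlgEquiv.restrictNormalHom H
  have hr : ∀ (σ : GK F) (x : H), ι (r σ x) = σ (ι x) := fun σ x =>
    AlgEquiv.restrictNormal_commutes σ H x
  have hrs : Function.Surjective r := AlgEquiv.restrictNormalHom_surjective (F := F) (K₁ := H)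
    (AlgebraicClosure F)
  let e := IsGaloisGroup.mulEquivAlgEquiv G F H
  let π : GK F →* G := e.symm.toMonoidHom.comp r
  have hπ : ∀ (σ : GK F) (x : H), ι (π σ • x) = σ (ι x) := by
    intro σ x
    rw [← hr]
    congr 1
    have h1 : e (π σ) = r σ := e.apply_symm_apply (r σ)
    rw [← h1]
    rfl
  refine ⟨π, e.symm.surjective.comp hrs, ?_, ?_⟩
  · have hfd : FiniteDimensional F ι.fieldRange := by
      exact (AlgEquiv.ofInjectiveField ι).toLinearEquiv.finiteDimensional
    refine Subgroup.isOpen_mono (H₁ := ι.fieldRange.fixingSubgroup) ?_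
      (IntermediateField.fixingSubgroup_isOpen ι.fieldRange)
    intro σ hσ
    rw [MonoidHom.mem_ker]
    have h1 : r σ = 1 := by
      refine AlgEquiv.ext fun x => ι.injective ?_
      change ι (r σ x) = ι x
      rw [hr]
      exact (IntermediateField.mem_fixingSubgroup_iff _ _).mp hσ (ι x) ⟨x, rfl⟩
    change e.symm (r σ) = 1
    rw [h1, map_one]
  · rintro v hv σ ⟨Q, hQ, hQv, hQσ⟩
    have hQp := hQ.isPrime
    let P : Ideal (𝓞 H) := Q.comap (RingOfIntegers.mapRingHom (ι : H →+* AlgebraicClosure F))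
    have hPp : P.IsPrime := Ideal.comap_isPrime _ _
    have hPv : P.comap (algebraMap (𝓞 F) (𝓞 H)) = v.asIdeal := by
      rw [← hQv]
      ext x
      rw [Ideal.mem_comap, Ideal.mem_comap, Ideal.mem_comap]
      have h2 : RingOfIntegers.mapRingHom (ι : H →+* AlgebraicClosure F)
          (algebraMap (𝓞 F) (𝓞 H) x) = algebraMap (𝓞 F) (𝓞 (AlgebraicClosure F)) x := by
        apply RingOfIntegers.ext
        change ι (algebraMap F H (x : F)) = algebraMap F (AlgebraicClosure F) (x : F)
        exact ι.commutes _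
      rw [h2]
    have hP0 : P ≠ ⊥ := by
      intro h0
      rw [h0] at hPv
      apply v.ne_bot
      rw [← hPv]
      exact (RingHom.injective_iff_ker_eq_bot _).mp
        (FaithfulSMul.algebraMap_injective (𝓞 F) (𝓞 H))
    let w : HeightOneSpectrum (𝓞 H) := ⟨P, hPp, hP0⟩
    have hw : Above {v} w := ⟨v, rfl, hPv⟩
    have hfr : IsFrob (H := H) v (π σ) := by
      refine isFrob_of_one hw fun x => ?_
      have h1 : π σ • x - x ^ (Ideal.absNorm v.asIdeal) ∈ w.asIdeal := by
        change _ ∈ Q.comap _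
        rw [Ideal.mem_comap, map_sub, map_pow]
        have h2 := hQσ (RingOfIntegers.mapRingHom (ι : H →+* AlgebraicClosure F) x)
        have h3 : σ • RingOfIntegers.mapRingHom (ι : H →+* AlgebraicClosure F) x =
            RingOfIntegers.mapRingHom (ι : H →+* AlgebraicClosure F) (π σ • x) := by
          apply RingOfIntegers.ext
          change σ (ι (x : H)) = ι (π σ • (x : H))
          rw [hπ]
        rw [h3] at h2
        exact h2
      rw [← w.valuation_lt_one_iff_mem (K := H)] at h1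
      exact h1
    exact Pool.Agent.K3h23.RS.t_FROBUNIQ F H G v (D.unramified v hv) _ _ (D.frob v hv) hfr

/-- **The density of the prime ideals whose Frobenius automorphism is not in a subgroup** -/
theorem dens_frob (D : RubinData F H G) (G' : Subgroup G) (P : HeightOneSpectrum (𝓞 F) → Prop)
    (bad : Finset (HeightOneSpectrum (𝓞 F))) (hP : ∀ v, v ∉ bad → (P v ↔ D.σ v ∉ G')) :
    Tendsto (fun X : ℕ => (Nat.card {v : HeightOneSpectrum (𝓞 F) //
      Ideal.absNorm v.asIdeal ≤ X ∧ P v} : ℝ) / (Nat.primeCounting X : ℝ)) atTop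
      (𝓝 (1 - (Nat.card G' : ℝ) / Nat.card G)) := by
  classical
  let _ := Fintype.ofFinite G
  obtain ⟨π, hs, ho, hfr⟩ := exists_proj D
  let C : Set (GK F) := {σ | π σ ∉ G'}
  have h1 := chebK F π.ker ho C (fun σ hσ τ => by
    change π (τ * σ * τ⁻¹) ∉ G'
    rw [map_mul, map_mul, map_inv, mul_comm (π τ), mul_inv_cancel_right]
    exact hσ) (fun σ hσ u hu => by
    change π (σ * u) ∉ G'
    rw [map_mul, MonoidHom.mem_ker.mp hu, mul_one]
    exact hσ)
  have hcard : Nat.card (GK F ⧸ π.ker) = Nat.card G :=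
    Nat.card_congr (QuotientGroup.quotientKerEquivOfSurjective π hs).toEquiv
  have hcl : ((QuotientGroup.mk : GK F → GK F ⧸ π.ker) '' C).ncard = Nat.card G - Nat.card G' := by
    have h2 : ((QuotientGroup.quotientKerEquivOfSurjective π hs) ''
        ((QuotientGroup.mk : GK F → GK F ⧸ π.ker) '' C)) = ((G' : Set G))ᶜ := by
      ext x
      constructor
      · rintro ⟨y, ⟨σ, hσ, rfl⟩, rfl⟩
        exact hσ
      · intro hx
        obtain ⟨σ, rfl⟩ := hs x
        exact ⟨QuotientGroup.mk σ, ⟨σ, hx, rfl⟩, rfl⟩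
    rw [← Set.ncard_image_of_injective _
      (QuotientGroup.quotientKerEquivOfSurjective π hs).injective, h2, Set.ncard_compl,
      ← Nat.card_coe_set_eq]
    rfl
  have hlim : ((((QuotientGroup.mk : GK F → GK F ⧸ π.ker) '' C).ncard : ℝ) /
      (Nat.card (GK F ⧸ π.ker) : ℝ)) = 1 - (Nat.card G' : ℝ) / Nat.card G := by
    have h3 : Nat.card G' ≤ Nat.card G := Subgroup.card_le_card_group G'
    have h4 : (Nat.card G : ℝ) ≠ 0 := by exact_mod_cast (Nat.card_pos (α := G)).ne'
    rw [hcl, hcard, Nat.cast_sub h3]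
    field_simp
  rw [hlim] at h1
  -- the comparison
  let bad' := bad ∪ D.S
  have hPQ : ∀ v, v ∉ bad' → (P v ↔ ∃ σ ∈ C, Pool.Agent.W401.Cheb.IsFrob v σ) := by
    intro v hv
    rw [Finset.mem_union, not_or] at hv
    rw [hP v hv.1]
    constructor
    · intro h
      obtain ⟨σ, hσ⟩ := Pool.Agent.W401.Frob.exists_frob v
      refine ⟨σ, ?_, hσ⟩
      change π σ ∉ G'
      rw [← hfr v hv.2 σ hσ]
      exact h
    · rintro ⟨σ, hσ, hσ'⟩
      rw [hfr v hv.2 σ hσ']
      exact hσ
  have hfin : ∀ (X : ℕ) (R : HeightOneSpectrum (𝓞 F) → Prop),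
      {v : HeightOneSpectrum (𝓞 F) | Ideal.absNorm v.asIdeal ≤ X ∧ R v}.Finite := by
    intro X R
    refine (Set.Finite.of_finite_image (f := fun w : HeightOneSpectrum (𝓞 F) => w.asIdeal)
      ((Ideal.finite_setOfPred_absNorm_le X).subset ?_) ?_ :
      {v : HeightOneSpectrum (𝓞 F) | Ideal.absNorm v.asIdeal ≤ X}.Finite).subset
        fun v hv => hv.1
    · rintro _ ⟨w, hw, rfl⟩
      exact hw
    · intro w _ w' _ h
      exact HeightOneSpectrum.ext h
  have hle : ∀ (X : ℕ) (R R' : HeightOneSpectrum (𝓞 F) → Prop), (∀ v, v ∉ bad' → R v → R' v) →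
      Nat.card {v : HeightOneSpectrum (𝓞 F) // Ideal.absNorm v.asIdeal ≤ X ∧ R v} ≤
      Nat.card {v : HeightOneSpectrum (𝓞 F) // Ideal.absNorm v.asIdeal ≤ X ∧ R' v} +
        bad'.card := by
    intro X R R' h
    have h3 : {v : HeightOneSpectrum (𝓞 F) | Ideal.absNorm v.asIdeal ≤ X ∧ R v} ⊆
        {v : HeightOneSpectrum (𝓞 F) | Ideal.absNorm v.asIdeal ≤ X ∧ R' v} ∪
          (bad' : Set (HeightOneSpectrum (𝓞 F))) := by
      intro v hv
      by_cases hb : v ∈ bad'
      · exact Or.inr hb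
      · exact Or.inl ⟨hv.1, h v hb hv.2⟩
    have h4 := Set.ncard_le_ncard h3 ((hfin X R').union (Finset.finite_toSet _))
    have h5 := Set.ncard_union_le {v : HeightOneSpectrum (𝓞 F) |
      Ideal.absNorm v.asIdeal ≤ X ∧ R' v} (bad' : Set (HeightOneSpectrum (𝓞 F)))
    rw [Set.ncard_coe_finset] at h5
    exact h4.trans h5
  have hdiff : Tendsto (fun X : ℕ => (Nat.card {v : HeightOneSpectrum (𝓞 F) //
      Ideal.absNorm v.asIdeal ≤ X ∧ P v} : ℝ) / (Nat.primeCounting X : ℝ) -
      dens (fun v : HeightOneSpectrum (𝓞 F) => ∃ σ ∈ C, Pool.Agent.W401.Cheb.IsFrob v σ) X) atTop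
      (𝓝 0) := by
    have h3 : Tendsto (fun n : ℕ => (bad'.card : ℝ) / (Nat.primeCounting n : ℝ)) atTop (𝓝 0) := by
      apply Tendsto.const_div_atTop
      exact tendsto_natCast_atTop_atTop.comp Nat.tendsto_primeCounting
    refine squeeze_zero_norm (fun X => ?_) h3
    unfold dens
    rw [← sub_div, Real.norm_eq_abs, abs_div,
      abs_of_nonneg (Nat.cast_nonneg (Nat.primeCounting X) : (0 : ℝ) ≤ (Nat.primeCounting X : ℝ))]
    apply div_le_div_of_nonneg_right _ (Nat.cast_nonneg _)
    rw [abs_sub_le_iff]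
    constructor
    · have := hle X P (fun v => ∃ σ ∈ C, Pool.Agent.W401.Cheb.IsFrob v σ)
        (fun v hv h => (hPQ v hv).1 h)
      have h' : (Nat.card {v : HeightOneSpectrum (𝓞 F) // Ideal.absNorm v.asIdeal ≤ X ∧ P v} : ℝ) ≤
          (Nat.card {v : HeightOneSpectrum (𝓞 F) // Ideal.absNorm v.asIdeal ≤ X ∧
            ∃ σ ∈ C, Pool.Agent.W401.Cheb.IsFrob v σ} : ℝ) + bad'.card := by exact_mod_cast this
      linarith
    · have := hle X (fun v => ∃ σ ∈ C, Pool.Agent.W401.Cheb.IsFrob v σ) P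
        (fun v hv h => (hPQ v hv).2 h)
      have h' : (Nat.card {v : HeightOneSpectrum (𝓞 F) // Ideal.absNorm v.asIdeal ≤ X ∧
            ∃ σ ∈ C, Pool.Agent.W401.Cheb.IsFrob v σ} : ℝ) ≤
          (Nat.card {v : HeightOneSpectrum (𝓞 F) // Ideal.absNorm v.asIdeal ≤ X ∧ P v} : ℝ) +
            bad'.card := by exact_mod_cast this
      linarith
  have h5 := h1.add hdiff
  rw [add_zero] at h5
  refine h5.congr fun X => ?_
  ring

end

end Pool.Agent.Run7.h97.RB
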