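import Pool.Agent.Run7.h97.RB.X

/-!
# Rubin's conjecture and the set `S`: the Stark element for `S` from those for `S ∪ {v}`
-/

set_option autoImplicit false
set_option linter.unusedSectionVars false

open NumberField IsDedekindDomain Filter Topology

noncomputable section

namespace Pool.Agent.Run7.h97.RB

open Pool.Agent.K3h30.RS
open Pool.Agent.K3h62.RS (charValue_mul charValue_eq toR_single cvHom_single two_le_absNorm)

section

variable {F H G : Type} [Field F] [NumberField F] [Field H] [NumberField H] [Algebra F H]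
  [CommGroup G] [Finite G] [MulSemiringAction G H]

/-- sums of elements of `ℚ ⋀^r U` -/
theorem exists_sum {ι : Type} [Fintype ι] {r : ℕ} {U : Subgroup Hˣ} (E : ι → Wedge G r U)
    (q : MonoidAlgebra ℚ G) (w : Fin r → Place H) :
    ∃ u : Wedge G r U, (∀ k, ∃ i k', u.c k = q * (E i).c k') ∧
      u.regulator w = toR q * ∑ i, (E i).regulator w := by
  classical
  let e := (Fintype.equivFin (Σ i, Fin (E i).n)).symm
  refine ⟨⟨Fintype.card (Σ i, Fin (E i).n), fun k => q * (E (e k).1).c (e k).2,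
    fun k => (E (e k).1).x (e k).2⟩, fun k => ⟨_, _, rfl⟩, ?_⟩
  unfold Wedge.regulator
  change ∑ k, toR (q * (E (e k).1).c (e k).2) *
    Matrix.det (Matrix.of fun a b => reg G (w a) ((E (e k).1).x (e k).2 b : Hˣ)) = _
  rw [Equiv.sum_comp e (fun z : Σ i, Fin (E i).n => toR (q * (E z.1).c z.2) *
    Matrix.det (Matrix.of fun a b => reg G (w a) ((E z.1).x z.2 b : Hˣ))), Fintype.sum_sigma,
    Finset.mul_sum]
  refine Finset.sum_congr rfl fun i _ => ?_
  rw [Finset.mul_sum]
  refine Finset.sum_congr rfl fun k _ => ?_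
  rw [map_mul, mul_assoc]

theorem active_iff {D : RubinData F H G} (h2 : Two D) (χ : G →* ℂˣ) :
    D.Active χ ↔ ∀ w : Place H, InS (D.S : Set (HeightOneSpectrum (𝓞 F))) w →
      (∀ i, ¬ Conj G w (D.w i)) → ∃ γ : G, Fixes w γ ∧ χ γ ≠ 1 := by
  constructor
  · rintro (h | ⟨-, h⟩)
    · exact h
    · obtain ⟨u, u', a, b, c, d, e⟩ := h2
      exact absurd (h u u' a b c d) e
  · intro h
    exact Or.inl h

/-- the limit of `s ^ (-r) L_{S,T}(χ⁻¹, s)` is `l` -/
def Lim (D : RubinData F H G) (T : Finset (HeightOneSpectrum (𝓞 F))) (χ : G →* ℂˣ) (l : ℂ) : Prop :=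
  Tendsto (fun s : ℂ => (s ^ D.r)⁻¹ * D.LT T χ⁻¹ s) (𝓝[≠] 0) (𝓝 l)

theorem tendsto_factor (χ : G →* ℂˣ) (g : G) (v : HeightOneSpectrum (𝓞 F)) :
    Tendsto (fun s : ℂ => 1 - ((χ⁻¹ g : ℂˣ) : ℂ) * (Ideal.absNorm v.asIdeal : ℂ) ^ (-s)) (𝓝[≠] 0)
      (𝓝 (1 - ((χ⁻¹ g : ℂˣ) : ℂ))) := by
  have h0 : Continuous (fun s : ℂ => 1 - ((χ⁻¹ g : ℂˣ) : ℂ) *
      (Ideal.absNorm v.asIdeal : ℂ) ^ (-s)) := by
    refine continuous_const.sub (continuous_const.mul ?_)
    refine Continuous.const_cpow (by fun_prop) (Or.inl ?_)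
    have := two_le_absNorm v
    exact_mod_cast (by omega : Ideal.absNorm v.asIdeal ≠ 0)
  have h1 := (h0.tendsto 0).mono_left (nhdsWithin_le_nhds (s := {0}ᶜ))
  simpa using h1

variable [hG : IsGaloisGroup G F H]
variable (D : RubinData F H G) {v : HeightOneSpectrum (𝓞 F)} (hv : v ∉ D.S) (h1 : D.σ v ≠ 1)
  (T : Finset (HeightOneSpectrum (𝓞 F)))

theorem two_add {D : RubinData F H G} {v : HeightOneSpectrum (𝓞 F)} (hv : v ∉ D.S)
    (h1 : D.σ v ≠ 1) (h2 : Two D) : Two (addPrime D v hv h1) := by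
  obtain ⟨u, u', a, b, c, d, e⟩ := h2
  exact ⟨u, u', inS_cons hv a, inS_cons hv b, c, d, e⟩

theorem active_of_add (h2 : Two D) (χ : G →* ℂˣ) (h : (addPrime D v hv h1).Active χ) :
    D.Active χ := by
  rw [active_iff h2]
  rw [active_iff (two_add hv h1 h2)] at h
  intro w hw hi
  exact h w (inS_cons hv hw) hi

/-- an active character for `S` which is trivial at the Frobenius automorphism is the only kind
which is not active for `S ∪ {v}` -/
theorem active_add (h2 : Two D) (χ : G →* ℂˣ) (h : D.Active χ)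
    (h' : ¬ (addPrime D v hv h1).Active χ) : χ (D.σ v) = 1 := by
  by_contra hne
  apply h'
  rw [active_iff (two_add hv h1 h2)]
  rw [active_iff h2] at h
  intro w hw hi
  rcases inS_of_cons hv hw with h3 | ⟨w', rfl, hw'⟩
  · exact h w h3 hi
  · exact ⟨D.σ v, frob_fixes (D.frob v hv) hw', hne⟩

theorem lim_add {U : Subgroup Hˣ} {u : Wedge G D.r U} (su : (addPrime D v hv h1).IsStark T u)
    {χ : G →* ℂˣ} {l : ℂ} (hl : Lim D T χ l) :
    charValue χ (u.regulator D.w) = (1 - ((χ⁻¹ (D.σ v) : ℂˣ) : ℂ)) * l := by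
  have h3 := su χ
  have h4 := (tendsto_factor χ (D.σ v) v).mul hl
  refine tendsto_nhds_unique h3 (h4.congr' ?_)
  refine Filter.Eventually.of_forall fun s => ?_
  change _ = (s ^ D.r)⁻¹ * (addPrime D v hv h1).LT T χ⁻¹ s
  rw [addPrime_LT]
  ring

theorem exists_lim {U : Subgroup Hˣ} {u : Wedge G D.r U} (su : (addPrime D v hv h1).IsStark T u)
    {χ : G →* ℂˣ} (hχ : χ (D.σ v) ≠ 1) : ∃ l, Lim D T χ l := by
  have hne : (1 - ((χ⁻¹ (D.σ v) : ℂˣ) : ℂ)) ≠ 0 := by
    intro h
    apply hχ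
    rw [sub_eq_zero, MonoidHom.inv_apply] at h
    have h3 : (χ (D.σ v))⁻¹ = 1 := Units.ext h.symm
    exact inv_eq_one.1 h3
  have h3 := su χ
  have h4 := tendsto_factor χ (D.σ v) v
  refine ⟨_, (h3.div h4 hne).congr' ?_⟩
  filter_upwards [h4.eventually_ne hne] with s hs
  rw [Pi.div_apply]
  change (s ^ D.r)⁻¹ * (addPrime D v hv h1).LT T χ⁻¹ s / _ = _
  rw [addPrime_LT]
  field_simp

/-- The element `x_1^(1-σ) ∧ ... ∧ x_r^(1-σ)` for the Stark element of `S ∪ {v}` -/
theorem exists_descend (h2 : Two D) (h : (addPrime D v hv h1).Stark T) :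
    ∃ E : Wedge G D.r (D.U T), D.InER E ∧ ∀ (χ : G →* ℂˣ) (l : ℂ), Lim D T χ l →
      charValue χ (E.regulator D.w) = (1 - (χ (D.σ v) : ℂ)) * l := by
  obtain ⟨u, eu, su⟩ : ∃ u : Wedge G D.r ((addPrime D v hv h1).U T),
    (addPrime D v hv h1).InER u ∧ (addPrime D v hv h1).IsStark T u := h
  obtain ⟨b, hb⟩ := exists_reg_group (D.σ v)
  let κ : MonoidAlgebra ℚ G := -(MonoidAlgebra.single (D.σ v) 1 * b ^ D.r)
  have hκ : κ * (1 - MonoidAlgebra.single (D.σ v) 1) ^ D.r *
      (1 - MonoidAlgebra.single (D.σ v)⁻¹ 1) = 1 - MonoidAlgebra.single (D.σ v) 1 := by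
    have e1 : (MonoidAlgebra.single (D.σ v) (1 : ℚ)) * MonoidAlgebra.single (D.σ v)⁻¹ 1 = 1 := by
      rw [MonoidAlgebra.single_mul_single, mul_inv_cancel, mul_one]
      rfl
    have e2 := hb D.r
    rw [pow_succ] at e2
    change -(MonoidAlgebra.single (D.σ v) 1 * b ^ D.r) * _ * _ = _
    calc -(MonoidAlgebra.single (D.σ v) 1 * b ^ D.r) *
          (1 - MonoidAlgebra.single (D.σ v) 1) ^ D.r * (1 - MonoidAlgebra.single (D.σ v)⁻¹ 1) =
        b ^ D.r * (1 - MonoidAlgebra.single (D.σ v) (1 : ℚ)) ^ D.r *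
          (MonoidAlgebra.single (D.σ v) 1 * MonoidAlgebra.single (D.σ v)⁻¹ 1 -
            MonoidAlgebra.single (D.σ v) 1) := by ring
      _ = b ^ D.r * ((1 - MonoidAlgebra.single (D.σ v) 1) ^ D.r *
            (1 - MonoidAlgebra.single (D.σ v) 1)) := by rw [e1]; ring
      _ = _ := e2
  let E : Wedge G D.r (D.U T) := ⟨u.n, fun k => κ * u.c k, fun k j =>
    ⟨(u.x k j : Hˣ) * (act (D.σ v) (u.x k j : Hˣ))⁻¹, div_mem D hv h1 T (u.x k j).2⟩⟩
  have hreg : E.regulator D.w = toR (κ * (1 - MonoidAlgebra.single (D.σ v) 1) ^ D.r) *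
      u.regulator D.w := by
    unfold Wedge.regulator
    rw [Finset.mul_sum]
    change ∑ k : Fin u.n, toR (κ * u.c k) * Matrix.det (Matrix.of fun a b =>
      reg G (D.w a) ((u.x k b : Hˣ) * (act (D.σ v) (u.x k b : Hˣ))⁻¹)) = _
    refine Finset.sum_congr rfl fun k _ => ?_
    simp_rw [reg_div]
    rw [det_natCast_mul, map_mul, map_mul, map_pow, toR_one_sub]
    change _ * (_ * (Matrix.of fun a b => reg G (D.w a) (u.x k b : Hˣ)).det) = _
    ring
  refine ⟨E, ?_, ?_⟩
  · intro χ hχ k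
    change charValue χ (toR (κ * u.c k)) = 0
    rw [map_mul, charValue_mul, eu χ (fun h => hχ (active_of_add D hv h1 h2 χ h)) k, mul_zero]
  · intro χ l hl
    rw [hreg, charValue_mul, lim_add D hv h1 T su hl]
    have h3 := congrArg (fun z => charValue χ (toR z)) hκ
    simp only [map_mul toR (κ * _), charValue_mul χ (toR (κ * _))] at h3
    rw [toR_one_sub, toR_one_sub, cv_one_sub, cv_one_sub] at h3
    rw [← h3]
    rw [MonoidHom.inv_apply, map_inv]
    ring

/-- The Stark element for `S` exists if those for `S ∪ {v}` exist. -/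
theorem stark_of_add (h2 : Two D) (hone : Lim D T 1 0)
    (h : ∀ g : G, g ≠ 1 → ∃ (v : HeightOneSpectrum (𝓞 F)) (hv : v ∉ D.S) (h1 : D.σ v ≠ 1),
      D.σ v = g ∧ (addPrime D v hv h1).Stark T) : D.Stark T := by
  classical
  let _ := Fintype.ofFinite G
  have hE : ∀ g : G, ∃ E : Wedge G D.r (D.U T), D.InER E ∧ ∀ (χ : G →* ℂˣ) (l : ℂ), Lim D T χ l →
      charValue χ (E.regulator D.w) = (1 - (χ g : ℂ)) * l := by
    intro g
    by_cases hg : g = 1
    · refine ⟨⟨0, fun k => k.elim0, fun k => k.elim0⟩, fun χ _ k => k.elim0, fun χ l _ => ?_⟩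
      have h3 : (⟨0, fun k => k.elim0, fun k => k.elim0⟩ : Wedge G D.r (D.U T)).regulator D.w =
          0 := rfl
      rw [h3, hg, map_one, Units.val_one, sub_self, zero_mul, charValue_eq, map_zero]
    · obtain ⟨v, hv, h1, h3, h4⟩ := h g hg
      subst h3
      exact exists_descend D hv h1 T h2 h4
  choose E hE1 hE2 using hE
  obtain ⟨u, hu1, hu2⟩ := exists_sum E
    (algebraMap ℚ (MonoidAlgebra ℚ G) ((Fintype.card G : ℚ)⁻¹)) D.w
  refine ⟨u, ?_, ?_⟩
  · intro χ hχ k
    obtain ⟨i, k', h3⟩ := hu1 k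
    rw [h3, map_mul, charValue_mul, hE1 i χ hχ k', mul_zero]
  · intro χ
    have key : ∀ l, Lim D T χ l → charValue χ (u.regulator D.w) =
        ((Fintype.card G : ℂ)⁻¹) * ∑ g : G, (1 - (χ g : ℂ)) * l := by
      intro l hl
      rw [hu2, charValue_mul, charValue_eq χ (∑ i, (E i).regulator D.w), map_sum]
      congr 1
      · rw [MonoidAlgebra.coe_algebraMap]
        change charValue χ (toR (MonoidAlgebra.single 1 ((Fintype.card G : ℚ)⁻¹))) = _
        rw [toR_single, charValue_eq, cvHom_single, map_one]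
        push_cast
        ring
      · refine Finset.sum_congr rfl fun g _ => ?_
        rw [← charValue_eq]
        exact hE2 g χ l hl
    by_cases hχ : χ = 1
    · subst hχ
      rw [key 0 hone]
      simp only [mul_zero, Finset.sum_const_zero]
      exact hone
    · obtain ⟨g₀, hg₀⟩ : ∃ g₀, χ g₀ ≠ 1 := by
        by_contra hcon
        push Not at hcon
        exact hχ (MonoidHom.ext hcon)
      have hg1 : g₀ ≠ 1 := by
        rintro rfl
        exact hg₀ (map_one χ)
      obtain ⟨v, hv, h1, h3, h4⟩ := h g₀ hg1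
      subst h3
      obtain ⟨u', -, su'⟩ : ∃ u : Wedge G D.r ((addPrime D v hv h1).U T),
        (addPrime D v hv h1).InER u ∧ (addPrime D v hv h1).IsStark T u := h4
      obtain ⟨l, hl⟩ := exists_lim D hv h1 T su' hg₀
      rw [key l hl]
      have h5 : ∑ g : G, (χ g : ℂ) = 0 := by
        have h6 : (χ (D.σ v) : ℂ) * ∑ g : G, (χ g : ℂ) = ∑ g : G, (χ g : ℂ) := by
          rw [Finset.mul_sum, ← Equiv.sum_comp (Equiv.mulLeft (D.σ v)) (fun g => (χ g : ℂ))]
          refine Finset.sum_congr rfl fun g _ => ?_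
          rw [Equiv.coe_mulLeft, map_mul, Units.val_mul]
        have h7 : ((χ (D.σ v) : ℂ) - 1) * ∑ g : G, (χ g : ℂ) = 0 := by
          rw [sub_mul, h6, one_mul, sub_self]
        rcases mul_eq_zero.1 h7 with h8 | h8
        · exfalso
          apply hg₀
          apply Units.ext
          rw [Units.val_one]
          exact sub_eq_zero.1 h8
        · exact h8
      have h6 : ∑ g : G, (1 - (χ g : ℂ)) * l = (Fintype.card G : ℂ) * l := by
        rw [← Finset.sum_mul, Finset.sum_sub_distrib, h5, sub_zero]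
        simp
      rw [h6, ← mul_assoc, inv_mul_cancel₀, one_mul]
      · exact hl
      · exact_mod_cast Fintype.card_ne_zero

/-- **The key identity**: `(1 - σ_v⁻¹) ψ(η)` is a value of the Stark element for `S ∪ {v}`. -/
theorem key_value (h2 : Two D) (hvT : v ∉ T) (hT : Disjoint D.S T) (η : Wedge G D.r (D.U T))
    (eη : D.InER η) (sη : D.IsStark T η) (u : Wedge G D.r ((addPrime D v hv h1).U T))
    (eu : (addPrime D v hv h1).InER u) (su : (addPrime D v hv h1).IsStark T u)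
    (ψ : Fin D.r → GHom G (D.U T)) :
    ∃ ψ' : Fin D.r → GHom G ((addPrime D v hv h1).U T),
      (1 - MonoidAlgebra.single (D.σ v)⁻¹ 1) * η.value ψ = u.value ψ' := by
  have hU := Pool.Agent.K3h3.RS.t_UNIQ
    (Pool.Agent.K3h40.RS.t_SPANREG Pool.Agent.K3h40.RS.t_LOGINJ)
  choose f hf1 hf2 hf3 using fun i => exists_extend D hv h1 T hvT hT (ψ i)
  choose ψ' hψ' using fun i => exists_restrict (addPrime D v hv h1) T (f i) (hf1 i) (hf2 i)
  refine ⟨ψ', ?_⟩
  have hle1 : D.U T ≤ US (addPrime D v hv h1) :=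
    (U_le_add D hv h1 T).trans (U_le (addPrime D v hv h1) T)
  let u₁ : Wedge G D.r (D.U T) :=
    ⟨η.n, fun k => (1 - MonoidAlgebra.single (D.σ v)⁻¹ 1) * η.c k, η.x⟩
  have e₁ : (addPrime D v hv h1).InER u₁ := by
    intro χ hχ k
    change charValue χ (toR ((1 - MonoidAlgebra.single (D.σ v)⁻¹ 1) * η.c k)) = 0
    rw [map_mul, charValue_mul]
    by_cases h3 : D.Active χ
    · rw [toR_one_sub, cv_one_sub, map_inv, active_add D hv h1 h2 χ h3 hχ]
      simp
    · rw [eη χ h3 k, mul_zero]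
  have s₁ : (addPrime D v hv h1).IsStark T u₁ := by
    intro χ
    have h3 : u₁.regulator D.w = toR (1 - MonoidAlgebra.single (D.σ v)⁻¹ 1) *
        η.regulator D.w := by
      unfold Wedge.regulator
      rw [Finset.mul_sum]
      refine Finset.sum_congr rfl fun k _ => ?_
      change toR ((1 - MonoidAlgebra.single (D.σ v)⁻¹ 1) * η.c k) * _ = _
      rw [map_mul, mul_assoc]
    change Tendsto _ _ (𝓝 (charValue χ (u₁.regulator D.w)))
    rw [h3, charValue_mul, toR_one_sub, cv_one_sub, map_inv]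
    have h4 := (tendsto_factor χ (D.σ v) v).mul (sη χ)
    rw [MonoidHom.inv_apply] at h4
    refine h4.congr' ?_
    refine Filter.Eventually.of_forall fun s => ?_
    change _ = (s ^ D.r)⁻¹ * (addPrime D v hv h1).LT T χ⁻¹ s
    rw [addPrime_LT, MonoidHom.inv_apply]
    ring
  have h3 := hU F H G (addPrime D v hv h1) T T (D.U T) ((addPrime D v hv h1).U T) hle1
    (U_le (addPrime D v hv h1) T) u₁ u e₁ eu s₁ su f hf1
  obtain ⟨κ, hκ⟩ := Pool.Agent.K3h62.RS.t_UNIT F H G (addPrime D v hv h1) T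
  have h4 : wval (addPrime D v hv h1) hle1 f u₁ =
      wval (addPrime D v hv h1) (U_le (addPrime D v hv h1) T) f u := by
    have e : ∀ z : MonoidAlgebra ℚ G, κ * ((addPrime D v hv h1).delta T * z) = z := fun z => by
      rw [← mul_assoc, mul_comm κ, hκ, one_mul]
    rw [← e (wval (addPrime D v hv h1) hle1 f u₁), h3, e]
  have h5 : wval (addPrime D v hv h1) hle1 f u₁ =
      (1 - MonoidAlgebra.single (D.σ v)⁻¹ 1) * η.value ψ := by
    unfold wval Wedge.value
    rw [Finset.mul_sum]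
    refine Finset.sum_congr rfl fun k _ => ?_
    change ((1 - MonoidAlgebra.single (D.σ v)⁻¹ 1) * η.c k) * _ = _
    rw [mul_assoc, RingHom.map_det]
    congr 2
    congr 1
    ext i j : 1
    simp only [RingHom.mapMatrix_apply, Matrix.map_apply, Matrix.of_apply]
    exact hf3 i (η.x k j) _
  have h6 : wval (addPrime D v hv h1) (U_le (addPrime D v hv h1) T) f u = u.value ψ' := by
    unfold wval Wedge.value
    refine Finset.sum_congr rfl fun k _ => ?_
    rw [RingHom.map_det]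
    congr 2
    ext i j : 1
    simp only [RingHom.mapMatrix_apply, Matrix.map_apply, Matrix.of_apply]
    exact (hψ' i (u.x k j)).symm
  rw [← h5, h4, h6]

end

end Pool.Agent.Run7.h97.RB
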