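import Pool.Agent.Run7.h97.RB.O

/-!
# Rubin's conjecture and the set `S`: the equivalences
-/

set_option autoImplicit false
set_option linter.unusedSectionVars false

open NumberField IsDedekindDomain Filter Topology

noncomputable section

namespace Pool.Agent.Run7.h97.RB

open Pool.Agent.K3h30.RS
open Pool.Agent.K3h62.RS (charValue_mul charValue_eq toR_single cvHom_single two_le_absNorm)

section

variable {F H G : Type} [Field F] [NumberField F] [Field H] [NumberField H] [Algebra F H]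
  [CommGroup G] [Finite G] [MulSemiringAction G H] [hG : IsGaloisGroup G F H]

/-- **From `S` to `S ∪ {v}`.** -/
theorem rubin_add (D : RubinData F H G) (M : Submonoid ℕ) (T : Finset (HeightOneSpectrum (𝓞 F)))
    {v : HeightOneSpectrum (𝓞 F)} (hv : v ∉ D.S) (h1 : D.σ v ≠ 1) (h : RubinUpTo D M T) :
    RubinUpTo (addPrime D v hv h1) M T := by
  obtain ⟨η, eη, sη, iη⟩ := h
  have hle := U_le_add D hv h1 T
  let u₁ : Wedge G D.r (D.U T) :=
    ⟨η.n, fun k => (1 - MonoidAlgebra.single (D.σ v)⁻¹ 1) * η.c k, η.x⟩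
  have hreg : u₁.regulator D.w = toR (1 - MonoidAlgebra.single (D.σ v)⁻¹ 1) *
      η.regulator D.w := by
    unfold Wedge.regulator
    rw [Finset.mul_sum]
    refine Finset.sum_congr rfl fun k _ => ?_
    change toR ((1 - MonoidAlgebra.single (D.σ v)⁻¹ 1) * η.c k) * _ = _
    rw [map_mul, mul_assoc]
  refine ⟨push hle u₁, ?_, ?_, ?_⟩
  · intro χ hχ k
    change charValue χ (toR ((1 - MonoidAlgebra.single (D.σ v)⁻¹ 1) * η.c k)) = 0
    rw [map_mul, charValue_mul]
    by_cases h3 : χ (D.σ v) = 1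
    · rw [toR_one_sub, cv_one_sub, map_inv, h3]
      simp
    · have h4 : ¬ D.Active χ := by
        rintro (h5 | ⟨rfl, -⟩)
        · exact hχ ((active_add_iff D hv h1 χ).2 ⟨h5, h3⟩)
        · exact h3 rfl
      rw [eη χ h4 k, mul_zero]
  · intro χ
    change Tendsto _ _ (𝓝 (charValue χ (u₁.regulator D.w)))
    rw [hreg, charValue_mul, toR_one_sub, cv_one_sub, map_inv]
    have h4 := (tendsto_factor χ (D.σ v) v).mul (sη χ)
    rw [MonoidHom.inv_apply] at h4
    refine h4.congr' ?_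
    refine Filter.Eventually.of_forall fun s => ?_
    change _ = (s ^ D.r)⁻¹ * (addPrime D v hv h1).LT T χ⁻¹ s
    rw [addPrime_LT, MonoidHom.inv_apply]
    ring
  · suffices key : ∀ ψ : Fin D.r → GHom G ((addPrime D v hv h1).U T), ∃ n ∈ M,
        ∃ z : MonoidAlgebra ℤ G, (n : MonoidAlgebra ℚ G) * (push hle u₁).value ψ = toQ z from key
    intro ψ
    obtain ⟨n, hn, z, hz⟩ := iη fun i => restr hle (ψ i)
    refine ⟨n, hn, (1 - MonoidAlgebra.single (D.σ v)⁻¹ 1) * z, ?_⟩
    have h3 : (push hle u₁).value ψ = (1 - MonoidAlgebra.single (D.σ v)⁻¹ 1) *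
        η.value fun i => restr hle (ψ i) := by
      change u₁.value (fun i => restr hle (ψ i)) = _
      unfold Wedge.value
      rw [Finset.mul_sum]
      refine Finset.sum_congr rfl fun k _ => ?_
      change ((1 - MonoidAlgebra.single (D.σ v)⁻¹ 1) * η.c k) * _ = _
      rw [mul_assoc]
    have h4 : toQ (1 - MonoidAlgebra.single (D.σ v)⁻¹ (1 : ℤ)) =
        1 - MonoidAlgebra.single (D.σ v)⁻¹ (1 : ℚ) := by
      rw [map_sub, map_one]
      simp [toQ]
    rw [h3, map_mul, h4, ← hz]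
    ring

theorem disjoint_add (D : RubinData F H G) {T : Finset (HeightOneSpectrum (𝓞 F))}
    {v : HeightOneSpectrum (𝓞 F)} (hv : v ∉ D.S) (h1 : D.σ v ≠ 1) (hvT : v ∉ T)
    (hT : Disjoint D.S T) : Disjoint (addPrime D v hv h1).S T := by
  rw [Finset.disjoint_left] at hT ⊢
  intro x hx
  rcases (Finset.mem_cons (h := hv)).1 hx with rfl | hx
  · exact hvT
  · exact hT hx

theorem rubin_larger (M : Submonoid ℕ) (T : Finset (HeightOneSpectrum (𝓞 F)))
    (D D' : RubinData F H G) (n : ℕ) (h : Larger T D n D') (hR : RubinUpTo D M T) :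
    RubinUpTo D' M T := by
  induction h with
  | refl D => exact hR
  | step D D' n v hv h1 hvT h ih => exact ih (rubin_add D M T hv h1 hR)

/-- the empty set has no positive proportion -/
theorem not_pos_false {P : HeightOneSpectrum (𝓞 F) → Prop} (h : ∀ v, ¬ P v) :
    ¬ PosProportion P := by
  rintro ⟨c, hc, hX⟩
  obtain ⟨X, hX1, hX2⟩ := (hX.and (eventually_ge_atTop 2)).exists
  have h3 : IsEmpty {v : HeightOneSpectrum (𝓞 F) // P v ∧
      Ideal.absNorm v.asIdeal ≤ X} := ⟨fun v => h v.1 v.2.1⟩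
  rw [Nat.card_of_isEmpty, Nat.cast_zero] at hX1
  have h4 : 0 < Nat.primeCounting X :=
    lt_of_lt_of_le (by decide : 0 < Nat.primeCounting 2) (Nat.monotone_primeCounting hX2)
  have h5 : (0 : ℝ) < c * (Nat.primeCounting X : ℝ) := mul_pos hc (by exact_mod_cast h4)
  linarith

theorem tfae (D : RubinData F H G) (M : Submonoid ℕ) (T : Finset (HeightOneSpectrum (𝓞 F)))
    (hT : Disjoint D.S T) (h2 : Two D) (m : ℕ) (hm : m ∈ M)
    (hspan : (m : ℤ) ∈ Ideal.span (decCards D)) : List.TFAE [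
      RubinUpTo D M T,
      ∀ (v : HeightOneSpectrum (𝓞 F)) (hv : v ∉ D.S) (h1 : D.σ v ≠ 1), v ∉ T →
        RubinUpTo (addPrime D v hv h1) M T,
      ∀ g : G, g ≠ 1 → ∃ (v : HeightOneSpectrum (𝓞 F)) (hv : v ∉ D.S) (h1 : D.σ v ≠ 1),
        v ∉ T ∧ D.σ v = g ∧ RubinUpTo (addPrime D v hv h1) M T,
      ¬ PosProportion (fun v : HeightOneSpectrum (𝓞 F) => v ∉ T ∧
        ∃ (hv : v ∉ D.S) (h1 : D.σ v ≠ 1), ¬ RubinUpTo (addPrime D v hv h1) M T),
      ∃ n : ℕ, ∀ D' : RubinData F H G, Larger T D n D' → RubinUpTo D' M T,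
      ∀ (n : ℕ) (D' : RubinData F H G), Larger T D n D' → RubinUpTo D' M T] := by
  tfae_have 1 → 2 := fun h v hv h1 _ => rubin_add D M T hv h1 h
  tfae_have 2 → 4 := by
    intro h
    refine not_pos_false ?_
    rintro v ⟨hvT, hv, h1, h3⟩
    exact h3 (h v hv h1 hvT)
  tfae_have 4 → 3 := by
    intro h g hg
    by_contra hcon
    push Not at hcon
    refine h (Pool.Agent.K3h36.RS.posProportion_mono ?_ (pos_frob D T g))
    rintro v ⟨hv, hvT, hvg⟩
    have h1 : D.σ v ≠ 1 := by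
      rw [hvg]
      exact hg
    exact ⟨hvT, hv, h1, hcon v hv h1 hvT hvg⟩
  tfae_have 3 → 1 := main_step D M T hT h2 m hm hspan
  tfae_have 1 → 6 := fun h n D' hD' => rubin_larger M T D D' n hD' h
  tfae_have 6 → 5 := fun h => ⟨0, h 0⟩
  tfae_have 5 → 1 := by
    rintro ⟨n, h⟩
    exact main_large M T m hm n D hT h2 hspan h
  tfae_finish

end

end Pool.Agent.Run7.h97.RB
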