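import Pool.Agent.Run7.h97.RB.Z
import Pool.Agent.K3h23.RS.Tors
import Pool.Agent.K3h73.RS.Cheb
import Pool.Agent.K3h36.RS.APPROX0

/-!
# Rubin's conjecture and the set `S`: the main theorem
-/

set_option autoImplicit false
set_option linter.unusedSectionVars false

open NumberField IsDedekindDomain Filter Topology

noncomputable section

namespace Pool.Agent.Run7.h97.RB

open Pool.Agent.K3h30.RS
open Pool.Agent.K3h62.RS (charValue_mul charValue_eq toR_single cvHom_single two_le_absNorm)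

section

variable {F H G : Type} [Field F] [NumberField F] [Field H] [NumberField H] [Algebra F H]
  [CommGroup G] [Finite G] [MulSemiringAction G H]

theorem rubinUpTo_bot (D : RubinData F H G) (T : Finset (HeightOneSpectrum (𝓞 F))) :
    RubinUpTo D ⊥ T ↔ D.Rubin T := by
  constructor
  · rintro ⟨u, h1, h2, h3⟩
    refine ⟨u, h1, fun ψ => ?_, h2⟩
    obtain ⟨n, hn, z, hz⟩ := h3 ψ
    rw [Submonoid.mem_bot] at hn
    rw [hn, Nat.cast_one, one_mul] at hz
    exact ⟨z, hz⟩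
  · rintro ⟨u, h1, h2, h3⟩
    refine ⟨u, h1, h3, fun ψ => ?_⟩
    obtain ⟨z, hz⟩ := h2 ψ
    exact ⟨1, Submonoid.one_mem _, z, by rw [Nat.cast_one, one_mul, hz]⟩

theorem stark_of_rubin {D : RubinData F H G} {M : Submonoid ℕ}
    {T : Finset (HeightOneSpectrum (𝓞 F))} (h : RubinUpTo D M T) : D.Stark T := by
  obtain ⟨u, h1, h2, -⟩ := h
  exact ⟨u, h1, h2⟩

/-- the sum of the `d⁻¹`, `d` in the decomposition group -/
def nrm (u : Place H) : MonoidAlgebra ℚ G :=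
  letI := Fintype.ofFinite (Dec G u)
  ∑ d : Dec G u, MonoidAlgebra.single (d : G)⁻¹ 1

theorem cv_nrm (u : Place H) (χ : G →* ℂˣ) (h : ∃ γ : G, Fixes u γ ∧ χ γ ≠ 1) :
    charValue χ (toR (nrm (G := G) u)) = 0 := by
  obtain ⟨γ, hγ, hne⟩ := h
  let _ := Fintype.ofFinite (Dec G u)
  have h1 : charValue χ (toR (nrm (G := G) u)) = ∑ d : Dec G u, ((χ (d : G) : ℂ))⁻¹ := by
    unfold nrm
    rw [map_sum, charValue_eq, map_sum]
    refine Finset.sum_congr (by congr!) fun d _ => ?_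
    rw [toR_single, cvHom_single, map_inv, Units.val_inv_eq_inv_val]
    norm_num
  have h2 : ((χ γ : ℂ))⁻¹ * ∑ d : Dec G u, ((χ (d : G) : ℂ))⁻¹ =
      ∑ d : Dec G u, ((χ (d : G) : ℂ))⁻¹ := by
    rw [Finset.mul_sum, ← Equiv.sum_comp (Equiv.mulLeft (⟨γ, hγ⟩ : Dec G u))
      (fun d : Dec G u => ((χ (d : G) : ℂ))⁻¹)]
    refine Finset.sum_congr rfl fun d _ => ?_
    rw [Equiv.coe_mulLeft, Subgroup.coe_mul, map_mul, Units.val_mul, mul_inv]
  rw [h1]
  have h3 : (((χ γ : ℂ))⁻¹ - 1) * ∑ d : Dec G u, ((χ (d : G) : ℂ))⁻¹ = 0 := by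
    rw [sub_mul, h2, one_mul, sub_self]
  rcases mul_eq_zero.1 h3 with h4 | h4
  · exfalso
    apply hne
    apply Units.ext
    rw [Units.val_one]
    rw [sub_eq_zero] at h4
    exact inv_eq_one.1 h4
  · exact h4

/-- the element `u` of `e_r ℚ ⋀^r U` is killed by the norm of a decomposition group -/
theorem nrm_value (D : RubinData F H G) (h2 : Two D) {U : Subgroup Hˣ} (η : Wedge G D.r U)
    (eη : D.InER η) {u : Place H} (hu : Other D u) (ψ : Fin D.r → GHom G U) :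
    nrm u * η.value ψ = 0 := by
  unfold Wedge.value
  rw [Finset.mul_sum]
  refine Finset.sum_eq_zero fun k _ => ?_
  have h3 : nrm u * η.c k = 0 := by
    refine Pool.Agent.K3h3.RS.eq_zero_of_charValue _ fun χ => ?_
    rw [map_mul, charValue_mul]
    by_cases h : D.Active χ
    · rw [cv_nrm u χ ((active_iff h2 χ).1 h u hu.1 hu.2), zero_mul]
    · rw [eη χ h k, mul_zero]
  rw [← mul_assoc, h3, zero_mul]

/-- integrality of `|D_u| x` -/
theorem int_of_dec (M : Submonoid ℕ) (u : Place H) (V : MonoidAlgebra ℚ G)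
    (hV : nrm u * V = 0)
    (h : ∀ d ∈ Dec G u, ∃ n ∈ M, ∃ z : MonoidAlgebra ℤ G,
      (n : MonoidAlgebra ℚ G) * ((1 - MonoidAlgebra.single d⁻¹ 1) * V) = toQ z) :
    ∃ n ∈ M, ∃ z : MonoidAlgebra ℤ G,
      (n : MonoidAlgebra ℚ G) * ((Nat.card (Dec G u) : MonoidAlgebra ℚ G) * V) = toQ z := by
  classical
  let _ := Fintype.ofFinite (Dec G u)
  choose n hn z hz using fun d : Dec G u => h d.1 d.2
  have h1 : (Nat.card (Dec G u) : MonoidAlgebra ℚ G) * V =
      ∑ d : Dec G u, (1 - MonoidAlgebra.single (d : G)⁻¹ 1) * V := by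
    rw [← Finset.sum_mul, Finset.sum_sub_distrib]
    have h3 : ∑ d : Dec G u, MonoidAlgebra.single (d : G)⁻¹ (1 : ℚ) = nrm u := by
      unfold nrm
      refine Finset.sum_congr (by congr!) fun d _ => rfl
    rw [h3, sub_mul, hV, sub_zero]
    simp [Nat.card_eq_fintype_card]
  refine ⟨∏ d : Dec G u, n d, Submonoid.prod_mem _ fun d _ => hn d, ?_⟩
  have h4 : ∀ d : Dec G u, ((∏ d : Dec G u, n d : ℕ) : MonoidAlgebra ℚ G) *
      ((1 - MonoidAlgebra.single (d : G)⁻¹ 1) * V) ∈ (toQ (G := G)).range := by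
    intro d
    obtain ⟨k, hk⟩ := Finset.dvd_prod_of_mem n (Finset.mem_univ d)
    rw [hk]
    push_cast
    rw [mul_comm (n d : MonoidAlgebra ℚ G), mul_assoc, hz d]
    exact mul_mem (natCast_mem _ k) ⟨_, rfl⟩
  rw [h1, Finset.mul_sum]
  obtain ⟨y, hy⟩ := (toQ (G := G)).range.sum_mem fun d (_ : d ∈ Finset.univ) => h4 d
  exact ⟨y, hy.symm⟩

/-- the integers `m` such that `m V` is integral up to `M` form an ideal -/
theorem int_of_span (M : Submonoid ℕ) (V : MonoidAlgebra ℚ G) (A : Set ℤ)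
    (h : ∀ a ∈ A, ∃ n ∈ M, ∃ z : MonoidAlgebra ℤ G,
      (n : MonoidAlgebra ℚ G) * ((a : MonoidAlgebra ℚ G) * V) = toQ z)
    {m : ℤ} (hm : m ∈ Ideal.span A) : ∃ n ∈ M, ∃ z : MonoidAlgebra ℤ G,
      (n : MonoidAlgebra ℚ G) * ((m : MonoidAlgebra ℚ G) * V) = toQ z := by
  induction hm using Submodule.span_induction with
  | mem a ha => exact h a ha
  | zero => exact ⟨1, M.one_mem, 0, by simp⟩
  | add a b _ _ ha hb =>
    obtain ⟨n, hn, z, hz⟩ := ha
    obtain ⟨n', hn', z', hz'⟩ := hb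
    refine ⟨n * n', M.mul_mem hn hn', n' * z + n * z', ?_⟩
    rw [map_add, map_mul, map_mul, map_natCast, map_natCast, ← hz, ← hz']
    push_cast
    ring
  | smul c a _ ha =>
    obtain ⟨n, hn, z, hz⟩ := ha
    refine ⟨n, hn, (c : MonoidAlgebra ℤ G) * z, ?_⟩
    rw [map_mul, map_intCast, ← hz]
    push_cast [smul_eq_mul]
    ring

variable [hG : IsGaloisGroup G F H]

/-- from `S ∪ {v}` to `S`, one decomposition group -/
theorem step_value (D : RubinData F H G) (M : Submonoid ℕ) (T : Finset (HeightOneSpectrum (𝓞 F)))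
    (hT : Disjoint D.S T) (h2 : Two D) (η : Wedge G D.r (D.U T)) (eη : D.InER η)
    (sη : D.IsStark T η) (ψ : Fin D.r → GHom G (D.U T)) {u : Place H} (hu : Other D u)
    (h : ∀ g ∈ Dec G u, g ≠ 1 → ∃ (v : HeightOneSpectrum (𝓞 F)) (hv : v ∉ D.S) (h1 : D.σ v ≠ 1),
      v ∉ T ∧ D.σ v = g ∧ RubinUpTo (addPrime D v hv h1) M T) :
    ∃ n ∈ M, ∃ z : MonoidAlgebra ℤ G,
      (n : MonoidAlgebra ℚ G) * ((Nat.card (Dec G u) : MonoidAlgebra ℚ G) * η.value ψ) = toQ z := by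
  refine int_of_dec M u _ (nrm_value D h2 η eη hu ψ) ?_
  intro d hd
  by_cases hd1 : d = 1
  · refine ⟨1, M.one_mem, 0, ?_⟩
    have h3 : (1 : MonoidAlgebra ℚ G) - MonoidAlgebra.single d⁻¹ 1 = 0 := by
      rw [hd1, inv_one]
      exact sub_self _
    rw [h3, zero_mul, mul_zero, map_zero]
  · obtain ⟨v, hv, h1, hvT, h3, h4⟩ := h d hd hd1
    obtain ⟨u', eu', su', iu'⟩ : ∃ u : Wedge G D.r ((addPrime D v hv h1).U T),
      (addPrime D v hv h1).InER u ∧ (addPrime D v hv h1).IsStark T u ∧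
        ∀ ψ : Fin D.r → GHom G ((addPrime D v hv h1).U T), ∃ n ∈ M, ∃ z : MonoidAlgebra ℤ G,
          (n : MonoidAlgebra ℚ G) * u.value ψ = toQ z := h4
    subst h3
    obtain ⟨ψ', hψ'⟩ := key_value D hv h1 T h2 hvT hT η eη sη u' eu' su' ψ
    rw [hψ']
    exact iu' ψ'

/-- the Frobenius class has positive proportion -/
theorem pos_frob (D : RubinData F H G) (T : Finset (HeightOneSpectrum (𝓞 F))) (g : G) :
    PosProportion (fun v : HeightOneSpectrum (𝓞 F) => v ∉ D.S ∧ v ∉ T ∧ D.σ v = g) := by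
  classical
  have h1 := Pool.Agent.K3h73.RS.t_CHEB F H (IsGaloisGroup.mulEquivAlgEquiv G F H g) (D.S ∪ T)
  refine Pool.Agent.K3h36.RS.posProportion_mono ?_ h1
  rintro v ⟨hv, P, hP, hfr⟩
  rw [Finset.mem_union, not_or] at hv
  refine ⟨hv.1, hv.2, ?_⟩
  refine Pool.Agent.K3h23.RS.t_FROBUNIQ F H G v (D.unramified v hv.1) _ _ (D.frob v hv.1) ?_
  intro w hw x
  obtain ⟨γ, hγ⟩ := (Pool.Agent.K3h25.RS.t_TRANS F H G v P hP).2 w hw
  rw [hγ, smul_sub, smul_pow']
  have h3 : γ • (g • (x : H)) = g • (γ • (x : H)) := by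
    rw [smul_smul, smul_smul, mul_comm]
  rw [h3]
  exact hfr (γ • x)

/-- **One prime ideal for every Frobenius class suffices.** -/
theorem main_step (D : RubinData F H G) (M : Submonoid ℕ) (T : Finset (HeightOneSpectrum (𝓞 F)))
    (hT : Disjoint D.S T) (h2 : Two D) (m : ℕ) (hm : m ∈ M)
    (hspan : (m : ℤ) ∈ Ideal.span (decCards D))
    (h : ∀ g : G, g ≠ 1 → ∃ (v : HeightOneSpectrum (𝓞 F)) (hv : v ∉ D.S) (h1 : D.σ v ≠ 1),
      v ∉ T ∧ D.σ v = g ∧ RubinUpTo (addPrime D v hv h1) M T) : RubinUpTo D M T := by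
  obtain ⟨η, eη, sη⟩ := stark_of_add D T h2 (lim_one D h2 T) (fun g hg => by
    obtain ⟨v, hv, h1, -, h3, h4⟩ := h g hg
    exact ⟨v, hv, h1, h3, stark_of_rubin h4⟩)
  refine ⟨η, eη, sη, fun ψ => ?_⟩
  obtain ⟨n, hn, z, hz⟩ := int_of_span M (η.value ψ) (decCards D) (by
    rintro a ⟨u, hu, rfl⟩
    have h3 := step_value D M T hT h2 η eη sη ψ hu (fun g _ hg => h g hg)
    exact_mod_cast h3) hspan
  refine ⟨n * m, M.mul_mem hn hm, z, ?_⟩
  rw [← hz]
  push_cast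
  ring

/-- The same for one decomposition group, if the Stark element is known to exist. -/
theorem stark_step (D : RubinData F H G) (M : Submonoid ℕ) (T : Finset (HeightOneSpectrum (𝓞 F)))
    (hT : Disjoint D.S T) (h2 : Two D) (hS : D.Stark T) {u : Place H} (hu : Other D u)
    (hM : Nat.card (Dec G u) ∈ M)
    (h : ∀ g ∈ Dec G u, g ≠ 1 → ∃ (v : HeightOneSpectrum (𝓞 F)) (hv : v ∉ D.S) (h1 : D.σ v ≠ 1),
      v ∉ T ∧ D.σ v = g ∧ RubinUpTo (addPrime D v hv h1) M T) : RubinUpTo D M T := by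
  obtain ⟨η, eη, sη⟩ := hS
  refine ⟨η, eη, sη, fun ψ => ?_⟩
  obtain ⟨n, hn, z, hz⟩ := step_value D M T hT h2 η eη sη ψ hu h
  refine ⟨n * Nat.card (Dec G u), M.mul_mem hn hM, z, ?_⟩
  rw [← hz]
  push_cast
  ring

theorem decCards_add (D : RubinData F H G) {v : HeightOneSpectrum (𝓞 F)} (hv : v ∉ D.S)
    (h1 : D.σ v ≠ 1) : decCards D ⊆ decCards (addPrime D v hv h1) := by
  rintro a ⟨u, hu, rfl⟩
  exact ⟨u, ⟨inS_cons hv hu.1, hu.2⟩, rfl⟩

/-- the existence of a prime ideal with given Frobenius automorphism -/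
theorem exists_frob_prime (D : RubinData F H G) (T : Finset (HeightOneSpectrum (𝓞 F))) (g : G) :
    ∃ v : HeightOneSpectrum (𝓞 F), v ∉ D.S ∧ v ∉ T ∧ D.σ v = g := by
  obtain ⟨c, hc, hX⟩ := pos_frob D T g
  by_contra hcon
  push Not at hcon
  obtain ⟨X, hX1, hX2⟩ := (hX.and (eventually_ge_atTop 2)).exists
  have h3 : IsEmpty {v : HeightOneSpectrum (𝓞 F) // (v ∉ D.S ∧ v ∉ T ∧ D.σ v = g) ∧
      Ideal.absNorm v.asIdeal ≤ X} := ⟨fun v => hcon v.1 v.2.1.1 v.2.1.2.1 v.2.1.2.2⟩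
  rw [Nat.card_of_isEmpty, Nat.cast_zero] at hX1
  have h4 : 0 < Nat.primeCounting X :=
    lt_of_lt_of_le (by decide : 0 < Nat.primeCounting 2) (Nat.monotone_primeCounting hX2)
  have h5 : (0 : ℝ) < c * (Nat.primeCounting X : ℝ) := mul_pos hc (by exact_mod_cast h4)
  linarith

/-- **Large sets `S` suffice.** -/
theorem main_large (M : Submonoid ℕ) (T : Finset (HeightOneSpectrum (𝓞 F))) (m : ℕ) (hm : m ∈ M)
    (n : ℕ) : ∀ (D : RubinData F H G), Disjoint D.S T → Two D →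
    (m : ℤ) ∈ Ideal.span (decCards D) →
    (∀ D' : RubinData F H G, Larger T D n D' → RubinUpTo D' M T) → RubinUpTo D M T := by
  induction n with
  | zero => exact fun D _ _ _ h => h D (Larger.refl D)
  | succ n ih =>
    intro D hT h2 hspan h
    refine main_step D M T hT h2 m hm hspan fun g hg => ?_
    obtain ⟨v, hv, hvT, hvg⟩ := exists_frob_prime D T g
    have h1 : D.σ v ≠ 1 := by
      rw [hvg]
      exact hg
    refine ⟨v, hv, h1, hvT, hvg, ?_⟩
    refine ih (addPrime D v hv h1) ?_ (two_add hv h1 h2)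
      (Ideal.span_mono (decCards_add D hv h1) hspan)
      (fun D' hD' => h D' (Larger.step D D' n v hv h1 hvT hD'))
    rw [Finset.disjoint_left] at hT ⊢
    intro x hx
    rcases (Finset.mem_cons (h := hv)).1 hx with rfl | hx
    · exact hvT
    · exact hT hx

end

end Pool.Agent.Run7.h97.RB
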