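import Pool.Agent.Run7.h97.RB.M

/-!
# Rubin's conjecture for `S ∪ {v}` depends only on the Frobenius automorphism of `v`
-/

set_option autoImplicit false
set_option linter.unusedSectionVars false

open NumberField IsDedekindDomain Filter Topology
open scoped Pointwise

noncomputable section

namespace Pool.Agent.Run7.h97.RB

open Pool.Agent.K3h30.RS
open Pool.Agent.K3h62.RS (charValue_mul charValue_eq toR_single cvHom_single two_le_absNorm)

section

variable {F H G : Type} [Field F] [NumberField F] [Field H] [NumberField H] [Algebra F H]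
  [CommGroup G] [Finite G] [MulSemiringAction G H] [hG : IsGaloisGroup G F H]

theorem isFrob_of_one {v : HeightOneSpectrum (𝓞 F)} {P : HeightOneSpectrum (𝓞 H)}
    (hP : Above {v} P) {g : G}
    (h : ∀ x : 𝓞 H, P.valuation H (g • (x : H) - (x : H) ^ (Ideal.absNorm v.asIdeal)) < 1) :
    IsFrob (H := H) v g := by
  intro w hw x
  obtain ⟨γ, hγ⟩ := (Pool.Agent.K3h25.RS.t_TRANS F H G v P hP).2 w hw
  rw [hγ, smul_sub, smul_pow']
  have h3 : γ • (g • (x : H)) = g • (γ • (x : H)) := by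
    rw [smul_smul, smul_smul, mul_comm]
  rw [h3]
  exact h (γ • x)

omit [Finite G] hG in
theorem fixes_mem {w : HeightOneSpectrum (𝓞 H)} {γ : G} (hγ : Fixes (Sum.inr w : Place H) γ)
    (x : 𝓞 H) : x ∈ w.asIdeal ↔ γ • x ∈ w.asIdeal := by
  have h1 : HeightOneSpectrum.adicAbv H w ((γ • x : 𝓞 H) : H) =
    HeightOneSpectrum.adicAbv H w (x : H) := hγ (x : H)
  have key : ∀ y : 𝓞 H, y ∈ w.asIdeal ↔ HeightOneSpectrum.adicAbv H w (y : H) < 1 := fun y =>
    (w.adicAbv_coe_lt_one_iff (HeightOneSpectrum.one_lt_absNorm_nnreal w) y).symm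
  rw [key, key, h1]

/-- The decomposition group of an unramified prime ideal is generated by the Frobenius
automorphism. -/
theorem dec_frob {v : HeightOneSpectrum (𝓞 F)}
    (hsq : Squarefree (v.asIdeal.map (algebraMap (𝓞 F) (𝓞 H)))) {σ : G}
    (hσ : IsFrob (H := H) v σ) {w : HeightOneSpectrum (𝓞 H)} (hw : Above {v} w) {γ : G}
    (hγ : Fixes (Sum.inr w : Place H) γ) : ∃ i : ℕ, γ = σ ^ i := by
  have hs : SMulCommClass G (𝓞 F) (𝓞 H) :=
    (inferInstance : IsGaloisGroup G (𝓞 F) (𝓞 H)).commutes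
  have hmem := fixes_mem hγ
  have hstab : γ ∈ MulAction.stabilizer G w.asIdeal := by
    rw [MulAction.mem_stabilizer_iff]
    ext x
    rw [Ideal.mem_pointwise_smul_iff_inv_smul_mem, hmem, smul_inv_smul]
  have hov : w.asIdeal.LiesOver v.asIdeal := by
    rw [above_singleton] at hw
    exact ⟨hw.symm⟩
  have := v.isMaximal
  have := w.isMaximal
  letI := Ideal.Quotient.field v.asIdeal
  letI := Ideal.Quotient.field w.asIdeal
  have hf1 : Finite (𝓞 F ⧸ v.asIdeal) := Pool.Agent.K3h43.RS.finite_quot v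
  have hf2 : Finite (𝓞 H ⧸ w.asIdeal) := Pool.Agent.K3h43.RS.finite_quot w
  obtain ⟨p, hp⟩ := CharP.exists (𝓞 F ⧸ v.asIdeal)
  have hpp : Fact p.Prime := ⟨CharP.char_is_prime (𝓞 F ⧸ v.asIdeal) p⟩
  obtain ⟨i, hi⟩ := FiniteField.exists_forall_apply_eq_pow (𝓞 F ⧸ v.asIdeal) p
    (𝓞 H ⧸ w.asIdeal) (Ideal.Quotient.stabilizerHom w.asIdeal v.asIdeal G ⟨γ, hstab⟩)
  have hcard : Nat.card (𝓞 F ⧸ v.asIdeal) = Ideal.absNorm v.asIdeal := by
    rw [← Submodule.cardQuot_apply, ← Ideal.absNorm_apply]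
  refine ⟨i, ?_⟩
  -- congruences
  have e1 : ∀ x : 𝓞 H, γ • x - x ^ (Ideal.absNorm v.asIdeal ^ i) ∈ w.asIdeal := by
    intro x
    have h1 := hi (Ideal.Quotient.mk w.asIdeal x)
    rw [hcard] at h1
    rw [← Ideal.Quotient.eq, map_pow]
    exact h1
  have e2 : ∀ x : 𝓞 H, σ • x - x ^ (Ideal.absNorm v.asIdeal) ∈ w.asIdeal := by
    intro x
    have h1 := hσ w hw x
    rw [← w.valuation_lt_one_iff_mem (K := H)]
    exact h1
  have e3 : ∀ (j : ℕ) (x : 𝓞 H), σ ^ j • x - x ^ (Ideal.absNorm v.asIdeal ^ j) ∈ w.asIdeal := by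
    intro j
    induction j with
    | zero =>
      intro x
      rw [pow_zero, pow_zero, one_smul, pow_one, sub_self]
      exact w.asIdeal.zero_mem
    | succ j ih =>
      intro x
      have h1 := ih (σ • x)
      have h2 := e2 x
      rw [← Ideal.Quotient.eq] at h1 h2 ⊢
      rw [pow_succ, mul_smul, h1, map_pow, h2, map_pow, map_pow, ← pow_mul, pow_succ,
        mul_comm (Ideal.absNorm v.asIdeal ^ j)]
  have hfr : IsFrob (H := H) v (γ * (σ ^ i)⁻¹ * σ) := by
    refine isFrob_of_one hw ?_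
    intro x
    have h1 : (γ * (σ ^ i)⁻¹ * σ) • x - x ^ (Ideal.absNorm v.asIdeal) ∈ w.asIdeal := by
      have a1 := e1 ((σ ^ i)⁻¹ • (σ • x))
      have a2 := e3 i ((σ ^ i)⁻¹ • (σ • x))
      have a3 := e2 x
      rw [← Ideal.Quotient.eq] at a1 a2 a3 ⊢
      rw [mul_smul, mul_smul, a1, ← a2, smul_inv_smul, a3]
    rw [← w.valuation_lt_one_iff_mem (K := H)] at h1
    exact h1
  have h2 := Pool.Agent.K3h23.RS.t_FROBUNIQ F H G v hsq _ _ hfr hσ
  have h3 : γ * (σ ^ i)⁻¹ = 1 := by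
    have h4 : γ * (σ ^ i)⁻¹ * σ = 1 * σ := by rw [h2, one_mul]
    exact mul_right_cancel h4
  exact mul_inv_eq_one.1 h3

/-- an unramified prime ideal with nontrivial Frobenius automorphism is not conjugate to `w_i` -/
theorem not_conj_of_fixes (D : RubinData F H G) {u : Place H} {γ : G} (hγ : Fixes u γ)
    (h1 : γ ≠ 1) (i : Fin D.r) : ¬ Conj G u (D.w i) := by
  rintro ⟨δ, hδ⟩
  refine h1 (D.splits i γ fun y => ?_)
  have h2 : y = δ • (δ⁻¹ • y) := (smul_inv_smul δ y).symm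
  have h3 : γ • y = δ • (γ • (δ⁻¹ • y)) := by
    rw [smul_smul, smul_smul]
    congr 1
    rw [mul_comm δ γ, mul_inv_cancel_right]
  rw [h3, ← hδ, hγ]
  conv_rhs => rw [h2]
  rw [← hδ]

theorem smul_algebraMap' (γ : G) (x : 𝓞 F) :
    γ • (algebraMap (𝓞 F) (𝓞 H) x) = algebraMap (𝓞 F) (𝓞 H) x := by
  have hs : SMulCommClass G (𝓞 F) (𝓞 H) :=
    (inferInstance : IsGaloisGroup G (𝓞 F) (𝓞 H)).commutes
  exact smul_algebraMap γ x

/-- a place over `S` is not conjugate to a prime ideal over `v ∉ S` -/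
theorem not_conj_add {S : Finset (HeightOneSpectrum (𝓞 F))} {v : HeightOneSpectrum (𝓞 F)}
    (hv : v ∉ S) {u : Place H} (hu : InS (S : Set (HeightOneSpectrum (𝓞 F))) u)
    {w : HeightOneSpectrum (𝓞 H)} (hw : Above {v} w) : ¬ Conj G u (Sum.inr w : Place H) := by
  rintro ⟨γ, hγ⟩
  have key : ∀ (w : HeightOneSpectrum (𝓞 H)) (y : 𝓞 H),
      y ∈ w.asIdeal ↔ HeightOneSpectrum.adicAbv H w (y : H) < 1 := fun w y =>
    (w.adicAbv_coe_lt_one_iff (HeightOneSpectrum.one_lt_absNorm_nnreal w) y).symm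
  rcases u with u | u
  · have h1 : u (2 : H) ^ u.mult = HeightOneSpectrum.adicAbv H w (γ • (2 : H)) := hγ 2
    have h2 : γ • (2 : H) = ((2 : 𝓞 H) : H) := by
      have : γ • (2 : H) = 2 := by
        have h3 : γ • (1 : H) = 1 := smul_one γ
        have h4 : (2 : H) = 1 + 1 := by norm_num
        rw [h4, smul_add, h3]
      rw [this]
      rfl
    rw [h2] at h1
    have h3 : HeightOneSpectrum.adicAbv H w ((2 : 𝓞 H) : H) ≤ 1 :=
      w.adicAbv_coe_le_one (HeightOneSpectrum.one_lt_absNorm_nnreal w) 2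
    have h4 : u (2 : H) = 2 := by
      rw [← InfinitePlace.norm_embedding_eq, map_ofNat]
      norm_num
    rw [h4] at h1
    have h5 : (1 : ℝ) < 2 ^ u.mult := one_lt_pow₀ (by norm_num) u.mult_pos.ne'
    linarith
  · obtain ⟨v', hv', h'⟩ := above_mem hu
    have h1 : v' = v := by
      apply HeightOneSpectrum.ext
      rw [above_singleton] at h' hw
      rw [← h', ← hw]
      ext x
      rw [Ideal.mem_comap, Ideal.mem_comap, key, key]
      have h2 : HeightOneSpectrum.adicAbv H u ((algebraMap (𝓞 F) (𝓞 H) x : 𝓞 H) : H) =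
          HeightOneSpectrum.adicAbv H w ((γ • algebraMap (𝓞 F) (𝓞 H) x : 𝓞 H) : H) := hγ _
      rw [h2, smul_algebraMap']
    rw [h1] at hv'
    exact hv (Finset.mem_coe.1 hv')

theorem other_add (D : RubinData F H G) {v : HeightOneSpectrum (𝓞 F)} (hv : v ∉ D.S)
    (h1 : D.σ v ≠ 1) {w : HeightOneSpectrum (𝓞 H)} (hw : Above {v} w) :
    Other (addPrime D v hv h1) (Sum.inr w) :=
  ⟨(above_cons hv).2 (Or.inl hw), not_conj_of_fixes D (frob_fixes (D.frob v hv) hw) h1⟩

theorem two_add' (D : RubinData F H G) {v : HeightOneSpectrum (𝓞 F)} (hv : v ∉ D.S)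
    (h1 : D.σ v ≠ 1) : Two (addPrime D v hv h1) := by
  obtain ⟨u, hu1, hu2⟩ := D.more
  obtain ⟨w, hw⟩ := (Pool.Agent.K3h25.RS.t_OVER F H v).1
  have h2 := other_add D hv h1 hw
  exact ⟨u, Sum.inr w, inS_cons hv hu1, h2.1, hu2, h2.2, not_conj_add hv hu1 hw⟩

theorem active_add_iff (D : RubinData F H G) {v : HeightOneSpectrum (𝓞 F)} (hv : v ∉ D.S)
    (h1 : D.σ v ≠ 1) (χ : G →* ℂˣ) : (addPrime D v hv h1).Active χ ↔
      (∀ w : Place H, InS (D.S : Set (HeightOneSpectrum (𝓞 F))) w → (∀ i, ¬ Conj G w (D.w i)) →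
        ∃ γ : G, Fixes w γ ∧ χ γ ≠ 1) ∧ χ (D.σ v) ≠ 1 := by
  rw [active_iff (two_add' D hv h1)]
  constructor
  · intro h
    refine ⟨fun w hw hi => h w (inS_cons hv hw) hi, ?_⟩
    obtain ⟨w, hw⟩ := (Pool.Agent.K3h25.RS.t_OVER F H v).1
    have h2 := other_add D hv h1 hw
    obtain ⟨γ, hγ, hne⟩ := h _ h2.1 h2.2
    obtain ⟨i, rfl⟩ := dec_frob (D.unramified v hv) (D.frob v hv) hw hγ
    intro h3
    exact hne (by rw [map_pow, h3, one_pow])
  · rintro ⟨h, h'⟩ w hw hi
    rcases inS_of_cons hv hw with h3 | ⟨w', rfl, hw'⟩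
    · exact h w h3 hi
    · exact ⟨D.σ v, frob_fixes (D.frob v hv) hw', h'⟩

/-- descent of the Stark element for `S ∪ {v}` to `U_{S,T}` -/
theorem descend_value (D : RubinData F H G) {v : HeightOneSpectrum (𝓞 F)} (hv : v ∉ D.S)
    (h1 : D.σ v ≠ 1) (M : Submonoid ℕ) (T : Finset (HeightOneSpectrum (𝓞 F))) (hvT : v ∉ T)
    (hT : Disjoint D.S T) (h : RubinUpTo (addPrime D v hv h1) M T) :
    ∃ E : Wedge G D.r (D.U T), (addPrime D v hv h1).InER E ∧ (addPrime D v hv h1).IsStark T E ∧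
      ∀ ψ : Fin D.r → GHom G (D.U T), ∃ n ∈ M, ∃ z : MonoidAlgebra ℤ G,
        (n : MonoidAlgebra ℚ G) * E.value ψ = toQ z := by
  obtain ⟨u, eu, su, iu⟩ : ∃ u : Wedge G D.r ((addPrime D v hv h1).U T),
    (addPrime D v hv h1).InER u ∧ (addPrime D v hv h1).IsStark T u ∧
      ∀ ψ : Fin D.r → GHom G ((addPrime D v hv h1).U T), ∃ n ∈ M, ∃ z : MonoidAlgebra ℤ G,
        (n : MonoidAlgebra ℚ G) * u.value ψ = toQ z := h
  obtain ⟨b, hb⟩ := exists_reg_group (D.σ v)
  have hc : ∀ k, b ^ D.r * (1 - MonoidAlgebra.single (D.σ v) 1) ^ D.r * u.c k = u.c k := by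
    intro k
    rw [← sub_eq_zero]
    refine Pool.Agent.K3h3.RS.eq_zero_of_charValue _ fun χ => ?_
    by_cases hχ : (addPrime D v hv h1).Active χ
    · have h3 := ((active_add_iff D hv h1 χ).1 hχ).2
      have h4 : (1 - (χ (D.σ v) : ℂ)) ≠ 0 := by
        intro h5
        apply h3
        apply Units.ext
        rw [Units.val_one]
        exact (sub_eq_zero.1 h5).symm
      have h5 : charValue χ (toR b) * (1 - (χ (D.σ v) : ℂ)) = 1 := by
        have h6 := congrArg (fun z => charValue χ (toR z)) (hb 1)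
        simp only [pow_one, map_mul toR, map_pow toR, charValue_mul, toR_one_sub, cv_one_sub] at h6
        have h7 : charValue χ ((1 - MonoidAlgebra.single (D.σ v) (1 : ℝ)) ^ (1 + 1)) =
            (1 - (χ (D.σ v) : ℂ)) * (1 - (χ (D.σ v) : ℂ)) := by
          rw [pow_succ, pow_one, charValue_mul, cv_one_sub]
        rw [h7, ← mul_assoc] at h6
        exact mul_right_cancel₀ h4 (h6.trans (one_mul _).symm)
      have h6 : ∀ n : ℕ, ∀ z : MonoidAlgebra ℝ G, charValue χ (z ^ n) = charValue χ z ^ n := by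
        intro n z
        rw [charValue_eq, charValue_eq, map_pow]
      rw [map_sub, map_mul, map_mul, map_pow, map_pow, toR_one_sub, charValue_eq, map_sub,
        ← charValue_eq, ← charValue_eq, charValue_mul, charValue_mul, h6, h6, cv_one_sub,
        ← mul_pow, h5, one_pow, one_mul, sub_self]
    · rw [map_sub, map_mul, charValue_eq, map_sub, ← charValue_eq, ← charValue_eq, charValue_mul,
        eu χ hχ k, mul_zero, sub_self]
  let E : Wedge G D.r (D.U T) := ⟨u.n, fun k => b ^ D.r * u.c k, fun k j =>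
    ⟨(u.x k j : Hˣ) * (act (D.σ v) (u.x k j : Hˣ))⁻¹, div_mem D hv h1 T (u.x k j).2⟩⟩
  have hreg : E.regulator D.w = u.regulator D.w := by
    unfold Wedge.regulator
    change ∑ k : Fin u.n, toR (b ^ D.r * u.c k) * Matrix.det (Matrix.of fun a b =>
      reg G (D.w a) ((u.x k b : Hˣ) * (act (D.σ v) (u.x k b : Hˣ))⁻¹)) = _
    refine Finset.sum_congr rfl fun k _ => ?_
    simp_rw [reg_div]
    rw [det_natCast_mul, ← toR_one_sub, ← map_pow, ← mul_assoc, ← map_mul]
    have h3 : b ^ D.r * u.c k * (1 - MonoidAlgebra.single (D.σ v) 1) ^ D.r = u.c k := by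
      rw [mul_right_comm, hc]
    rw [h3]
  refine ⟨E, ?_, ?_, ?_⟩
  · intro χ hχ k
    change charValue χ (toR (b ^ D.r * u.c k)) = 0
    rw [map_mul, charValue_mul, eu χ hχ k, mul_zero]
  · intro χ
    change Tendsto _ _ (𝓝 (charValue χ (E.regulator D.w)))
    rw [hreg]
    exact su χ
  · intro ψ
    choose f hf1 hf2 hf3 using fun i => exists_extend D hv h1 T hvT hT (ψ i)
    choose ψ' hψ' using fun i => exists_restrict (addPrime D v hv h1) T (f i) (hf1 i) (hf2 i)
    have hval : E.value ψ = u.value ψ' := by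
      unfold Wedge.value
      change ∑ k : Fin u.n, (b ^ D.r * u.c k) * toQ (Matrix.det (Matrix.of fun i j =>
        (ψ i).f (Additive.ofMul ⟨(u.x k j : Hˣ) * (act (D.σ v) (u.x k j : Hˣ))⁻¹,
          div_mem D hv h1 T (u.x k j).2⟩))) = _
      refine Finset.sum_congr rfl fun k _ => ?_
      have h3 : ∀ i j, toQ ((ψ i).f (Additive.ofMul
          ⟨(u.x k j : Hˣ) * (act (D.σ v) (u.x k j : Hˣ))⁻¹, div_mem D hv h1 T (u.x k j).2⟩)) =
          (1 - MonoidAlgebra.single (D.σ v) 1) * toQ ((ψ' i).f (Additive.ofMul (u.x k j))) := by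
        intro i j
        have hx : (u.x k j : Hˣ) ∈ US (addPrime D v hv h1) :=
          U_le (addPrime D v hv h1) T (u.x k j).2
        have hgx : act (D.σ v) (u.x k j : Hˣ) ∈ US (addPrime D v hv h1) :=
          Pool.Agent.K3h30.RS.act_mem Pool.Agent.K3h25.RS.t_TRANS _ _ _ hx
        have hq : (u.x k j : Hˣ) * (act (D.σ v) (u.x k j : Hˣ))⁻¹ ∈
            US (addPrime D v hv h1) := (US (addPrime D v hv h1)).mul_mem hx
              ((US (addPrime D v hv h1)).inv_mem hgx)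
        have a1 := hf3 i ⟨(u.x k j : Hˣ) * (act (D.σ v) (u.x k j : Hˣ))⁻¹,
          div_mem D hv h1 T (u.x k j).2⟩ hq
        rw [← a1, hψ' i (u.x k j)]
        have a2 : (Additive.ofMul (⟨(u.x k j : Hˣ) * (act (D.σ v) (u.x k j : Hˣ))⁻¹, hq⟩ :
            US (addPrime D v hv h1))) =
            Additive.ofMul (⟨(u.x k j : Hˣ), hx⟩ : US (addPrime D v hv h1)) -
            Additive.ofMul (⟨act (D.σ v) (u.x k j : Hˣ), hgx⟩ : US (addPrime D v hv h1)) := by
          rw [← ofMul_div, div_eq_mul_inv]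
          rfl
        rw [a2, map_sub, hf1 i (D.σ v) ⟨(u.x k j : Hˣ), hx⟩ ⟨_, hgx⟩ rfl, sub_mul, one_mul]
      have h4 : toQ (Matrix.det (Matrix.of fun i j =>
          (ψ i).f (Additive.ofMul ⟨(u.x k j : Hˣ) * (act (D.σ v) (u.x k j : Hˣ))⁻¹,
            div_mem D hv h1 T (u.x k j).2⟩))) =
          (1 - MonoidAlgebra.single (D.σ v) 1) ^ D.r * toQ (Matrix.det (Matrix.of fun i j =>
            (ψ' i).f (Additive.ofMul (u.x k j)))) := by
        have e2 : (toQ (G := G)).mapMatrix (Matrix.of fun i j =>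
            (ψ' i).f (Additive.ofMul (u.x k j))) =
            Matrix.of fun i j => toQ ((ψ' i).f (Additive.ofMul (u.x k j))) := by
          ext i j : 1
          rfl
        rw [RingHom.map_det, RingHom.map_det, e2, ← det_natCast_mul]
        congr 1
        ext i j : 1
        simp only [RingHom.mapMatrix_apply, Matrix.map_apply, Matrix.of_apply]
        exact h3 i j
      rw [h4, ← mul_assoc]
      have h5 : b ^ D.r * u.c k * (1 - MonoidAlgebra.single (D.σ v) 1) ^ D.r = u.c k := by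
        rw [mul_right_comm, hc]
      rw [h5]
    rw [hval]
    exact iu ψ'

/-- restriction of `G`-homomorphisms -/
def restr {U U' : Subgroup Hˣ} (h : U ≤ U') (ψ : GHom G U') : GHom G U where
  f := ψ.f.comp (MonoidHom.toAdditive (Subgroup.inclusion h))
  equiv γ x y hxy := ψ.equiv γ (Subgroup.inclusion h x) (Subgroup.inclusion h y) hxy

/-- a wedge in a larger group -/
def push {r : ℕ} {U U' : Subgroup Hˣ} (h : U ≤ U') (u : Wedge G r U) : Wedge G r U' :=
  ⟨u.n, u.c, fun k j => Subgroup.inclusion h (u.x k j)⟩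

theorem push_value {r : ℕ} {U U' : Subgroup Hˣ} (h : U ≤ U') (u : Wedge G r U)
    (ψ : Fin r → GHom G U') : (push h u).value ψ = u.value fun i => restr h (ψ i) := rfl

theorem push_regulator {r : ℕ} {U U' : Subgroup Hˣ} (h : U ≤ U') (u : Wedge G r U)
    (w : Fin r → Place H) : (push h u).regulator w = u.regulator w := rfl

theorem log_ne (v : HeightOneSpectrum (𝓞 F)) : Complex.log (Ideal.absNorm v.asIdeal : ℂ) ≠ 0 := by
  have h2 := two_le_absNorm v
  rw [← Complex.natCast_log]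
  have h3 : 0 < Real.log (Ideal.absNorm v.asIdeal : ℝ) :=
    Real.log_pos (by exact_mod_cast (by omega : 1 < Ideal.absNorm v.asIdeal))
  exact_mod_cast h3.ne'

theorem factor_slope' (v : HeightOneSpectrum (𝓞 F)) :
    Tendsto (fun s : ℂ => (1 - (Ideal.absNorm v.asIdeal : ℂ) ^ (-s)) / s) (𝓝[≠] 0)
      (𝓝 (Complex.log (Ideal.absNorm v.asIdeal : ℂ))) := by
  have h2 := two_le_absNorm v
  have h3 : (Ideal.absNorm v.asIdeal : ℂ) ≠ 0 := by
    exact_mod_cast (by omega : Ideal.absNorm v.asIdeal ≠ 0)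
  have h4 : HasDerivAt (fun s : ℂ => 1 - (Ideal.absNorm v.asIdeal : ℂ) ^ (-s))
      (Complex.log (Ideal.absNorm v.asIdeal : ℂ)) 0 := by
    have h5 := ((hasDerivAt_neg (0 : ℂ)).const_cpow (c := (Ideal.absNorm v.asIdeal : ℂ))
      (Or.inl h3)).const_sub 1
    simpa using h5
  refine h4.tendsto_slope_zero.congr' ?_
  filter_upwards [self_mem_nhdsWithin] with s hs
  simp only [zero_add, smul_eq_mul, neg_zero, Complex.cpow_zero, sub_self, sub_zero]
  rw [div_eq_inv_mul]

/-- **Rubin's conjecture for `S ∪ {v}` depends only on the Frobenius automorphism of `v`.** -/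
theorem same_frob (D : RubinData F H G) (M : Submonoid ℕ) (T : Finset (HeightOneSpectrum (𝓞 F)))
    (hT : Disjoint D.S T) {v v' : HeightOneSpectrum (𝓞 F)} (hv : v ∉ D.S) (h1 : D.σ v ≠ 1)
    (hvT : v ∉ T) (hv' : v' ∉ D.S) (h1' : D.σ v' ≠ 1) (hvv : D.σ v = D.σ v')
    (h : RubinUpTo (addPrime D v hv h1) M T) : RubinUpTo (addPrime D v' hv' h1') M T := by
  obtain ⟨E, eE, sE, iE⟩ := descend_value D hv h1 M T hvT hT h
  have hle := U_le_add D hv' h1' T
  have hact : ∀ χ, (addPrime D v' hv' h1').Active χ ↔ (addPrime D v hv h1).Active χ := by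
    intro χ
    rw [active_add_iff, active_add_iff, hvv]
  refine ⟨push hle E, fun χ hχ k => eE χ (fun h3 => hχ ((hact χ).2 h3)) k, ?_, ?_⟩
  · intro χ
    change Tendsto _ _ (𝓝 (charValue χ (E.regulator D.w)))
    by_cases hχ : χ (D.σ v) = 1
    · have h3 : charValue χ (E.regulator D.w) = 0 := by
        rw [Pool.Agent.K3h3.RS.charValue_regulator]
        refine Finset.sum_eq_zero fun k _ => ?_
        rw [Pool.Agent.K3h3.RS.cvQ_apply, eE χ (fun h4 => ((active_add_iff D hv h1 χ).1 h4).2 hχ) k,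
          zero_mul]
      have h4 : Tendsto (fun s : ℂ => (s ^ D.r)⁻¹ * (addPrime D v hv h1).LT T χ⁻¹ s) (𝓝[≠] 0)
          (𝓝 (charValue χ (E.regulator D.w))) := sE χ
      rw [h3] at h4 ⊢
      have h5 := ((factor_slope' v').div (factor_slope' v) (log_ne v)).mul h4
      rw [mul_zero] at h5
      refine h5.congr' ?_
      filter_upwards [self_mem_nhdsWithin, (factor_slope' v).eventually_ne (log_ne v)]
        with s hs hs'
      have hs0 : s ≠ 0 := hs
      change _ = (s ^ D.r)⁻¹ * (addPrime D v' hv' h1').LT T χ⁻¹ s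
      rw [addPrime_LT, addPrime_LT, MonoidHom.inv_apply, MonoidHom.inv_apply, ← hvv, hχ, inv_one,
        Units.val_one, one_mul, one_mul, Pi.div_apply]
      have h6 : (1 - (Ideal.absNorm v.asIdeal : ℂ) ^ (-s)) ≠ 0 := by
        intro h7
        rw [h7, zero_div] at hs'
        exact hs' rfl
      field_simp
    · obtain ⟨l, hl⟩ := exists_lim D hv h1 T sE hχ
      rw [lim_add D hv h1 T sE hl]
      have h4 := (tendsto_factor χ (D.σ v) v').mul hl
      refine h4.congr' ?_
      refine Filter.Eventually.of_forall fun s => ?_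
      change _ = (s ^ D.r)⁻¹ * (addPrime D v' hv' h1').LT T χ⁻¹ s
      rw [addPrime_LT, hvv]
      ring
  · intro ψ
    exact iE fun i => restr hle (ψ i)

end

end Pool.Agent.Run7.h97.RB
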