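import Pool.Agent.Run7.h97.RB.D

/-!
# Popescu's conjecture and the set `S`: the group `E^ab` and the lattice
-/

set_option autoImplicit false
set_option linter.unusedSectionVars false

open NumberField IsDedekindDomain Filter Topology

noncomputable section

namespace Pool.Agent.Run7.h97.RB

open Pool.Agent.K3h30.RS

section ab

variable (F : Type) {H : Type} [Field F] [Field H] [NumberField H] [Algebra F H]

/-- `H(x^{1/w}) / F` is abelian, where `w` is the number of the roots of unity in `H`: there is a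
`w`-th root `y` of `x` in an algebraic closure such that all automorphisms of the algebraic closure
over `F` commute on `y` (for abelian `H / F` this says that `H(y) / F` is an abelian extension). -/
def IsAb (x : Hˣ) : Prop :=
  ∃ y : AlgebraicClosure H,
    y ^ NumberField.Units.torsionOrder H = algebraMap H (AlgebraicClosure H) (x : H) ∧
    ∀ σ τ : AlgebraicClosure H ≃ₐ[F] AlgebraicClosure H, σ (τ y) = τ (σ y)

theorem isAb_one : IsAb F (1 : Hˣ) := ⟨1, by simp, fun σ τ => by simp⟩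

variable {F}

theorem isAb_mul {x y : Hˣ} (hx : IsAb F x) (hy : IsAb F y) : IsAb F (x * y) := by
  obtain ⟨a, ha, ha'⟩ := hx
  obtain ⟨b, hb, hb'⟩ := hy
  refine ⟨a * b, by rw [mul_pow, ha, hb, Units.val_mul, map_mul], fun σ τ => ?_⟩
  rw [map_mul, map_mul, map_mul, map_mul, ha', hb']

theorem isAb_inv {x : Hˣ} (hx : IsAb F x) : IsAb F x⁻¹ := by
  obtain ⟨a, ha, ha'⟩ := hx
  refine ⟨a⁻¹, by rw [inv_pow, ha, Units.val_inv_eq_inv_val, map_inv₀], fun σ τ => ?_⟩
  rw [map_inv₀, map_inv₀, map_inv₀, map_inv₀, ha']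

theorem isAb_pow {x : Hˣ} (hx : IsAb F x) (n : ℕ) : IsAb F (x ^ n) := by
  induction n with
  | zero =>
    rw [pow_zero]
    exact isAb_one F
  | succ n ih =>
    rw [pow_succ]
    exact isAb_mul ih hx

theorem isAb_zpow {x : Hˣ} (hx : IsAb F x) (n : ℤ) : IsAb F (x ^ n) := by
  cases n with
  | ofNat n =>
    rw [Int.ofNat_eq_natCast, zpow_natCast]
    exact isAb_pow hx n
  | negSucc n =>
    rw [zpow_negSucc]
    exact isAb_inv (isAb_pow hx _)

theorem isAb_act {G : Type} [CommGroup G] [Finite G] [MulSemiringAction G H]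
    [hG : IsGaloisGroup G F H] (γ : G) {x : Hˣ} (hx : IsAb F x) : IsAb F (act γ x) := by
  haveI : SMulCommClass G F H := hG.commutes
  let e : H ≃ₐ[F] H := MulSemiringAction.toAlgEquiv F H γ
  let E : AlgebraicClosure H ≃+* AlgebraicClosure H :=
    IsAlgClosure.equivOfEquiv (AlgebraicClosure H) (AlgebraicClosure H) e.toRingEquiv
  have hE : ∀ h : H, E (algebraMap H (AlgebraicClosure H) h) =
      algebraMap H (AlgebraicClosure H) (e h) := fun h =>
    IsAlgClosure.equivOfEquiv_algebraMap (AlgebraicClosure H) (AlgebraicClosure H) e.toRingEquiv h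
  let E' : AlgebraicClosure H ≃ₐ[F] AlgebraicClosure H := AlgEquiv.ofRingEquiv (f := E) (by
    intro f
    rw [IsScalarTower.algebraMap_apply F H (AlgebraicClosure H), hE, e.commutes])
  obtain ⟨a, ha, ha'⟩ := hx
  refine ⟨E' a, ?_, fun σ τ => ?_⟩
  · rw [← map_pow, ha]
    exact hE (x : H)
  · have h1 := ha' (E'.trans (σ.trans E'.symm)) (E'.trans (τ.trans E'.symm))
    have h2 := congrArg E' h1
    simpa using h2

end ab

section rep

variable {F H G : Type} [Field F] [Field H] [NumberField H] [Algebra F H]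
  [CommGroup G] [Finite G] [MulSemiringAction G H]

theorem ghom_mul {U : Subgroup Hˣ} (ψ : GHom G U) (x y : U) :
    ψ.f (Additive.ofMul (x * y)) = ψ.f (Additive.ofMul x) + ψ.f (Additive.ofMul y) := by
  rw [ofMul_mul, map_add]

theorem ghom_inv {U : Subgroup Hˣ} (ψ : GHom G U) (x : U) :
    ψ.f (Additive.ofMul x⁻¹) = -ψ.f (Additive.ofMul x) := by
  rw [ofMul_inv, map_neg]

theorem ghom_one {U : Subgroup Hˣ} (ψ : GHom G U) : ψ.f (Additive.ofMul 1) = 0 := by
  rw [ofMul_one, map_zero]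

theorem ghom_zpow {U : Subgroup Hˣ} (ψ : GHom G U) (x : U) (n : ℤ) :
    ψ.f (Additive.ofMul (x ^ n)) = (n : MonoidAlgebra ℤ G) * ψ.f (Additive.ofMul x) := by
  rw [ofMul_zpow, map_zsmul, zsmul_eq_mul]

theorem ghom_pow {U : Subgroup Hˣ} (ψ : GHom G U) (x : U) (n : ℕ) :
    ψ.f (Additive.ofMul (x ^ n)) = (n : MonoidAlgebra ℤ G) * ψ.f (Additive.ofMul x) := by
  rw [ofMul_pow, map_nsmul, nsmul_eq_mul]

theorem ghom_ext {U : Subgroup Hˣ} {ψ ψ' : GHom G U}
    (h : ∀ x : U, ψ.f (Additive.ofMul x) = ψ'.f (Additive.ofMul x)) : ψ = ψ' := by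
  obtain ⟨f, hf⟩ := ψ
  obtain ⟨f', hf'⟩ := ψ'
  have : f = f' := AddMonoidHom.ext fun x => h (Additive.toMul x)
  subst this
  rfl

variable (F) in
/-- The function `V` of `ψ ∈ Hom_{ℤ[G]}(U, ℤ[G])` is, after multiplication by an element of `M`, the
evaluation `ψ ↦ ψ(x)` at an element `x` of `U` with `H(x^{1/w}) / F` abelian. An element of
`ℚ ⊗ U` is determined by these values. -/
def Rep (M : Submonoid ℕ) (U : Subgroup Hˣ) (V : GHom G U → MonoidAlgebra ℚ G) : Prop :=
  ∃ n ∈ M, ∃ x : U, IsAb F (x : Hˣ) ∧ ∀ ψ : GHom G U,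
    (n : MonoidAlgebra ℚ G) * V ψ = toQ (ψ.f (Additive.ofMul x))

variable {M : Submonoid ℕ} {U : Subgroup Hˣ} {V V' : GHom G U → MonoidAlgebra ℚ G}

theorem rep_congr (h : Rep F M U V) (h' : ∀ ψ, V ψ = V' ψ) : Rep F M U V' := by
  obtain ⟨n, hn, x, hx, h⟩ := h
  exact ⟨n, hn, x, hx, fun ψ => by rw [← h', h]⟩

theorem rep_zero : Rep (G := G) F M U fun _ => 0 :=
  ⟨1, M.one_mem, 1, isAb_one F, fun ψ => by rw [ghom_one, mul_zero, map_zero]⟩

theorem rep_add (h : Rep F M U V) (h' : Rep F M U V') : Rep F M U fun ψ => V ψ + V' ψ := by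
  obtain ⟨n, hn, x, hx, h⟩ := h
  obtain ⟨n', hn', x', hx', h'⟩ := h'
  refine ⟨n * n', M.mul_mem hn hn', x ^ n' * x' ^ n, ?_, fun ψ => ?_⟩
  · rw [Subgroup.coe_mul, Subgroup.coe_pow, Subgroup.coe_pow]
    exact isAb_mul (isAb_pow hx _) (isAb_pow hx' _)
  · rw [ghom_mul, ghom_pow, ghom_pow, map_add, map_mul, map_mul, map_natCast, map_natCast, ← h ψ,
      ← h' ψ]
    push_cast
    ring

theorem rep_int (h : Rep F M U V) (a : ℤ) :
    Rep F M U fun ψ => (a : MonoidAlgebra ℚ G) * V ψ := by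
  obtain ⟨n, hn, x, hx, h⟩ := h
  refine ⟨n, hn, x ^ a, ?_, fun ψ => ?_⟩
  · rw [Subgroup.coe_zpow]
    exact isAb_zpow hx _
  · rw [ghom_zpow, map_mul, map_intCast, ← h ψ]
    ring

theorem rep_single [hG : IsGaloisGroup G F H] (hU : ∀ (γ : G) (x : Hˣ), x ∈ U → act γ x ∈ U)
    (h : Rep F M U V) (g : G) : Rep F M U fun ψ => MonoidAlgebra.single g 1 * V ψ := by
  obtain ⟨n, hn, x, hx, h⟩ := h
  refine ⟨n, hn, ⟨act g (x : Hˣ), hU g x x.2⟩, isAb_act g hx, fun ψ => ?_⟩
  rw [ψ.equiv g x ⟨act g (x : Hˣ), hU g x x.2⟩ rfl, map_mul, toQ_single', ← h ψ]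
  ring

theorem rep_one_sub [hG : IsGaloisGroup G F H] (hU : ∀ (γ : G) (x : Hˣ), x ∈ U → act γ x ∈ U)
    (h : Rep F M U V) (g : G) :
    Rep F M U fun ψ => (1 - MonoidAlgebra.single g 1) * V ψ := by
  refine rep_congr (rep_add h (rep_int (rep_single hU h g) (-1))) fun ψ => ?_
  push_cast
  ring

/-- clearing a factor in `M` -/
theorem rep_of_mul {m : ℕ} (hm : m ∈ M)
    (h : Rep F M U fun ψ => ((m : ℤ) : MonoidAlgebra ℚ G) * V ψ) : Rep F M U V := by
  obtain ⟨n, hn, x, hx, h⟩ := h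
  refine ⟨n * m, M.mul_mem hn hm, x, hx, fun ψ => ?_⟩
  rw [← h ψ]
  push_cast
  ring

theorem rep_sum {ι : Type} (s : Finset ι) (W : ι → GHom G U → MonoidAlgebra ℚ G)
    (h : ∀ i ∈ s, Rep F M U (W i)) : Rep F M U fun ψ => ∑ i ∈ s, W i ψ := by
  classical
  induction s using Finset.induction_on with
  | empty => exact rep_congr rep_zero fun ψ => by simp
  | insert a s ha ih =>
    refine rep_congr (rep_add (h a (Finset.mem_insert_self a s))
      (ih fun i hi => h i (Finset.mem_insert_of_mem hi))) fun ψ => ?_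
    rw [Finset.sum_insert ha]

/-- the integers `m` such that `m V` is in the lattice form an ideal -/
theorem rep_span (A : Set ℤ)
    (h : ∀ a ∈ A, Rep F M U fun ψ => (a : MonoidAlgebra ℚ G) * V ψ) {m : ℤ}
    (hm : m ∈ Ideal.span A) : Rep F M U fun ψ => (m : MonoidAlgebra ℚ G) * V ψ := by
  induction hm using Submodule.span_induction with
  | mem a ha => exact h a ha
  | zero => exact rep_congr rep_zero fun ψ => by simp
  | add a b _ _ ha hb =>
    refine rep_congr (rep_add ha hb) fun ψ => ?_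
    push_cast
    ring
  | smul c a _ ha =>
    refine rep_congr (rep_int ha c) fun ψ => ?_
    push_cast [smul_eq_mul]
    ring

variable (F) in
/-- The element `w_H u` of `ℚ ⋀^r U` is in the lattice `Λ` up to factors in `M`: for all
`φ_j ∈ Hom_{ℤ[G]}(U, ℤ[G])`, `j ≠ i`, the contraction of `w_H u` by them is the class of an element `x`
of `U` with `H(x^{1/w}) / F` abelian. (The value of `ψ` at the contraction is the value of
`⋀ φ_j` at `w_H u`, with `φ_i = ψ`. The choice of the place `i` of the contraction only changes a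
sign.) -/
def AbInt (M : Submonoid ℕ) {r : ℕ} {U : Subgroup Hˣ} (u : Wedge G r U) : Prop :=
  ∀ (i : Fin r) (φ : Fin r → GHom G U), Rep F M U fun ψ =>
    (NumberField.Units.torsionOrder H : MonoidAlgebra ℚ G) * u.value (Function.update φ i ψ)

end rep

end Pool.Agent.Run7.h97.RB
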