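import Pool.Agent.Run7.h97.RB.P1

/-!
# Popescu's conjecture for `S ∪ {v}`: the units at `v`
-/

set_option autoImplicit false
set_option linter.unusedSectionVars false

open NumberField IsDedekindDomain Filter Topology

noncomputable section

namespace Pool.Agent.Run7.h97.RB

open Pool.Agent.K3h30.RS
open Pool.Agent.K3h62.RS (charValue_mul charValue_eq toR_single cvHom_single two_le_absNorm)
open Pool.Agent.K3h3.RS (cvQ cvQ_apply cvQ_wval charValue_regulator eq_zero_of_charValue)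

section defs

variable {F H G : Type} [Field F] [NumberField F] [Field H] [NumberField H] [Algebra F H]
  [CommGroup G] [Finite G] [MulSemiringAction G H]

/-- Popescu's evaluator `R`: `u_1 ∧ ... ∧ u_r ↦ det (λ_j (u_i))`, `λ_j = -∑ log |σ u|_{w_j} σ⁻¹`. -/
def popReg (D : RubinData F H G) (u : Wedge G D.r (D.U ∅)) : MonoidAlgebra ℝ G :=
  ∑ k, toR (u.c k) * Matrix.det (Matrix.of fun a b => -reg G (D.w a) (u.x k b : Hˣ))

/-- **Popescu's conjecture for `S`**, up to factors in `M`: there is an element `η'` of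
`e' ℚ ⋀^r E_S(H)` with `R(η') = ∑ L^*_S(0, χ) e_χ̄` and `w_H η' ∈ Λ`. For `M = {1}` it is the statement of
Q1, if `M` is the set of the numbers prime to `p` it is its `p`-part. -/
def PopescuUpTo (D : RubinData F H G) (M : Submonoid ℕ) : Prop :=
  ∃ u : Wedge G D.r (D.U ∅), D.InER u ∧
    (∀ χ : G →* ℂˣ, Tendsto (fun s : ℂ => (s ^ D.r)⁻¹ * D.L χ⁻¹ s) (𝓝[≠] 0)
      (𝓝 (charValue χ (popReg D u)))) ∧ AbInt F M u

/-- the same with the other sign of the regulator -/
def Pop (D : RubinData F H G) (M : Submonoid ℕ) : Prop :=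
  ∃ u : Wedge G D.r (D.U ∅), D.InER u ∧ D.IsStark ∅ u ∧ AbInt F M u

theorem LT_empty (D : RubinData F H G) (χ : G →* ℂˣ) (s : ℂ) : D.LT ∅ χ s = D.L χ s := by
  unfold RubinData.LT
  rw [Finset.prod_empty, one_mul]

theorem popReg_eq (D : RubinData F H G) (u : Wedge G D.r (D.U ∅)) :
    popReg D u = (-1) ^ D.r * u.regulator D.w := by
  unfold popReg Wedge.regulator
  rw [Finset.mul_sum]
  refine Finset.sum_congr rfl fun k _ => ?_
  have h : (Matrix.of fun a b => -reg G (D.w a) (u.x k b : Hˣ)) =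
      -(Matrix.of fun a b => reg G (D.w a) (u.x k b : Hˣ)) := by
    ext a b : 2
    rfl
  rw [h, Matrix.det_neg, Fintype.card_fin]
  ring

/-- the sign -/
def sgn (r : ℕ) : MonoidAlgebra ℚ G := (-1) ^ r

theorem inER_scale (D : RubinData F H G) {U : Subgroup Hˣ} {u : Wedge G D.r U} (q : MonoidAlgebra ℚ G)
    (h : D.InER u) : D.InER (scale q u) := by
  intro χ hχ k
  change charValue χ (toR (q * u.c k)) = 0
  rw [map_mul, charValue_mul, h χ hχ k, mul_zero]

theorem abInt_sgn {M : Submonoid ℕ} {r : ℕ} {U : Subgroup Hˣ} {u : Wedge G r U} (n : ℕ)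
    (h : AbInt F M u) : AbInt F M (scale (sgn n) u) := by
  intro i φ
  refine rep_congr (rep_int (h i φ) ((-1) ^ n)) fun ψ => ?_
  rw [scale_value]
  unfold sgn
  push_cast
  ring

theorem popescu_iff (D : RubinData F H G) (M : Submonoid ℕ) : PopescuUpTo D M ↔ Pop D M := by
  have hs : toR (sgn (G := G) D.r) = (-1) ^ D.r := by
    unfold sgn
    rw [map_pow, map_neg, map_one]
  have h1 : ((-1 : MonoidAlgebra ℝ G) ^ D.r) * (-1) ^ D.r = 1 := by
    rw [← mul_pow]
    norm_num
  constructor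
  · rintro ⟨u, e, s, i⟩
    refine ⟨scale (sgn D.r) u, inER_scale D _ e, fun χ => ?_, abInt_sgn _ i⟩
    have h2 : (scale (sgn D.r) u).regulator D.w = popReg D u := by
      rw [scale_regulator, hs, popReg_eq]
    rw [h2]
    simp only [LT_empty]
    exact s χ
  · rintro ⟨u, e, s, i⟩
    refine ⟨scale (sgn D.r) u, inER_scale D _ e, fun χ => ?_, abInt_sgn _ i⟩
    have h2 : popReg D (scale (sgn D.r) u) = u.regulator D.w := by
      rw [popReg_eq, scale_regulator, hs, ← mul_assoc, h1, one_mul]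
    rw [h2]
    have h3 := s χ
    simp only [LT_empty] at h3
    exact h3

theorem value_zero_row {r : ℕ} {U : Subgroup Hˣ} (u : Wedge G r U) (ψ : Fin r → GHom G U)
    (i : Fin r) (h : ∀ x : U, (ψ i).f (Additive.ofMul x) = 0) : u.value ψ = 0 := by
  unfold Wedge.value
  refine Finset.sum_eq_zero fun k _ => ?_
  rw [Matrix.det_eq_zero_of_row_eq_zero i (fun j => h _), map_zero, mul_zero]

theorem restr_update {r : ℕ} {U U' : Subgroup Hˣ} (h : U ≤ U') (φ : Fin r → GHom G U') (i : Fin r)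
    (ψ : GHom G U') : (fun j => restr h (Function.update φ i ψ j)) =
      Function.update (fun j => restr h (φ j)) i (restr h ψ) := by
  funext j
  by_cases hj : j = i
  · subst hj
    rw [Function.update_self, Function.update_self]
  · rw [Function.update_of_ne hj, Function.update_of_ne hj]

theorem push_ab {M : Submonoid ℕ} {r : ℕ} {U U' : Subgroup Hˣ} (h : U ≤ U') {E : Wedge G r U}
    (hE : AbInt F M E) : AbInt F M (push h E) := by
  intro i φ
  obtain ⟨n, hn, x, hx, hR⟩ := hE i (fun j => restr h (φ j))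
  refine ⟨n, hn, Subgroup.inclusion h x, hx, fun ψ => ?_⟩
  beta_reduce
  rw [push_value, restr_update]
  exact hR (restr h ψ)

end defs

section

variable {F H G : Type} [Field F] [NumberField F] [Field H] [NumberField H] [Algebra F H]
  [CommGroup G] [Finite G] [MulSemiringAction G H] [hG : IsGaloisGroup G F H]

theorem mem_U_empty (D : RubinData F H G) {x : Hˣ} (hx : x ∈ US D) : x ∈ D.U ∅ :=
  ⟨hx.1, fun w hw => by
    obtain ⟨v, hv, -⟩ := hw
    simp at hv⟩

theorem act_U (D : RubinData F H G) (γ : G) (x : Hˣ) (hx : x ∈ D.U ∅) : act γ x ∈ D.U ∅ :=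
  Pool.Agent.K3h30.RS.act_mem Pool.Agent.K3h25.RS.t_TRANS _ _ γ hx

/-- **Uniqueness of the Stark element** -/
theorem uniq_value (D : RubinData F H G) (E E' : Wedge G D.r (D.U ∅)) (e : D.InER E)
    (e' : D.InER E') (s : D.IsStark ∅ E) (s' : D.IsStark ∅ E')
    (ψ : Fin D.r → GHom G (D.U ∅)) : E.value ψ = E'.value ψ := by
  have hU := Pool.Agent.K3h3.RS.t_UNIQ
    (Pool.Agent.K3h40.RS.t_SPANREG Pool.Agent.K3h40.RS.t_LOGINJ)
  have hle := U_le D ∅
  let inc : US D →* D.U ∅ :=
    { toFun := fun x => ⟨(x : Hˣ), mem_U_empty D x.2⟩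
      map_one' := rfl
      map_mul' := fun _ _ => rfl }
  let f : Fin D.r → Additive (US D) →+ MonoidAlgebra ℚ G := fun i =>
    (toQ (G := G)).toAddMonoidHom.comp ((ψ i).f.comp (MonoidHom.toAdditive inc))
  have hf : ∀ i, IsEquiv D (f i) := by
    intro i γ x y hxy
    change toQ ((ψ i).f (Additive.ofMul (inc y))) =
      _ * toQ ((ψ i).f (Additive.ofMul (inc x)))
    rw [(ψ i).equiv γ (inc x) (inc y) hxy, map_mul, toQ_single']
  have h3 := hU F H G D ∅ ∅ (D.U ∅) (D.U ∅) hle hle E E' e e' s s' f hf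
  obtain ⟨κ, hκ⟩ := Pool.Agent.K3h62.RS.t_UNIT F H G D ∅
  have hw : ∀ E : Wedge G D.r (D.U ∅), wval D hle f E = E.value ψ := by
    intro E
    unfold wval Wedge.value
    refine Finset.sum_congr rfl fun k _ => ?_
    rw [RingHom.map_det]
    congr 2
  rw [hw, hw] at h3
  have e0 : ∀ z : MonoidAlgebra ℚ G, κ * (D.delta ∅ * z) = z := fun z => by
    rw [← mul_assoc, mul_comm κ, hκ, one_mul]
  rw [← e0 (E.value ψ), h3, e0]

/-- every `ψ ∈ Hom(E_S, ℤ[G])` extends to `E_{S ∪ {v}}` -/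
theorem exists_ext (D : RubinData F H G) {v : HeightOneSpectrum (𝓞 F)} (hv : v ∉ D.S)
    (h1 : D.σ v ≠ 1) (ψ : GHom G (D.U ∅)) :
    ∃ ψ' : GHom G ((addPrime D v hv h1).U ∅), restr (U_le_add D hv h1 ∅) ψ' = ψ := by
  obtain ⟨f, hf1, hf2, hf3⟩ := exists_extend D hv h1 ∅ (Finset.notMem_empty v)
    (Finset.disjoint_empty_right _) ψ
  obtain ⟨ψ', hψ'⟩ := exists_restrict (addPrime D v hv h1) ∅ f hf1 hf2
  refine ⟨ψ', ghom_ext fun x => ?_⟩
  apply toQ_injective
  change toQ (ψ'.f (Additive.ofMul (Subgroup.inclusion (U_le_add D hv h1 ∅) x))) = _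
  rw [hψ']
  exact hf3 x _

/-- the valuations as elements of `Hom(E_S, ℤ[G])` -/
theorem exists_ord (D : RubinData F H G) (w : HeightOneSpectrum (𝓞 H)) :
    ∃ ψ : GHom G (D.U ∅), ∀ (x : D.U ∅) (γ : G), (ψ.f (Additive.ofMul x)).coeff γ =
      WithZero.log (w.valuation H ((act γ⁻¹ (x : Hˣ) : Hˣ) : H)) := by
  let a0 : Additive (US D) →+ ℤ :=
    { toFun := fun x => WithZero.log (w.valuation H (((Additive.toMul x : US D) : Hˣ) : H))
      map_zero' := by
        change WithZero.log (w.valuation H (((1 : US D) : Hˣ) : H)) = 0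
        rw [Subgroup.coe_one, Units.val_one, map_one, WithZero.log_one]
      map_add' := by
        intro x y
        change WithZero.log (w.valuation H
          (((Additive.toMul x : US D) * (Additive.toMul y : US D) : US D) : Hˣ)) = _
        rw [Subgroup.coe_mul, Units.val_mul, map_mul, WithZero.log_mul]
        · exact (Valuation.ne_zero_iff _).2 (Units.ne_zero _)
        · exact (Valuation.ne_zero_iff _).2 (Units.ne_zero _) }
  obtain ⟨f, hf1, hf2⟩ := exists_equiv D ((Int.castAddHom ℚ).comp a0)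
  have hint : IntOn D ∅ f := by
    intro x hx
    rw [mem_range_toQ]
    intro γ
    have h2 : act γ⁻¹ (x : Hˣ) ∈ US D :=
      Pool.Agent.K3h30.RS.act_mem Pool.Agent.K3h25.RS.t_TRANS _ _ γ⁻¹ x.2
    rw [hf2 γ x ⟨act γ⁻¹ (x : Hˣ), h2⟩ rfl]
    exact ⟨_, rfl⟩
  obtain ⟨ψ, hψ⟩ := exists_restrict D ∅ f hf1 hint
  refine ⟨ψ, fun x γ => ?_⟩
  have h3 := congrArg (fun z => z.coeff γ) (hψ x)
  have h2 : act γ⁻¹ (x : Hˣ) ∈ US D := U_le D ∅ (act_U D γ⁻¹ x x.2)
  simp only [coeff_toQ] at h3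
  rw [hf2 γ ⟨(x : Hˣ), U_le D ∅ x.2⟩ ⟨act γ⁻¹ (x : Hˣ), h2⟩ rfl] at h3
  change (((ψ.f (Additive.ofMul x)).coeff γ : ℤ) : ℚ) =
    ((WithZero.log (w.valuation H ((act γ⁻¹ (x : Hˣ) : Hˣ) : H)) : ℤ) : ℚ) at h3
  exact_mod_cast h3

/-- the contractions of the Stark element for `S ∪ {v}` are units at `v` -/
theorem descend_ab (D : RubinData F H G) (M : Submonoid ℕ) {v : HeightOneSpectrum (𝓞 F)}
    (hv : v ∉ D.S) (h1 : D.σ v ≠ 1) (E : Wedge G D.r (D.U ∅))
    (u : Wedge G D.r ((addPrime D v hv h1).U ∅))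
    (hval : ∀ ψ' : Fin D.r → GHom G ((addPrime D v hv h1).U ∅),
      E.value (fun i => restr (U_le_add D hv h1 ∅) (ψ' i)) = u.value ψ')
    (hu : AbInt F M u) : AbInt F M E := by
  intro i φ
  have hle := U_le_add D hv h1 ∅
  choose φ' hφ' using fun j => exists_ext D hv h1 (φ j)
  obtain ⟨n, hn, x', hx', hR⟩ := hu i φ'
  beta_reduce at hR
  have hmem : (x' : Hˣ) ∈ D.U ∅ := by
    refine ⟨fun w hw => ?_, x'.2.2⟩
    by_cases hwv : Above {v} w
    · obtain ⟨ψo, hψo⟩ := exists_ord (addPrime D v hv h1) w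
      have h3 := hR ψo
      rw [← hval, restr_update, value_zero_row _ _ i, mul_zero, mul_zero] at h3
      · have h4 : ψo.f (Additive.ofMul x') = 0 := by
          apply toQ_injective
          rw [← h3, map_zero]
        have h5 := hψo x' 1
        rw [h4, inv_one, Pool.Agent.K3h30.RS.act_one] at h5
        have h6 : WithZero.log (w.valuation H ((x' : Hˣ) : H)) = 0 := h5.symm
        have h7 := WithZero.exp_log (x := w.valuation H ((x' : Hˣ) : H))
          ((Valuation.ne_zero_iff _).2 (Units.ne_zero _))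
        rw [h6, WithZero.exp_zero] at h7
        exact h7.symm
      · intro x
        rw [Function.update_self]
        change ψo.f (Additive.ofMul (Subgroup.inclusion hle x)) = 0
        ext γ
        rw [hψo]
        have h5 : act γ⁻¹ (x : Hˣ) ∈ D.U ∅ := act_U D γ⁻¹ x x.2
        have h6 := h5.1 w hw
        change WithZero.log (w.valuation H ((act γ⁻¹ (x : Hˣ) : Hˣ) : H)) = 0
        rw [h6, WithZero.log_one]
    · refine x'.2.1 w fun h => ?_
      rcases (above_cons hv).1 h with h2 | h2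
      · exact hwv h2
      · exact hw h2
  refine ⟨n, hn, ⟨(x' : Hˣ), hmem⟩, hx', fun ψ => ?_⟩
  beta_reduce
  obtain ⟨ψ', hψ'⟩ := exists_ext D hv h1 ψ
  have h3 := hR ψ'
  rw [← hval, restr_update] at h3
  have h4 : (fun j => restr hle (φ' j)) = φ := funext hφ'
  rw [h4, hψ'] at h3
  rw [h3, ← hψ']
  rfl

end

end Pool.Agent.Run7.h97.RB
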