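import Pool.Agent.Run7.h97.RB.P2

/-!
# Popescu's conjecture for the sets `S ∪ {v}`: the good Frobenius automorphisms
-/

set_option autoImplicit false
set_option linter.unusedSectionVars false

open NumberField IsDedekindDomain Filter Topology

noncomputable section

namespace Pool.Agent.Run7.h97.RB

open Pool.Agent.K3h30.RS
open Pool.Agent.K3h62.RS (charValue_mul charValue_eq toR_single cvHom_single two_le_absNorm)
open Pool.Agent.K3h3.RS (cvQ cvQ_apply cvQ_wval charValue_regulator eq_zero_of_charValue)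

section

variable {F H G : Type} [Field F] [NumberField F] [Field H] [NumberField H] [Algebra F H]
  [CommGroup G] [Finite G] [MulSemiringAction G H] [hG : IsGaloisGroup G F H]

theorem descend_pop (D : RubinData F H G) (M : Submonoid ℕ) {v : HeightOneSpectrum (𝓞 F)}
    (hv : v ∉ D.S) (h1 : D.σ v ≠ 1) (h : Pop (addPrime D v hv h1) M) :
    ∃ E : Wedge G D.r (D.U ∅), (addPrime D v hv h1).InER E ∧
      (addPrime D v hv h1).IsStark ∅ E ∧ AbInt F M E := by
  obtain ⟨u, eu, su, iu⟩ := h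
  have hR : RubinUpTo (addPrime D v hv h1) ⊤ ∅ :=
    ⟨u, eu, su, fun ψ => ⟨0, Submonoid.mem_top 0, 0, by
      rw [Nat.cast_zero, zero_mul, map_zero]⟩⟩
  obtain ⟨E, eE, sE, -⟩ := descend_value D hv h1 ⊤ ∅ (Finset.notMem_empty v)
    (Finset.disjoint_empty_right _) hR
  refine ⟨E, eE, sE, descend_ab D M hv h1 E u (fun ψ' => ?_) iu⟩
  exact uniq_value (addPrime D v hv h1) (push (U_le_add D hv h1 ∅) E) u eE eu sE su ψ'

theorem lift_pop (D : RubinData F H G) (M : Submonoid ℕ) {v : HeightOneSpectrum (𝓞 F)}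
    (hv : v ∉ D.S) (h1 : D.σ v ≠ 1) (E : Wedge G D.r (D.U ∅))
    (eE : (addPrime D v hv h1).InER E) (sE : (addPrime D v hv h1).IsStark ∅ E)
    (iE : AbInt F M E) : Pop (addPrime D v hv h1) M :=
  ⟨push (U_le_add D hv h1 ∅) E, eE, sE, push_ab (U_le_add D hv h1 ∅) iE⟩

theorem step_stark (D : RubinData F H G) {v : HeightOneSpectrum (𝓞 F)}
    (hv : v ∉ D.S) (h1 : D.σ v ≠ 1) (η : Wedge G D.r (D.U ∅)) (eη : D.InER η)
    (sη : D.IsStark ∅ η) :
    (addPrime D v hv h1).InER (scale (1 - MonoidAlgebra.single (D.σ v)⁻¹ 1) η) ∧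
      (addPrime D v hv h1).IsStark ∅ (scale (1 - MonoidAlgebra.single (D.σ v)⁻¹ 1) η) := by
  constructor
  · intro χ hχ k
    change charValue χ (toR ((1 - MonoidAlgebra.single (D.σ v)⁻¹ 1) * η.c k)) = 0
    rw [map_mul, charValue_mul]
    by_cases h3 : χ (D.σ v) = 1
    · rw [toR_one_sub, cv_one_sub, map_inv, h3]
      simp
    · have h4 : ¬ D.Active χ := by
        rintro (h5 | ⟨rfl, -⟩)
        · exact hχ ((active_add_iff D hv h1 χ).2 ⟨h5, h3⟩)
        · exact h3 rfl
      rw [eη χ h4 k, mul_zero]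
  · intro χ
    change Tendsto _ _ (𝓝 (charValue χ
      ((scale (1 - MonoidAlgebra.single (D.σ v)⁻¹ 1) η).regulator D.w)))
    rw [scale_regulator, charValue_mul, toR_one_sub, cv_one_sub, map_inv]
    have h4 := (tendsto_factor χ (D.σ v) v).mul (sη χ)
    rw [MonoidHom.inv_apply] at h4
    refine h4.congr' ?_
    refine Filter.Eventually.of_forall fun s => ?_
    change _ = (s ^ D.r)⁻¹ * (addPrime D v hv h1).LT ∅ χ⁻¹ s
    rw [addPrime_LT, MonoidHom.inv_apply]
    ring

/-- **From `S` to `S ∪ {v}`.** -/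
theorem pop_add (D : RubinData F H G) (M : Submonoid ℕ) {v : HeightOneSpectrum (𝓞 F)}
    (hv : v ∉ D.S) (h1 : D.σ v ≠ 1) (h : Pop D M) : Pop (addPrime D v hv h1) M := by
  obtain ⟨η, eη, sη, iη⟩ := h
  obtain ⟨e, s⟩ := step_stark D hv h1 η eη sη
  have iE : AbInt F M (scale (1 - MonoidAlgebra.single (D.σ v)⁻¹ 1) η) := by
    intro i φ
    refine rep_congr (rep_one_sub (act_U D) (iη i φ) (D.σ v)⁻¹) fun ψ => ?_
    rw [scale_value]
    ring
  exact lift_pop D M hv h1 _ e s iE

/-- the Stark elements for `S ∪ {v}` and for `S` -/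
theorem key_pop (D : RubinData F H G) (M : Submonoid ℕ) {v : HeightOneSpectrum (𝓞 F)}
    (hv : v ∉ D.S) (h1 : D.σ v ≠ 1) (η : Wedge G D.r (D.U ∅)) (eη : D.InER η)
    (sη : D.IsStark ∅ η) (h : Pop (addPrime D v hv h1) M) (i : Fin D.r)
    (φ : Fin D.r → GHom G (D.U ∅)) : Rep F M (D.U ∅) fun ψ =>
      (1 - MonoidAlgebra.single (D.σ v)⁻¹ 1) *
        ((NumberField.Units.torsionOrder H : MonoidAlgebra ℚ G) *
          η.value (Function.update φ i ψ)) := by
  obtain ⟨E, eE, sE, iE⟩ := descend_pop D M hv h1 h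
  obtain ⟨e, s⟩ := step_stark D hv h1 η eη sη
  have hle := U_le_add D hv h1 ∅
  have hval : ∀ ψ : Fin D.r → GHom G (D.U ∅), E.value ψ =
      (1 - MonoidAlgebra.single (D.σ v)⁻¹ 1) * η.value ψ := by
    intro ψ
    choose ψ' hψ' using fun j => exists_ext D hv h1 (ψ j)
    have h3 : (fun j => restr hle (ψ' j)) = ψ := funext hψ'
    have h4 := uniq_value (addPrime D v hv h1) (push hle E)
      (push hle (scale (1 - MonoidAlgebra.single (D.σ v)⁻¹ 1) η)) eE e sE s ψ'
    have h5 : E.value (fun j => restr hle (ψ' j)) =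
      (scale (1 - MonoidAlgebra.single (D.σ v)⁻¹ 1) η).value (fun j => restr hle (ψ' j)) := h4
    rw [h3, scale_value] at h5
    exact h5
  refine rep_congr (iE i φ) fun ψ => ?_
  rw [hval]
  ring

/-- **Popescu's conjecture for `S ∪ {v}` depends only on the Frobenius automorphism of `v`.** -/
theorem pop_same_frob (D : RubinData F H G) (M : Submonoid ℕ)
    {v v' : HeightOneSpectrum (𝓞 F)} (hv : v ∉ D.S) (h1 : D.σ v ≠ 1)
    (hv' : v' ∉ D.S) (h1' : D.σ v' ≠ 1) (hvv : D.σ v = D.σ v')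
    (h : Pop (addPrime D v hv h1) M) : Pop (addPrime D v' hv' h1') M := by
  obtain ⟨E, eE, sE, iE⟩ := descend_pop D M hv h1 h
  have hle := U_le_add D hv' h1' ∅
  have hact : ∀ χ, (addPrime D v' hv' h1').Active χ ↔ (addPrime D v hv h1).Active χ := by
    intro χ
    rw [active_add_iff, active_add_iff, hvv]
  refine ⟨push hle E, fun χ hχ k => eE χ (fun h3 => hχ ((hact χ).2 h3)) k, ?_, ?_⟩
  · intro χ
    change Tendsto _ _ (𝓝 (charValue χ (E.regulator D.w)))
    by_cases hχ : χ (D.σ v) = 1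
    · have h3 : charValue χ (E.regulator D.w) = 0 := by
        rw [Pool.Agent.K3h3.RS.charValue_regulator]
        refine Finset.sum_eq_zero fun k _ => ?_
        rw [Pool.Agent.K3h3.RS.cvQ_apply, eE χ (fun h4 => ((active_add_iff D hv h1 χ).1 h4).2 hχ) k,
          zero_mul]
      have h4 : Tendsto (fun s : ℂ => (s ^ D.r)⁻¹ * (addPrime D v hv h1).LT ∅ χ⁻¹ s) (𝓝[≠] 0)
          (𝓝 (charValue χ (E.regulator D.w))) := sE χ
      rw [h3] at h4 ⊢
      have h5 := ((factor_slope' v').div (factor_slope' v) (log_ne v)).mul h4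
      rw [mul_zero] at h5
      refine h5.congr' ?_
      filter_upwards [self_mem_nhdsWithin, (factor_slope' v).eventually_ne (log_ne v)]
        with s hs hs'
      have hs0 : s ≠ 0 := hs
      change _ = (s ^ D.r)⁻¹ * (addPrime D v' hv' h1').LT ∅ χ⁻¹ s
      rw [addPrime_LT, addPrime_LT, MonoidHom.inv_apply, MonoidHom.inv_apply, ← hvv, hχ, inv_one,
        Units.val_one, one_mul, one_mul, Pi.div_apply]
      have h6 : (1 - (Ideal.absNorm v.asIdeal : ℂ) ^ (-s)) ≠ 0 := by
        intro h7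
        rw [h7, zero_div] at hs'
        exact hs' rfl
      field_simp
    · obtain ⟨l, hl⟩ := exists_lim D hv h1 ∅ sE hχ
      rw [lim_add D hv h1 ∅ sE hl]
      have h4 := (tendsto_factor χ (D.σ v) v').mul hl
      refine h4.congr' ?_
      refine Filter.Eventually.of_forall fun s => ?_
      change _ = (s ^ D.r)⁻¹ * (addPrime D v' hv' h1').LT ∅ χ⁻¹ s
      rw [addPrime_LT, hvv]
      ring
  · exact push_ab hle iE

/-- **The good Frobenius automorphisms are closed under multiplication.** -/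
theorem pop_good_mul (D : RubinData F H G) (M : Submonoid ℕ)
    {v v' v'' : HeightOneSpectrum (𝓞 F)} (hv : v ∉ D.S) (h1 : D.σ v ≠ 1)
    (hv' : v' ∉ D.S) (h1' : D.σ v' ≠ 1) (hv'' : v'' ∉ D.S)
    (h1'' : D.σ v'' ≠ 1) (hk : D.σ v'' = D.σ v * D.σ v')
    (h : Pop (addPrime D v hv h1) M) (h' : Pop (addPrime D v' hv' h1') M) :
    Pop (addPrime D v'' hv'' h1'') M := by
  obtain ⟨E₁, e₁, s₁, i₁⟩ := descend_pop D M hv h1 h
  obtain ⟨E₂, e₂, s₂, i₂⟩ := descend_pop D M hv' h1' h'
  obtain ⟨b, hb⟩ := exists_reg_group (D.σ v'')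
  obtain ⟨ek, hek⟩ : ∃ ek : MonoidAlgebra ℚ G,
    ek = b * (1 - MonoidAlgebra.single (D.σ v'') 1) := ⟨_, rfl⟩
  have cek0 : ∀ χ : G →* ℂˣ, χ (D.σ v'') = 1 → charValue χ (toR ek) = 0 := by
    intro χ hχ
    rw [hek]
    exact cv_reg_one b hχ
  have cek1 : ∀ χ : G →* ℂˣ, χ (D.σ v'') ≠ 1 → charValue χ (toR ek) = 1 := by
    intro χ hχ
    rw [hek]
    exact cv_reg hb hχ
  let E : Wedge G D.r (D.U ∅) := scale ek (sum E₁ (scale (MonoidAlgebra.single (D.σ v)⁻¹ 1) E₂))
  have hle := U_le_add D hv'' h1'' ∅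
  have hreg : ∀ χ : G →* ℂˣ, charValue χ (E.regulator D.w) = charValue χ (toR ek) *
      (charValue χ (E₁.regulator D.w) + ((χ (D.σ v) : ℂ))⁻¹ * charValue χ (E₂.regulator D.w)) := by
    intro χ
    change charValue χ ((scale ek (sum E₁ (scale (MonoidAlgebra.single (D.σ v)⁻¹ 1) E₂))).regulator
      D.w) = _
    rw [scale_regulator, sum_regulator, scale_regulator, charValue_mul, cv_add, charValue_mul,
      cv_single, map_inv, Units.val_inv_eq_inv_val]
  have hcomb : ∀ (χ : G →* ℂˣ) (l : ℂ), Lim D ∅ χ l →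
      charValue χ (E₁.regulator D.w) + ((χ (D.σ v) : ℂ))⁻¹ * charValue χ (E₂.regulator D.w) =
      (1 - ((χ⁻¹ (D.σ v'') : ℂˣ) : ℂ)) * l := by
    intro χ l hl
    rw [lim_add D hv h1 ∅ s₁ hl, lim_add D hv' h1' ∅ s₂ hl, hk, MonoidHom.inv_apply,
      MonoidHom.inv_apply, MonoidHom.inv_apply, map_mul, mul_inv, Units.val_mul,
      Units.val_inv_eq_inv_val, Units.val_inv_eq_inv_val]
    ring
  -- the characters which are trivial at `k`
  have htriv : ∀ χ : G →* ℂˣ, χ (D.σ v'') = 1 → χ (D.σ v) = 1 → χ (D.σ v') = 1 := by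
    intro χ h3 h4
    rw [hk, map_mul, h4, one_mul] at h3
    exact h3
  refine ⟨push hle E, ?_, ?_, ?_⟩
  · intro χ hχ
    change ∀ k, charValue χ (toR (ek * (sum E₁ (scale (MonoidAlgebra.single (D.σ v)⁻¹ 1) E₂)).c k)) =
      0
    by_cases h3 : χ (D.σ v'') = 1
    · intro k
      rw [map_mul, charValue_mul, cek0 χ h3, zero_mul]
    · rw [active_add_iff] at hχ
      refine sum_c _ _ (P := fun c => charValue χ (toR (ek * c)) = 0) (fun k => ?_)
        fun (k : Fin E₂.n) => ?_
      · rw [map_mul, charValue_mul, e₁ χ (fun h4 => hχ ⟨((active_add_iff D hv h1 χ).1 h4).1, h3⟩) k,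
          mul_zero]
      · change charValue χ (toR (ek * (MonoidAlgebra.single (D.σ v)⁻¹ 1 * E₂.c k))) = 0
        rw [map_mul, charValue_mul, map_mul, charValue_mul,
          e₂ χ (fun h4 => hχ ⟨((active_add_iff D hv' h1' χ).1 h4).1, h3⟩) k, mul_zero, mul_zero]
  · intro χ
    change Tendsto (fun s : ℂ => (s ^ D.r)⁻¹ * (addPrime D v'' hv'' h1'').LT ∅ χ⁻¹ s) (𝓝[≠] 0)
      (𝓝 (charValue χ (E.regulator D.w)))
    rw [hreg]
    have hlim : ∀ l, Lim D ∅ χ l →
        Tendsto (fun s : ℂ => (s ^ D.r)⁻¹ * (addPrime D v'' hv'' h1'').LT ∅ χ⁻¹ s) (𝓝[≠] 0)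
          (𝓝 ((1 - ((χ⁻¹ (D.σ v'') : ℂˣ) : ℂ)) * l)) := by
      intro l hl
      have h4 := (tendsto_factor χ (D.σ v'') v'').mul hl
      refine h4.congr' ?_
      refine Filter.Eventually.of_forall fun s => ?_
      change _ = (s ^ D.r)⁻¹ * (addPrime D v'' hv'' h1'').LT ∅ χ⁻¹ s
      rw [addPrime_LT]
      ring
    by_cases h3 : χ (D.σ v'') = 1
    · rw [cek0 χ h3, zero_mul]
      by_cases h4 : χ (D.σ v) = 1
      · refine lim_trivial D hv h1 hv'' h1'' ∅ h4 h3 ?_
        have h5 : charValue χ (E₁.regulator D.w) = 0 := by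
          rw [charValue_regulator]
          refine Finset.sum_eq_zero fun k _ => ?_
          rw [cvQ_apply, e₁ χ (fun h6 => ((active_add_iff D hv h1 χ).1 h6).2 h4) k, zero_mul]
        have h6 : Tendsto (fun s : ℂ => (s ^ D.r)⁻¹ * (addPrime D v hv h1).LT ∅ χ⁻¹ s) (𝓝[≠] 0)
          (𝓝 (charValue χ (E₁.regulator D.w))) := s₁ χ
        rw [h5] at h6
        exact h6
      · obtain ⟨l, hl⟩ := exists_lim D hv h1 ∅ s₁ h4
        have h5 := hlim l hl
        rw [MonoidHom.inv_apply, h3, inv_one, Units.val_one, sub_self, zero_mul] at h5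
        exact h5
    · have hl : ∃ l, Lim D ∅ χ l := by
        by_cases h4 : χ (D.σ v) = 1
        · refine exists_lim D hv' h1' ∅ s₂ ?_
          intro h5
          apply h3
          rw [hk, map_mul, h4, h5, one_mul]
        · exact exists_lim D hv h1 ∅ s₁ h4
      obtain ⟨l, hl⟩ := hl
      rw [cek1 χ h3, one_mul, hcomb χ l hl]
      exact hlim l hl
  · suffices key : ∀ ψ : Fin D.r → GHom G (D.U ∅), E.value ψ =
        E₁.value ψ + MonoidAlgebra.single (D.σ v)⁻¹ 1 * E₂.value ψ by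
      have iE : AbInt F M E := by
        intro i φ
        refine rep_congr (rep_add (i₁ i φ) (rep_single (act_U D) (i₂ i φ) (D.σ v)⁻¹)) fun ψ => ?_
        rw [key]
        ring
      exact push_ab hle iE
    intro ψ
    have hval : E.value ψ = ek * (E₁.value ψ + MonoidAlgebra.single (D.σ v)⁻¹ 1 * E₂.value ψ) := by
      change (scale ek (sum E₁ (scale (MonoidAlgebra.single (D.σ v)⁻¹ 1) E₂))).value ψ = _
      rw [scale_value, sum_value, scale_value]
    have hW : ek * (E₁.value ψ + MonoidAlgebra.single (D.σ v)⁻¹ 1 * E₂.value ψ) =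
        E₁.value ψ + MonoidAlgebra.single (D.σ v)⁻¹ 1 * E₂.value ψ := by
      rw [← sub_eq_zero]
      refine eq_zero_of_charValue _ fun χ => ?_
      have h3 : charValue χ (toR (ek * (E₁.value ψ + MonoidAlgebra.single (D.σ v)⁻¹ 1 *
          E₂.value ψ) - (E₁.value ψ + MonoidAlgebra.single (D.σ v)⁻¹ 1 * E₂.value ψ))) =
          (charValue χ (toR ek) - 1) * (charValue χ (toR (E₁.value ψ)) +
            ((χ (D.σ v) : ℂ))⁻¹ * charValue χ (toR (E₂.value ψ))) := by
        rw [map_sub, charValue_eq, map_sub, ← charValue_eq, ← charValue_eq, map_mul,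
          charValue_mul, map_add, cv_add, map_mul, charValue_mul, cv_single, map_inv,
          Units.val_inv_eq_inv_val]
        ring
      rw [h3]
      by_cases h4 : χ (D.σ v'') = 1
      · have h5 : charValue χ (toR (E₁.value ψ)) +
            ((χ (D.σ v) : ℂ))⁻¹ * charValue χ (toR (E₂.value ψ)) = 0 := by
          by_cases h6 : (addPrime D v hv h1).Active χ
          · have h7 := ((active_add_iff D hv h1 χ).1 h6).2
            choose f hf1 hf2 hf3 using fun i => exists_extend D hv h1 ∅ (Finset.notMem_empty v)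
              (Finset.disjoint_empty_right _) (ψ i)
            obtain ⟨c, hc⟩ := det_key (addPrime D v hv h1) χ h6 f hf1
            have hle1 : D.U ∅ ≤ US (addPrime D v hv h1) :=
              (U_le_add D hv h1 ∅).trans (U_le (addPrime D v hv h1) ∅)
            have hval' : ∀ E : Wedge G D.r (D.U ∅),
                wval (addPrime D v hv h1) hle1 f E = E.value ψ := by
              intro E
              unfold wval Wedge.value
              refine Finset.sum_congr rfl fun k _ => ?_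
              rw [RingHom.map_det]
              congr 2
              ext i j : 1
              simp only [RingHom.mapMatrix_apply, Matrix.map_apply, Matrix.of_apply]
              exact hf3 i (E.x k j) _
            have c1 := hc (D.U ∅) hle1 E₁
            have c2 := hc (D.U ∅) hle1 E₂
            rw [hval'] at c1 c2
            obtain ⟨l, hl⟩ := exists_lim D hv h1 ∅ s₁ h7
            have h8 := hcomb χ l hl
            rw [MonoidHom.inv_apply, h4, inv_one, Units.val_one, sub_self, zero_mul] at h8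
            rw [c1, c2]
            change c * charValue χ (E₁.regulator D.w) +
              ((χ (D.σ v) : ℂ))⁻¹ * (c * charValue χ (E₂.regulator D.w)) = 0
            linear_combination c * h8
          · have h7 : ¬ (addPrime D v' hv' h1').Active χ := by
              intro h8
              rw [active_add_iff] at h6 h8
              apply h6
              refine ⟨h8.1, fun h9 => h8.2 (htriv χ h4 h9)⟩
            rw [value_zero E₁ ψ χ (e₁ χ h6), value_zero E₂ ψ χ (e₂ χ h7), mul_zero, add_zero]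
        rw [h5, mul_zero]
      · rw [cek1 χ h4, sub_self, zero_mul]
    rw [hval, hW]


end

end Pool.Agent.Run7.h97.RB
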