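import Pool.Agent.Run7.h97.RB.P3

/-!
# Popescu's conjecture: from the sets `S ∪ {v}` back to `S`
-/

set_option autoImplicit false
set_option linter.unusedSectionVars false

open NumberField IsDedekindDomain Filter Topology

noncomputable section

namespace Pool.Agent.Run7.h97.RB

open Pool.Agent.K3h30.RS

section

variable {F H G : Type} [Field F] [NumberField F] [Field H] [NumberField H] [Algebra F H]
  [CommGroup G] [Finite G] [MulSemiringAction G H]

/-- **Popescu's conjecture for `S`** (the statement of Q1): there is an element `η'` of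
`e' ℚ ⋀^r E_S(H)` with `R(η') = ∑ L^*_S(0, χ) e_χ̄`, and for all `φ_j ∈ Hom_{ℤ[G]}(E_S(H), ℤ[G])`, `j ≠ i`,
the contraction of `w_H η'` by them is the class of an `x` in `E_S(H)^{ab}`. -/
def Popescu (D : RubinData F H G) : Prop :=
  ∃ u : Wedge G D.r (D.U ∅), D.InER u ∧
    (∀ χ : G →* ℂˣ, Tendsto (fun s : ℂ => (s ^ D.r)⁻¹ * D.L χ⁻¹ s) (𝓝[≠] 0)
      (𝓝 (charValue χ (popReg D u)))) ∧
    ∀ (i : Fin D.r) (φ : Fin D.r → GHom G (D.U ∅)), ∃ x : D.U ∅, IsAb F (x : Hˣ) ∧
      ∀ ψ : GHom G (D.U ∅), (NumberField.Units.torsionOrder H : MonoidAlgebra ℚ G) *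
        u.value (Function.update φ i ψ) = toQ (ψ.f (Additive.ofMul x))

theorem popescu_bot (D : RubinData F H G) : PopescuUpTo D ⊥ ↔ Popescu D := by
  constructor
  · rintro ⟨u, e, s, h⟩
    refine ⟨u, e, s, fun i φ => ?_⟩
    obtain ⟨n, hn, x, hx, hR⟩ := h i φ
    rw [Submonoid.mem_bot] at hn
    subst hn
    refine ⟨x, hx, fun ψ => ?_⟩
    have h3 := hR ψ
    beta_reduce at h3
    rw [Nat.cast_one, one_mul] at h3
    exact h3
  · rintro ⟨u, e, s, h⟩
    refine ⟨u, e, s, fun i φ => ?_⟩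
    obtain ⟨x, hx, hR⟩ := h i φ
    refine ⟨1, Submonoid.one_mem _, x, hx, fun ψ => ?_⟩
    beta_reduce
    rw [Nat.cast_one, one_mul]
    exact hR ψ

end

section

variable {F H G : Type} [Field F] [NumberField F] [Field H] [NumberField H] [Algebra F H]
  [CommGroup G] [Finite G] [MulSemiringAction G H] [hG : IsGaloisGroup G F H]

theorem rep_dec (D : RubinData F H G) (M : Submonoid ℕ) (h2 : Two D) (η : Wedge G D.r (D.U ∅))
    (eη : D.InER η) {u : Place H} (hu : Other D u) (i : Fin D.r) (φ : Fin D.r → GHom G (D.U ∅))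
    (h : ∀ d ∈ Dec G u, Rep F M (D.U ∅) fun ψ => (1 - MonoidAlgebra.single d⁻¹ 1) *
        ((NumberField.Units.torsionOrder H : MonoidAlgebra ℚ G) *
          η.value (Function.update φ i ψ))) :
    Rep F M (D.U ∅) fun ψ => (((Nat.card (Dec G u) : ℕ) : ℤ) : MonoidAlgebra ℚ G) *
      ((NumberField.Units.torsionOrder H : MonoidAlgebra ℚ G) *
          η.value (Function.update φ i ψ)) := by
  classical
  let _ := Fintype.ofFinite (Dec G u)
  refine rep_congr (rep_sum Finset.univ (fun (d : Dec G u) ψ =>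
    (1 - MonoidAlgebra.single (d : G)⁻¹ 1) *
        ((NumberField.Units.torsionOrder H : MonoidAlgebra ℚ G) *
          η.value (Function.update φ i ψ))) (fun d _ => h d.1 d.2)) fun ψ => ?_
  have h3 : ∑ d : Dec G u, MonoidAlgebra.single (d : G)⁻¹ (1 : ℚ) = nrm u := by
    unfold nrm
    refine Finset.sum_congr (by congr!) fun d _ => rfl
  have h4 := nrm_value D h2 η eη hu (Function.update φ i ψ)
  have h5 : nrm u * ((NumberField.Units.torsionOrder H : MonoidAlgebra ℚ G) *
      η.value (Function.update φ i ψ)) = 0 := by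
    rw [mul_left_comm, h4, mul_zero]
  rw [← Finset.sum_mul, Finset.sum_sub_distrib, h3, sub_mul, h5, sub_zero]
  simp [Nat.card_eq_fintype_card]

/-- the elements of `G` for which `(1 - d⁻¹) w η` is in the lattice -/
theorem rep_closure {M : Submonoid ℕ} {U : Subgroup Hˣ}
    (hU : ∀ (γ : G) (x : Hˣ), x ∈ U → act γ x ∈ U) {V : GHom G U → MonoidAlgebra ℚ G} {A : Set G}
    (h : ∀ g ∈ A, g ≠ 1 → Rep F M U fun ψ => (1 - MonoidAlgebra.single g⁻¹ 1) * V ψ) {d : G}
    (hd : d ∈ Subgroup.closure A) : Rep F M U fun ψ => (1 - MonoidAlgebra.single d⁻¹ 1) * V ψ := by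
  have h0 : (1 : MonoidAlgebra ℚ G) - MonoidAlgebra.single (1 : G)⁻¹ 1 = 0 := by
    rw [inv_one]
    exact sub_self _
  have h1 : Rep F M U fun ψ => (1 - MonoidAlgebra.single (1 : G)⁻¹ 1) * V ψ :=
    rep_congr rep_zero fun ψ => by rw [h0, zero_mul]
  induction hd using Subgroup.closure_induction with
  | mem g hg =>
    by_cases hg1 : g = 1
    · rw [hg1]
      exact h1
    · exact h g hg hg1
  | one => exact h1
  | mul a b _ _ ha hb =>
    refine rep_congr (rep_add ha (rep_single hU hb a⁻¹)) fun ψ => ?_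
    rw [mul_inv a b, ← single_mul_single']
    ring
  | inv a _ ha =>
    refine rep_congr (rep_int (rep_single hU ha a) (-1)) fun ψ => ?_
    have h3 : (MonoidAlgebra.single a (1 : ℚ)) * MonoidAlgebra.single a⁻¹ 1 = 1 := by
      rw [single_mul_single', mul_inv_cancel]
      rfl
    rw [inv_inv]
    push_cast
    linear_combination (V ψ) * h3

/-- **Prime ideals whose Frobenius automorphisms generate `G` suffice.** -/
theorem pop_closure (D : RubinData F H G) (M : Submonoid ℕ) (h2 : Two D) (m : ℕ) (hm : m ∈ M)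
    (hspan : (m : ℤ) ∈ Ideal.span (decCards D)) (A : Set G) (hcl : Subgroup.closure A = ⊤)
    (h : ∀ g ∈ A, g ≠ 1 → ∃ (v : HeightOneSpectrum (𝓞 F)) (hv : v ∉ D.S) (h1 : D.σ v ≠ 1),
      D.σ v = g ∧ Pop (addPrime D v hv h1) M) : Pop D M := by
  obtain ⟨η, eη, sη⟩ := stark_of_closure D ∅ h2 A hcl (fun g hgA hg => by
    obtain ⟨v, hv, h1, h3, u, eu, su, -⟩ := h g hgA hg
    exact ⟨v, hv, h1, h3, u, eu, su⟩)
  refine ⟨η, eη, sη, fun i φ => ?_⟩
  refine rep_of_mul hm (rep_span (decCards D) ?_ hspan)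
  rintro a ⟨u, hu, rfl⟩
  refine rep_dec D M h2 η eη hu i φ fun d _ => ?_
  refine rep_closure (act_U D) (A := A) ?_ (by rw [hcl]; exact Subgroup.mem_top d)
  intro g hgA hg
  obtain ⟨v, hv, h1, h3, h4⟩ := h g hgA hg
  subst h3
  exact key_pop D M hv h1 η eη sη h4 i φ

/-- One decomposition group, if the Stark element is known to exist. -/
theorem pop_stark_step (D : RubinData F H G) (M : Submonoid ℕ) (h2 : Two D) (hS : D.Stark ∅)
    {u : Place H} (hu : Other D u) (hM : Nat.card (Dec G u) ∈ M)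
    (h : ∀ g ∈ Dec G u, g ≠ 1 → ∃ (v : HeightOneSpectrum (𝓞 F)) (hv : v ∉ D.S) (h1 : D.σ v ≠ 1),
      D.σ v = g ∧ Pop (addPrime D v hv h1) M) : Pop D M := by
  obtain ⟨η, eη, sη⟩ := hS
  refine ⟨η, eη, sη, fun i φ => ?_⟩
  refine rep_of_mul hM (rep_dec D M h2 η eη hu i φ fun d hd => ?_)
  refine rep_closure (act_U D) (A := (Dec G u : Set G)) ?_ (Subgroup.subset_closure hd)
  intro g hgA hg
  obtain ⟨v, hv, h1, h3, h4⟩ := h g hgA hg
  subst h3
  exact key_pop D M hv h1 η eη sη h4 i φ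

/-- the Frobenius automorphisms of the `v` for which Popescu's conjecture holds for `S ∪ {v}` -/
def PopGood (D : RubinData F H G) (M : Submonoid ℕ) (g : G) : Prop :=
  g = 1 ∨ ∃ (v : HeightOneSpectrum (𝓞 F)) (hv : v ∉ D.S) (h1 : D.σ v ≠ 1),
    D.σ v = g ∧ Pop (addPrime D v hv h1) M

theorem popGood_mul (D : RubinData F H G) (M : Submonoid ℕ) {g h : G} (hg : PopGood D M g)
    (hh : PopGood D M h) : PopGood D M (g * h) := by
  rcases hg with rfl | ⟨v, hv, h1, rfl, hR⟩
  · rw [one_mul]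
    exact hh
  rcases hh with rfl | ⟨v', hv', h1', rfl, hR'⟩
  · rw [mul_one]
    exact Or.inr ⟨v, hv, h1, rfl, hR⟩
  by_cases hk : D.σ v * D.σ v' = 1
  · exact Or.inl hk
  obtain ⟨v'', hv'', -, hvg⟩ := exists_frob_prime D ∅ (D.σ v * D.σ v')
  have h1'' : D.σ v'' ≠ 1 := by
    rw [hvg]
    exact hk
  exact Or.inr ⟨v'', hv'', h1'', hvg,
    pop_good_mul D M hv h1 hv' h1' hv'' h1'' hvg hR hR'⟩

/-- **The subgroup of the good Frobenius automorphisms** -/
def popGroup (D : RubinData F H G) (M : Submonoid ℕ) : Subgroup G where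
  carrier := {g | PopGood D M g}
  mul_mem' hg hh := popGood_mul D M hg hh
  one_mem' := Or.inl rfl
  inv_mem' := by
    intro g hg
    have h1 : ∀ n : ℕ, PopGood D M (g ^ n) := by
      intro n
      induction n with
      | zero => exact Or.inl (pow_zero g)
      | succ n ih =>
        rw [pow_succ]
        exact popGood_mul D M ih hg
    have h2 : g⁻¹ = g ^ (orderOf g - 1) := by
      have h3 : g ^ (orderOf g - 1) * g = 1 := by
        rw [← pow_succ, Nat.sub_add_cancel (orderOf_pos g), pow_orderOf_eq_one]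
      exact (eq_inv_of_mul_eq_one_left h3).symm
    change PopGood D M g⁻¹
    rw [h2]
    exact h1 _

theorem mem_popGroup (D : RubinData F H G) (M : Submonoid ℕ) {v : HeightOneSpectrum (𝓞 F)}
    (hv : v ∉ D.S) (h1 : D.σ v ≠ 1) :
    Pop (addPrime D v hv h1) M ↔ D.σ v ∈ popGroup D M := by
  constructor
  · intro h
    exact Or.inr ⟨v, hv, h1, rfl, h⟩
  · rintro (h | ⟨v', hv', h1', h3, h4⟩)
    · exact absurd h h1
    · exact pop_same_frob D M hv' h1' hv h1 h3 h4

/-- **Large sets `S` suffice.** -/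
theorem pop_large (M : Submonoid ℕ) (m : ℕ) (hm : m ∈ M) (n : ℕ) :
    ∀ (D : RubinData F H G), Two D → (m : ℤ) ∈ Ideal.span (decCards D) →
    (∀ D' : RubinData F H G, Larger ∅ D n D' → Pop D' M) → Pop D M := by
  induction n with
  | zero => exact fun D _ _ h => h D (Larger.refl D)
  | succ n ih =>
    intro D h2 hspan h
    refine pop_closure D M h2 m hm hspan Set.univ Subgroup.closure_univ fun g _ hg => ?_
    obtain ⟨v, hv, hvT, hvg⟩ := exists_frob_prime D ∅ g
    have h1 : D.σ v ≠ 1 := by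
      rw [hvg]
      exact hg
    refine ⟨v, hv, h1, hvg, ?_⟩
    exact ih (addPrime D v hv h1) (two_add hv h1 h2)
      (Ideal.span_mono (decCards_add D hv h1) hspan)
      (fun D' hD' => h D' (Larger.step D D' n v hv h1 hvT hD'))

end

end Pool.Agent.Run7.h97.RB
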