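import Pool.Agent.Run7.h97.RB.C

/-!
# Rubin's conjecture for the sets `S ∪ {v}`: the good Frobenius automorphisms form a subgroup
-/

set_option autoImplicit false
set_option linter.unusedSectionVars false

open NumberField IsDedekindDomain Filter Topology

noncomputable section

namespace Pool.Agent.Run7.h97.RB

open Pool.Agent.K3h30.RS
open Pool.Agent.K3h62.RS (charValue_mul charValue_eq toR_single cvHom_single two_le_absNorm)
open Pool.Agent.K3h3.RS (cvQ cvQ_apply cvQ_wval charValue_regulator eq_zero_of_charValue)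

section

variable {F H G : Type} [Field F] [NumberField F] [Field H] [NumberField H] [Algebra F H]
  [CommGroup G] [Finite G] [MulSemiringAction G H] [hG : IsGaloisGroup G F H]

/-- values and regulators of elements of `ℚ ⋀^r U` at an active character are proportional -/
theorem det_key (D : RubinData F H G) (χ : G →* ℂˣ) (hχ : D.Active χ)
    (f : Fin D.r → Additive (US D) →+ MonoidAlgebra ℚ G) (hf : ∀ i, IsEquiv D (f i)) :
    ∃ c : ℂ, ∀ (U : Subgroup Hˣ) (hU : U ≤ US D) (u : Wedge G D.r U),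
      charValue χ (toR (wval D hU f u)) = c * charValue χ (u.regulator D.w) := by
  have hspan := Pool.Agent.K3h40.RS.t_SPANREG Pool.Agent.K3h40.RS.t_LOGINJ
  have hg : ∀ i, ∃ a : Fin D.r → ℂ, ∀ x : US D,
      cvQ χ (f i (Additive.ofMul x)) = ∑ j, a j * charValue χ (reg G (D.w j) (x : Hˣ)) := by
    intro i
    refine hspan F H G D χ hχ ((cvQ χ : MonoidAlgebra ℚ G →+ ℂ).comp (f i)) ?_
    intro γ x y hxy
    have h := hf i γ x y hxy
    change cvQ χ (f i (Additive.ofMul y)) = (χ γ : ℂ) * cvQ χ (f i (Additive.ofMul x))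
    rw [h, map_mul]
    congr 1
    rw [cvQ_apply, cv_single]
  choose C hC using hg
  refine ⟨Matrix.det (Matrix.of C), fun U hU u => ?_⟩
  rw [← cvQ_apply, cvQ_wval, charValue_regulator, Finset.mul_sum]
  refine Finset.sum_congr rfl fun k _ => ?_
  have : (Matrix.of fun i j =>
      cvQ χ (f i (Additive.ofMul ⟨(u.x k j : Hˣ), hU (u.x k j).2⟩))) =
      (Matrix.of C) * (Matrix.of fun a b => charValue χ (reg G (D.w a) (u.x k b : Hˣ))) := by
    ext i j
    rw [Matrix.mul_apply]
    exact hC i _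
  rw [this, Matrix.det_mul]
  ring

omit hG in
theorem value_zero {r : ℕ} {U : Subgroup Hˣ} (u : Wedge G r U) (ψ : Fin r → GHom G U)
    (χ : G →* ℂˣ) (h : ∀ k, charValue χ (toR (u.c k)) = 0) :
    charValue χ (toR (u.value ψ)) = 0 := by
  unfold Wedge.value
  rw [map_sum, charValue_eq, map_sum]
  refine Finset.sum_eq_zero fun k _ => ?_
  rw [map_mul, ← charValue_eq, charValue_mul, h k, zero_mul]

theorem cv_reg {G : Type} [CommGroup G] [Finite G] {b : MonoidAlgebra ℚ G} {k : G}
    (hb : ∀ n : ℕ, b ^ n * (1 - MonoidAlgebra.single k 1) ^ (n + 1) =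
      1 - MonoidAlgebra.single k 1) {χ : G →* ℂˣ} (hχ : χ k ≠ 1) :
    charValue χ (toR (b * (1 - MonoidAlgebra.single k 1))) = 1 := by
  have h4 : (1 - (χ k : ℂ)) ≠ 0 := by
    intro h5
    apply hχ
    apply Units.ext
    rw [Units.val_one]
    exact (sub_eq_zero.1 h5).symm
  have h6 := congrArg (fun z => charValue χ (toR z)) (hb 1)
  simp only [pow_one, map_mul toR, map_pow toR, charValue_mul, toR_one_sub, cv_one_sub] at h6
  have h7 : charValue χ ((1 - MonoidAlgebra.single k (1 : ℝ)) ^ (1 + 1)) =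
      (1 - (χ k : ℂ)) * (1 - (χ k : ℂ)) := by
    rw [pow_succ, pow_one, charValue_mul, cv_one_sub]
  rw [h7, ← mul_assoc] at h6
  rw [map_mul, charValue_mul, toR_one_sub, cv_one_sub]
  exact mul_right_cancel₀ h4 (h6.trans (one_mul _).symm)

theorem cv_reg_one {G : Type} [CommGroup G] [Finite G] (b : MonoidAlgebra ℚ G) {k : G}
    {χ : G →* ℂˣ} (hχ : χ k = 1) :
    charValue χ (toR (b * (1 - MonoidAlgebra.single k 1))) = 0 := by
  rw [map_mul, charValue_mul, toR_one_sub, cv_one_sub, hχ, Units.val_one, sub_self, mul_zero]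

/-- the limit for a character which is trivial at both Frobenius automorphisms -/
theorem lim_trivial (D : RubinData F H G) {v v'' : HeightOneSpectrum (𝓞 F)} (hv : v ∉ D.S)
    (h1 : D.σ v ≠ 1) (hv'' : v'' ∉ D.S) (h1'' : D.σ v'' ≠ 1) (T : Finset (HeightOneSpectrum (𝓞 F)))
    {χ : G →* ℂˣ} (hχ : χ (D.σ v) = 1) (hχ'' : χ (D.σ v'') = 1)
    (h4 : Tendsto (fun s : ℂ => (s ^ D.r)⁻¹ * (addPrime D v hv h1).LT T χ⁻¹ s) (𝓝[≠] 0) (𝓝 0)) :
    Tendsto (fun s : ℂ => (s ^ D.r)⁻¹ * (addPrime D v'' hv'' h1'').LT T χ⁻¹ s) (𝓝[≠] 0)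
      (𝓝 0) := by
  have h5 := ((factor_slope' v'').div (factor_slope' v) (log_ne v)).mul h4
  rw [mul_zero] at h5
  refine h5.congr' ?_
  filter_upwards [self_mem_nhdsWithin, (factor_slope' v).eventually_ne (log_ne v)]
    with s hs hs'
  have hs0 : s ≠ 0 := hs
  rw [addPrime_LT, addPrime_LT, MonoidHom.inv_apply, MonoidHom.inv_apply, hχ'', hχ, inv_one,
    Units.val_one, one_mul, one_mul, Pi.div_apply]
  have h6 : (1 - (Ideal.absNorm v.asIdeal : ℂ) ^ (-s)) ≠ 0 := by
    intro h7
    rw [h7, zero_div] at hs'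
    exact hs' rfl
  field_simp

/-- **The good Frobenius automorphisms are closed under multiplication.** -/
theorem good_mul (D : RubinData F H G) (M : Submonoid ℕ) (T : Finset (HeightOneSpectrum (𝓞 F)))
    (hT : Disjoint D.S T) {v v' v'' : HeightOneSpectrum (𝓞 F)} (hv : v ∉ D.S) (h1 : D.σ v ≠ 1)
    (hvT : v ∉ T) (hv' : v' ∉ D.S) (h1' : D.σ v' ≠ 1) (hvT' : v' ∉ T) (hv'' : v'' ∉ D.S)
    (h1'' : D.σ v'' ≠ 1) (hk : D.σ v'' = D.σ v * D.σ v')
    (h : RubinUpTo (addPrime D v hv h1) M T) (h' : RubinUpTo (addPrime D v' hv' h1') M T) :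
    RubinUpTo (addPrime D v'' hv'' h1'') M T := by
  obtain ⟨E₁, e₁, s₁, i₁⟩ := descend_value D hv h1 M T hvT hT h
  obtain ⟨E₂, e₂, s₂, i₂⟩ := descend_value D hv' h1' M T hvT' hT h'
  obtain ⟨b, hb⟩ := exists_reg_group (D.σ v'')
  obtain ⟨ek, hek⟩ : ∃ ek : MonoidAlgebra ℚ G,
    ek = b * (1 - MonoidAlgebra.single (D.σ v'') 1) := ⟨_, rfl⟩
  have cek0 : ∀ χ : G →* ℂˣ, χ (D.σ v'') = 1 → charValue χ (toR ek) = 0 := by
    intro χ hχ
    rw [hek]
    exact cv_reg_one b hχ
  have cek1 : ∀ χ : G →* ℂˣ, χ (D.σ v'') ≠ 1 → charValue χ (toR ek) = 1 := by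
    intro χ hχ
    rw [hek]
    exact cv_reg hb hχ
  let E : Wedge G D.r (D.U T) := scale ek (sum E₁ (scale (MonoidAlgebra.single (D.σ v)⁻¹ 1) E₂))
  have hle := U_le_add D hv'' h1'' T
  have hreg : ∀ χ : G →* ℂˣ, charValue χ (E.regulator D.w) = charValue χ (toR ek) *
      (charValue χ (E₁.regulator D.w) + ((χ (D.σ v) : ℂ))⁻¹ * charValue χ (E₂.regulator D.w)) := by
    intro χ
    change charValue χ ((scale ek (sum E₁ (scale (MonoidAlgebra.single (D.σ v)⁻¹ 1) E₂))).regulator
      D.w) = _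
    rw [scale_regulator, sum_regulator, scale_regulator, charValue_mul, cv_add, charValue_mul,
      cv_single, map_inv, Units.val_inv_eq_inv_val]
  have hcomb : ∀ (χ : G →* ℂˣ) (l : ℂ), Lim D T χ l →
      charValue χ (E₁.regulator D.w) + ((χ (D.σ v) : ℂ))⁻¹ * charValue χ (E₂.regulator D.w) =
      (1 - ((χ⁻¹ (D.σ v'') : ℂˣ) : ℂ)) * l := by
    intro χ l hl
    rw [lim_add D hv h1 T s₁ hl, lim_add D hv' h1' T s₂ hl, hk, MonoidHom.inv_apply,
      MonoidHom.inv_apply, MonoidHom.inv_apply, map_mul, mul_inv, Units.val_mul,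
      Units.val_inv_eq_inv_val, Units.val_inv_eq_inv_val]
    ring
  -- the characters which are trivial at `k`
  have htriv : ∀ χ : G →* ℂˣ, χ (D.σ v'') = 1 → χ (D.σ v) = 1 → χ (D.σ v') = 1 := by
    intro χ h3 h4
    rw [hk, map_mul, h4, one_mul] at h3
    exact h3
  refine ⟨push hle E, ?_, ?_, ?_⟩
  · intro χ hχ
    change ∀ k, charValue χ (toR (ek * (sum E₁ (scale (MonoidAlgebra.single (D.σ v)⁻¹ 1) E₂)).c k)) =
      0
    by_cases h3 : χ (D.σ v'') = 1
    · intro k
      rw [map_mul, charValue_mul, cek0 χ h3, zero_mul]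
    · rw [active_add_iff] at hχ
      refine sum_c _ _ (P := fun c => charValue χ (toR (ek * c)) = 0) (fun k => ?_)
        fun (k : Fin E₂.n) => ?_
      · rw [map_mul, charValue_mul, e₁ χ (fun h4 => hχ ⟨((active_add_iff D hv h1 χ).1 h4).1, h3⟩) k,
          mul_zero]
      · change charValue χ (toR (ek * (MonoidAlgebra.single (D.σ v)⁻¹ 1 * E₂.c k))) = 0
        rw [map_mul, charValue_mul, map_mul, charValue_mul,
          e₂ χ (fun h4 => hχ ⟨((active_add_iff D hv' h1' χ).1 h4).1, h3⟩) k, mul_zero, mul_zero]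
  · intro χ
    change Tendsto (fun s : ℂ => (s ^ D.r)⁻¹ * (addPrime D v'' hv'' h1'').LT T χ⁻¹ s) (𝓝[≠] 0)
      (𝓝 (charValue χ (E.regulator D.w)))
    rw [hreg]
    have hlim : ∀ l, Lim D T χ l →
        Tendsto (fun s : ℂ => (s ^ D.r)⁻¹ * (addPrime D v'' hv'' h1'').LT T χ⁻¹ s) (𝓝[≠] 0)
          (𝓝 ((1 - ((χ⁻¹ (D.σ v'') : ℂˣ) : ℂ)) * l)) := by
      intro l hl
      have h4 := (tendsto_factor χ (D.σ v'') v'').mul hl
      refine h4.congr' ?_
      refine Filter.Eventually.of_forall fun s => ?_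
      change _ = (s ^ D.r)⁻¹ * (addPrime D v'' hv'' h1'').LT T χ⁻¹ s
      rw [addPrime_LT]
      ring
    by_cases h3 : χ (D.σ v'') = 1
    · rw [cek0 χ h3, zero_mul]
      by_cases h4 : χ (D.σ v) = 1
      · refine lim_trivial D hv h1 hv'' h1'' T h4 h3 ?_
        have h5 : charValue χ (E₁.regulator D.w) = 0 := by
          rw [charValue_regulator]
          refine Finset.sum_eq_zero fun k _ => ?_
          rw [cvQ_apply, e₁ χ (fun h6 => ((active_add_iff D hv h1 χ).1 h6).2 h4) k, zero_mul]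
        have h6 : Tendsto (fun s : ℂ => (s ^ D.r)⁻¹ * (addPrime D v hv h1).LT T χ⁻¹ s) (𝓝[≠] 0)
          (𝓝 (charValue χ (E₁.regulator D.w))) := s₁ χ
        rw [h5] at h6
        exact h6
      · obtain ⟨l, hl⟩ := exists_lim D hv h1 T s₁ h4
        have h5 := hlim l hl
        rw [MonoidHom.inv_apply, h3, inv_one, Units.val_one, sub_self, zero_mul] at h5
        exact h5
    · have hl : ∃ l, Lim D T χ l := by
        by_cases h4 : χ (D.σ v) = 1
        · refine exists_lim D hv' h1' T s₂ ?_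
          intro h5
          apply h3
          rw [hk, map_mul, h4, h5, one_mul]
        · exact exists_lim D hv h1 T s₁ h4
      obtain ⟨l, hl⟩ := hl
      rw [cek1 χ h3, one_mul, hcomb χ l hl]
      exact hlim l hl
  · suffices key : ∀ ψ : Fin D.r → GHom G ((addPrime D v'' hv'' h1'').U T), ∃ n ∈ M,
        ∃ z : MonoidAlgebra ℤ G, (n : MonoidAlgebra ℚ G) * (push hle E).value ψ = toQ z from key
    intro ψ₀
    rw [push_value]
    generalize (fun i => restr hle (ψ₀ i)) = ψ
    have hval : E.value ψ = ek * (E₁.value ψ + MonoidAlgebra.single (D.σ v)⁻¹ 1 * E₂.value ψ) := by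
      change (scale ek (sum E₁ (scale (MonoidAlgebra.single (D.σ v)⁻¹ 1) E₂))).value ψ = _
      rw [scale_value, sum_value, scale_value]
    have hW : ek * (E₁.value ψ + MonoidAlgebra.single (D.σ v)⁻¹ 1 * E₂.value ψ) =
        E₁.value ψ + MonoidAlgebra.single (D.σ v)⁻¹ 1 * E₂.value ψ := by
      rw [← sub_eq_zero]
      refine eq_zero_of_charValue _ fun χ => ?_
      have h3 : charValue χ (toR (ek * (E₁.value ψ + MonoidAlgebra.single (D.σ v)⁻¹ 1 *
          E₂.value ψ) - (E₁.value ψ + MonoidAlgebra.single (D.σ v)⁻¹ 1 * E₂.value ψ))) =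
          (charValue χ (toR ek) - 1) * (charValue χ (toR (E₁.value ψ)) +
            ((χ (D.σ v) : ℂ))⁻¹ * charValue χ (toR (E₂.value ψ))) := by
        rw [map_sub, charValue_eq, map_sub, ← charValue_eq, ← charValue_eq, map_mul,
          charValue_mul, map_add, cv_add, map_mul, charValue_mul, cv_single, map_inv,
          Units.val_inv_eq_inv_val]
        ring
      rw [h3]
      by_cases h4 : χ (D.σ v'') = 1
      · have h5 : charValue χ (toR (E₁.value ψ)) +
            ((χ (D.σ v) : ℂ))⁻¹ * charValue χ (toR (E₂.value ψ)) = 0 := by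
          by_cases h6 : (addPrime D v hv h1).Active χ
          · have h7 := ((active_add_iff D hv h1 χ).1 h6).2
            choose f hf1 hf2 hf3 using fun i => exists_extend D hv h1 T hvT hT (ψ i)
            obtain ⟨c, hc⟩ := det_key (addPrime D v hv h1) χ h6 f hf1
            have hle1 : D.U T ≤ US (addPrime D v hv h1) :=
              (U_le_add D hv h1 T).trans (U_le (addPrime D v hv h1) T)
            have hval' : ∀ E : Wedge G D.r (D.U T),
                wval (addPrime D v hv h1) hle1 f E = E.value ψ := by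
              intro E
              unfold wval Wedge.value
              refine Finset.sum_congr rfl fun k _ => ?_
              rw [RingHom.map_det]
              congr 2
              ext i j : 1
              simp only [RingHom.mapMatrix_apply, Matrix.map_apply, Matrix.of_apply]
              exact hf3 i (E.x k j) _
            have c1 := hc (D.U T) hle1 E₁
            have c2 := hc (D.U T) hle1 E₂
            rw [hval'] at c1 c2
            obtain ⟨l, hl⟩ := exists_lim D hv h1 T s₁ h7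
            have h8 := hcomb χ l hl
            rw [MonoidHom.inv_apply, h4, inv_one, Units.val_one, sub_self, zero_mul] at h8
            rw [c1, c2]
            change c * charValue χ (E₁.regulator D.w) +
              ((χ (D.σ v) : ℂ))⁻¹ * (c * charValue χ (E₂.regulator D.w)) = 0
            linear_combination c * h8
          · have h7 : ¬ (addPrime D v' hv' h1').Active χ := by
              intro h8
              rw [active_add_iff] at h6 h8
              apply h6
              refine ⟨h8.1, fun h9 => h8.2 (htriv χ h4 h9)⟩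
            rw [value_zero E₁ ψ χ (e₁ χ h6), value_zero E₂ ψ χ (e₂ χ h7), mul_zero, add_zero]
        rw [h5, mul_zero]
      · rw [cek1 χ h4, sub_self, zero_mul]
    rw [hval, hW]
    obtain ⟨n, hn, z, hz⟩ := i₁ ψ
    obtain ⟨n', hn', z', hz'⟩ := i₂ ψ
    refine ⟨n * n', M.mul_mem hn hn', (n' : MonoidAlgebra ℤ G) * z +
      (n : MonoidAlgebra ℤ G) * (MonoidAlgebra.single (D.σ v)⁻¹ 1 * z'), ?_⟩
    rw [map_add, map_mul, map_mul, map_mul, map_natCast, map_natCast, toQ_single', ← hz, ← hz']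
    push_cast
    ring

/-- the Frobenius automorphisms of the prime ideals `v` for which Rubin's conjecture holds for
`S ∪ {v}` -/
def Good (D : RubinData F H G) (M : Submonoid ℕ) (T : Finset (HeightOneSpectrum (𝓞 F))) (g : G) :
    Prop :=
  g = 1 ∨ ∃ (v : HeightOneSpectrum (𝓞 F)) (hv : v ∉ D.S) (h1 : D.σ v ≠ 1),
    v ∉ T ∧ D.σ v = g ∧ RubinUpTo (addPrime D v hv h1) M T

theorem good_mul' (D : RubinData F H G) (M : Submonoid ℕ) (T : Finset (HeightOneSpectrum (𝓞 F)))
    (hT : Disjoint D.S T) {g h : G} (hg : Good D M T g) (hh : Good D M T h) :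
    Good D M T (g * h) := by
  rcases hg with rfl | ⟨v, hv, h1, hvT, rfl, hR⟩
  · rw [one_mul]
    exact hh
  rcases hh with rfl | ⟨v', hv', h1', hvT', rfl, hR'⟩
  · rw [mul_one]
    exact Or.inr ⟨v, hv, h1, hvT, rfl, hR⟩
  by_cases hk : D.σ v * D.σ v' = 1
  · exact Or.inl hk
  obtain ⟨v'', hv'', hvT'', hvg⟩ := exists_frob_prime D T (D.σ v * D.σ v')
  have h1'' : D.σ v'' ≠ 1 := by
    rw [hvg]
    exact hk
  exact Or.inr ⟨v'', hv'', h1'', hvT'', hvg,
    good_mul D M T hT hv h1 hvT hv' h1' hvT' hv'' h1'' hvg hR hR'⟩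

/-- **The subgroup of the good Frobenius automorphisms** -/
def goodGroup (D : RubinData F H G) (M : Submonoid ℕ) (T : Finset (HeightOneSpectrum (𝓞 F)))
    (hT : Disjoint D.S T) : Subgroup G where
  carrier := {g | Good D M T g}
  mul_mem' hg hh := good_mul' D M T hT hg hh
  one_mem' := Or.inl rfl
  inv_mem' := by
    intro g hg
    have h1 : ∀ n : ℕ, Good D M T (g ^ n) := by
      intro n
      induction n with
      | zero => exact Or.inl (pow_zero g)
      | succ n ih =>
        rw [pow_succ]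
        exact good_mul' D M T hT ih hg
    have h2 : g⁻¹ = g ^ (orderOf g - 1) := by
      have h3 : g ^ (orderOf g - 1) * g = 1 := by
        rw [← pow_succ, Nat.sub_add_cancel (orderOf_pos g), pow_orderOf_eq_one]
      exact (eq_inv_of_mul_eq_one_left h3).symm
    change Good D M T g⁻¹
    rw [h2]
    exact h1 _

theorem mem_goodGroup (D : RubinData F H G) (M : Submonoid ℕ)
    (T : Finset (HeightOneSpectrum (𝓞 F))) (hT : Disjoint D.S T) {v : HeightOneSpectrum (𝓞 F)}
    (hv : v ∉ D.S) (h1 : D.σ v ≠ 1) (hvT : v ∉ T) :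
    RubinUpTo (addPrime D v hv h1) M T ↔ D.σ v ∈ goodGroup D M T hT := by
  constructor
  · intro h
    exact Or.inr ⟨v, hv, h1, hvT, rfl, h⟩
  · rintro (h | ⟨v', hv', h1', hvT', h3, h4⟩)
    · exact absurd h h1
    · exact same_frob D M T hT hv' h1' hvT' hv h1 h3 h4

end

end Pool.Agent.Run7.h97.RB
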