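import Pool.Agent.Run7.h97.RB.A

/-!
# Rubin's conjecture and the set `S`: the groups `U_{S,T}` and `U_{S ∪ {v},T}`
-/

set_option autoImplicit false
set_option linter.unusedSectionVars false

open NumberField IsDedekindDomain Filter Topology

noncomputable section

namespace Pool.Agent.Run7.h97.RB

open Pool.Agent.K3h30.RS

/-- Extension of a homomorphism to `ℤ` from a subgroup with torsion free quotient. -/
theorem ext_int (B' : Type) [AddCommGroup B'] [Module.Finite ℤ B'] (B : AddSubgroup B')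
    (htf : ∀ (n : ℕ) (a : B'), 0 < n → n • a ∈ B → a ∈ B) (φ : B →+ ℤ) :
    ∃ ρ : B' →+ ℤ, ∀ b : B, ρ b = φ b := by
  let M : Submodule ℤ B' := AddSubgroup.toIntSubmodule B
  have hM : ∀ x, x ∈ M ↔ x ∈ B := fun x => Iff.rfl
  have htf' : ∀ (z : ℤ) (a : B'), z ≠ 0 → z • a ∈ B → a ∈ B := by
    intro z a hz h
    apply htf z.natAbs a (Int.natAbs_pos.2 hz)
    rcases Int.natAbs_eq z with h1 | h1
    · rw [h1, natCast_zsmul] at h
      exact h
    · rw [h1, neg_smul, natCast_zsmul] at h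
      exact (B.neg_mem_iff).1 h
  have h1 : Module.IsTorsionFree ℤ (B' ⧸ M) := by
    rw [Module.isTorsionFree_iff_smul_eq_zero]
    intro z q h
    obtain ⟨a, rfl⟩ := M.mkQ_surjective q
    by_cases hz : z = 0
    · exact Or.inl hz
    · right
      rw [← map_smul, Submodule.mkQ_apply, Submodule.Quotient.mk_eq_zero, hM] at h
      rw [Submodule.mkQ_apply, Submodule.Quotient.mk_eq_zero, hM]
      exact htf' z a hz h
  have h2 : Module.Free ℤ (B' ⧸ M) := inferInstance
  obtain ⟨s, hs⟩ := Module.projective_lifting_property M.mkQ LinearMap.id M.mkQ_surjective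
  have hs' : ∀ q, M.mkQ (s q) = q := fun q => LinearMap.congr_fun hs q
  have hmem : ∀ a : B', a - s (M.mkQ a) ∈ B := by
    intro a
    rw [← hM, ← Submodule.Quotient.mk_eq_zero, ← Submodule.mkQ_apply, map_sub, hs', sub_self]
  refine ⟨{ toFun := fun a => φ ⟨a - s (M.mkQ a), hmem a⟩
            map_zero' := ?_
            map_add' := ?_ }, ?_⟩
  · have : (⟨(0 : B') - s (M.mkQ 0), hmem 0⟩ : B) = 0 := by
      apply Subtype.ext
      simp
    rw [this, map_zero]
  · intro x y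
    rw [← map_add]
    congr 1
    apply Subtype.ext
    simp only [map_add, AddSubgroup.coe_add]
    abel
  · intro b
    change φ ⟨(b : B') - s (M.mkQ b), hmem b⟩ = φ b
    congr 1
    apply Subtype.ext
    have : M.mkQ (b : B') = 0 := by
      rw [Submodule.mkQ_apply, Submodule.Quotient.mk_eq_zero, hM]
      exact b.2
    simp only [this, map_zero, sub_zero]

section

variable {F H G : Type} [Field F] [NumberField F] [Field H] [NumberField H] [Algebra F H]
  [CommGroup G] [Finite G] [MulSemiringAction G H] [hG : IsGaloisGroup G F H]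

variable (D : RubinData F H G) {v : HeightOneSpectrum (𝓞 F)} (hv : v ∉ D.S) (h1 : D.σ v ≠ 1)
  (T : Finset (HeightOneSpectrum (𝓞 F)))

theorem U_le_add : D.U T ≤ (addPrime D v hv h1).U T := by
  rintro x ⟨hx1, hx2⟩
  exact ⟨fun w hw => hx1 w fun h => hw ((above_cons hv).2 (Or.inr h)), hx2⟩

/-- `x ^ (1 - σ_v)` is in `U_{S,T}` for `x ∈ U_{S ∪ {v},T}` -/
theorem div_mem {x : Hˣ} (hx : x ∈ (addPrime D v hv h1).U T) :
    x * (act (D.σ v) x)⁻¹ ∈ D.U T := by
  have hx' : act (D.σ v) x ∈ (addPrime D v hv h1).U T :=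
    Pool.Agent.K3h30.RS.act_mem Pool.Agent.K3h25.RS.t_TRANS _ _ (D.σ v) hx
  refine ⟨fun w hw => ?_, ((addPrime D v hv h1).U T).mul_mem hx
    (((addPrime D v hv h1).U T).inv_mem hx') |>.2⟩
  by_cases hwv : Above {v} w
  · rw [Units.val_mul, Units.val_inv_eq_inv_val, map_mul, map_inv₀, act_val,
      frob_val (D.frob v hv) hwv]
    refine mul_inv_cancel₀ ?_
    exact (Valuation.ne_zero_iff _).2 x.ne_zero
  · have hw' : ¬ Above (((addPrime D v hv h1).S : Finset (HeightOneSpectrum (𝓞 F))) :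
        Set (HeightOneSpectrum (𝓞 F))) w := by
      intro h
      rcases (above_cons hv).1 h with h2 | h2
      · exact hwv h2
      · exact hw h2
    exact (((addPrime D v hv h1).U T).mul_mem hx
      (((addPrime D v hv h1).U T).inv_mem hx')).1 w hw'

/-- the quotient `U_{S ∪ {v},T} / U_{S,T}` is torsion free -/
theorem mem_of_pow_mem {n : ℕ} (hn : 0 < n) {x : Hˣ} (hx : x ∈ (addPrime D v hv h1).U T)
    (hxn : x ^ n ∈ D.U T) : x ∈ D.U T := by
  refine ⟨fun w hw => ?_, hx.2⟩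
  have h2 := hxn.1 w hw
  rw [Units.val_pow_eq_pow_val, map_pow] at h2
  rcases lt_trichotomy (w.valuation H (x : H)) 1 with h3 | h3 | h3
  · exact absurd h2 (pow_lt_one₀ zero_le h3 hn.ne').ne
  · exact h3
  · exact absurd h2 (one_lt_pow₀ h3 hn.ne').ne'

/-- a power of every `S`-unit is in `U_{S,T}` -/
theorem exists_power (D : RubinData F H G) (T : Finset (HeightOneSpectrum (𝓞 F)))
    (hT : Disjoint D.S T) : ∃ m : ℕ, 0 < m ∧ ∀ x : US D, (x : Hˣ) ^ m ∈ D.U T := by
  let _ := actionA (H := H) (G := G) Pool.Agent.K3h25.RS.t_TRANS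
    (D.S : Set (HeightOneSpectrum (𝓞 F))) ∅
  have hfg : AddGroup.FG (Additive (US D)) := fgA Pool.Agent.K3h25.RS.t_OVER D.S
  obtain ⟨w, hw0, hw⟩ := exists_torsion (Additive (US D))
  obtain ⟨d, m, hm0, hm, -, -⟩ := decompose Pool.Agent.K3h73.RS.t_LAM Pool.Agent.K3h12.RSE.t_EXT
    Pool.Agent.K3h44.RS.t_DLOG Pool.Agent.K3h44.RS.t_FROBU Pool.Agent.K3h25.RS.t_TRANS
    Pool.Agent.K3h25.RS.t_OVER D T hT w hw
  exact ⟨m, hm0, hm⟩

/-- the group `U_{S,T}` is finitely generated -/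
theorem finite_U (D : RubinData F H G) (T : Finset (HeightOneSpectrum (𝓞 F))) :
    Module.Finite ℤ (Additive (D.U T)) := by
  have hfg : AddGroup.FG (Additive (US D)) := fgA Pool.Agent.K3h25.RS.t_OVER D.S
  have h2 : Module.Finite ℤ (Additive (US D)) := Module.Finite.iff_addGroup_fg.2 hfg
  let i : Additive (D.U T) →+ Additive (US D) :=
    MonoidHom.toAdditive (Subgroup.inclusion (U_le D T))
  refine Module.Finite.of_injective i.toIntLinearMap ?_
  intro x y hxy
  exact Additive.toMul.injective (Subgroup.inclusion_injective (U_le D T)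
    (congrArg Additive.toMul hxy))

/-- the sum over `γ` of `a (γ⁻¹ x) γ` -/
theorem exists_equiv (D : RubinData F H G) (a : Additive (US D) →+ ℚ) :
    ∃ f : Additive (US D) →+ MonoidAlgebra ℚ G, IsEquiv D f ∧
      ∀ (γ : G) (x y : US D), (y : Hˣ) = act γ⁻¹ (x : Hˣ) →
        (f (Additive.ofMul x)).coeff γ = a (Additive.ofMul y) := by
  classical
  have hact : ∀ (γ : G) (x : US D), act γ (x : Hˣ) ∈ US D := fun γ x =>
    Pool.Agent.K3h30.RS.act_mem Pool.Agent.K3h25.RS.t_TRANS _ _ γ x.2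
  let g : US D → G → ℚ := fun x γ => a (Additive.ofMul ⟨act γ⁻¹ (x : Hˣ), hact γ⁻¹ x⟩)
  let f : Additive (US D) →+ MonoidAlgebra ℚ G :=
    { toFun := fun x => MonoidAlgebra.ofCoeff (Finsupp.equivFunOnFinite.symm (g (Additive.toMul x)))
      map_zero' := by
        ext γ
        change a (Additive.ofMul ⟨act γ⁻¹ ((1 : US D) : Hˣ), _⟩) = 0
        have : (⟨act γ⁻¹ ((1 : US D) : Hˣ), hact γ⁻¹ 1⟩ : US D) = 1 := by
          apply Subtype.ext
          exact act_map_one γ⁻¹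
        rw [this, ofMul_one, map_zero]
      map_add' := by
        intro x y
        ext γ
        change a (Additive.ofMul ⟨act γ⁻¹ ((Additive.toMul x * Additive.toMul y : US D) : Hˣ), _⟩) =
          a (Additive.ofMul ⟨act γ⁻¹ ((Additive.toMul x : US D) : Hˣ), _⟩) +
          a (Additive.ofMul ⟨act γ⁻¹ ((Additive.toMul y : US D) : Hˣ), _⟩)
        rw [← map_add, ← ofMul_mul]
        congr 2
        apply Subtype.ext
        exact act_map_mul _ _ _ }
  have hf : ∀ (x : US D) (γ : G), (f (Additive.ofMul x)).coeff γ = g x γ := fun x γ => rfl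
  refine ⟨f, ?_, ?_⟩
  · intro γ x y hxy
    ext δ
    rw [coeff_single_mul', one_mul, hf, hf]
    change a (Additive.ofMul ⟨act δ⁻¹ (y : Hˣ), _⟩) =
      a (Additive.ofMul ⟨act (γ⁻¹ * δ)⁻¹ (x : Hˣ), _⟩)
    congr 2
    apply Subtype.ext
    change act δ⁻¹ (y : Hˣ) = act (γ⁻¹ * δ)⁻¹ (x : Hˣ)
    rw [hxy, ← act_mul, mul_inv, inv_inv, mul_comm]
  · intro γ x y hxy
    rw [hf]
    change a (Additive.ofMul ⟨act γ⁻¹ (x : Hˣ), _⟩) = _
    congr 2
    exact Subtype.ext hxy.symm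

/-- The extension of `ψ : U_{S,T} → ℤ[G]` to `U_{S ∪ {v}}`, with integral values on
`U_{S ∪ {v},T}`. -/
theorem exists_extend (hvT : v ∉ T) (hT : Disjoint D.S T) (ψ : GHom G (D.U T)) :
    ∃ f : Additive (US (addPrime D v hv h1)) →+ MonoidAlgebra ℚ G,
      IsEquiv (addPrime D v hv h1) f ∧ IntOn (addPrime D v hv h1) T f ∧
      ∀ (x : D.U T) (hx : (x : Hˣ) ∈ US (addPrime D v hv h1)),
        f (Additive.ofMul ⟨(x : Hˣ), hx⟩) = toQ (ψ.f (Additive.ofMul x)) := by
  classical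
  let D' := addPrime D v hv h1
  have hT' : Disjoint D'.S T := by
    change Disjoint (Finset.cons v D.S hv) T
    rw [Finset.disjoint_left] at hT ⊢
    intro x hx
    rcases Finset.mem_cons.1 hx with rfl | hx
    · exact hvT
    · exact hT hx
  obtain ⟨m, hm0, hm⟩ := exists_power D' T hT'
  have hfin := finite_U D' T
  -- the subgroup
  let B : AddSubgroup (Additive (D'.U T)) :=
    { carrier := {x | ((Additive.toMul x : D'.U T) : Hˣ) ∈ D.U T}
      add_mem' := fun {x y} hx hy => (D.U T).mul_mem hx hy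
      zero_mem' := (D.U T).one_mem
      neg_mem' := fun {x} hx => (D.U T).inv_mem hx }
  let φ : B →+ ℤ :=
    { toFun := fun b => (ψ.f (Additive.ofMul ⟨((Additive.toMul b.1 : D'.U T) : Hˣ), b.2⟩)).coeff 1
      map_zero' := by
        have : (Additive.ofMul (⟨((Additive.toMul (0 : B).1 : D'.U T) : Hˣ), (0 : B).2⟩ :
          D.U T)) = 0 := rfl
        rw [this, map_zero]
        rfl
      map_add' := by
        intro x y
        have : (Additive.ofMul (⟨((Additive.toMul (x + y).1 : D'.U T) : Hˣ), (x + y).2⟩ :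
            D.U T)) = Additive.ofMul (⟨((Additive.toMul x.1 : D'.U T) : Hˣ), x.2⟩ : D.U T) +
            Additive.ofMul (⟨((Additive.toMul y.1 : D'.U T) : Hˣ), y.2⟩ : D.U T) := rfl
        rw [this, map_add]
        rfl }
  obtain ⟨ρ, hρ⟩ := ext_int (Additive (D'.U T)) B (by
    intro n x hn hx
    exact mem_of_pow_mem D hv h1 T hn (Additive.toMul x : D'.U T).2 hx) φ
  let a : Additive (US D') →+ ℚ :=
    { toFun := fun x => (m : ℚ)⁻¹ * (ρ (Additive.ofMul ⟨((Additive.toMul x : US D') : Hˣ) ^ m,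
        hm (Additive.toMul x)⟩) : ℚ)
      map_zero' := by
        have : (Additive.ofMul (⟨((Additive.toMul (0 : Additive (US D')) : US D') : Hˣ) ^ m,
            hm (Additive.toMul 0)⟩ : D'.U T)) = 0 := by
          apply Additive.toMul.injective
          apply Subtype.ext
          simp
        rw [this, map_zero]
        simp
      map_add' := by
        intro x y
        rw [← mul_add, ← Int.cast_add, ← map_add]
        congr 3
        apply Additive.toMul.injective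
        apply Subtype.ext
        simp [mul_pow] }
  have ha : ∀ (x : Hˣ) (hx : x ∈ D'.U T), a (Additive.ofMul ⟨x, U_le D' T hx⟩) =
      (ρ (Additive.ofMul ⟨x, hx⟩) : ℚ) := by
    intro x hx
    have h2 : (Additive.ofMul (⟨x ^ m, hm ⟨x, U_le D' T hx⟩⟩ : D'.U T)) =
        m • Additive.ofMul (⟨x, hx⟩ : D'.U T) := rfl
    change (m : ℚ)⁻¹ * (ρ (Additive.ofMul (⟨x ^ m, hm ⟨x, U_le D' T hx⟩⟩ : D'.U T)) : ℚ) = _
    rw [h2, map_nsmul, nsmul_eq_mul]
    push_cast
    rw [← mul_assoc, inv_mul_cancel₀ (by positivity), one_mul]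
  obtain ⟨f, hf1, hf2⟩ := exists_equiv D' a
  refine ⟨f, hf1, ?_, ?_⟩
  · intro x hx
    rw [mem_range_toQ]
    intro γ
    have h2 : act γ⁻¹ (x : Hˣ) ∈ D'.U T :=
      Pool.Agent.K3h30.RS.act_mem Pool.Agent.K3h25.RS.t_TRANS _ _ γ⁻¹ hx
    rw [hf2 γ x ⟨act γ⁻¹ (x : Hˣ), U_le D' T h2⟩ rfl, ha _ h2]
    exact ⟨_, rfl⟩
  · intro x hx
    ext γ
    have h2 : act γ⁻¹ (x : Hˣ) ∈ D.U T :=
      Pool.Agent.K3h30.RS.act_mem Pool.Agent.K3h25.RS.t_TRANS _ _ γ⁻¹ x.2
    have h3 : act γ⁻¹ (x : Hˣ) ∈ D'.U T := U_le_add D hv h1 T h2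
    rw [hf2 γ ⟨(x : Hˣ), hx⟩ ⟨act γ⁻¹ (x : Hˣ), U_le D' T h3⟩ rfl, ha _ h3, coeff_toQ]
    have h4 := hρ ⟨Additive.ofMul ⟨act γ⁻¹ (x : Hˣ), h3⟩, h2⟩
    rw [h4]
    change (((ψ.f (Additive.ofMul (⟨act γ⁻¹ (x : Hˣ), h2⟩ : D.U T))).coeff 1 : ℤ) : ℚ) = _
    rw [ψ.equiv γ⁻¹ x ⟨act γ⁻¹ (x : Hˣ), h2⟩ rfl, coeff_single_mul', one_mul, inv_inv, mul_one]

end

end Pool.Agent.Run7.h97.RB
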