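import Pool.Agent.Run7.h97.RB.E
import Pool.Agent.Run7.h375.Zeta3
import Pool.Agent.Run7.h375.Euler

/-!
# The order of vanishing of the zeta function with the Euler factors in `S` removed
-/

set_option autoImplicit false
set_option linter.unusedSectionVars false

open NumberField IsDedekindDomain Filter Topology

noncomputable section

namespace Pool.Agent.Run7.h97.RB

open Pool.Agent.K3h30.RS
open Pool.Agent.K3h62.RS (two_le_absNorm)

section count

variable {F H G : Type} [Field F] [NumberField F] [Field H] [NumberField H] [Algebra F H]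
  [CommGroup G] [Finite G] [MulSemiringAction G H]

/-- the place of `F` under a place of `H` -/
def below (F : Type) [Field F] [NumberField F] {H : Type} [Field H] [NumberField H] [Algebra F H] :
    Place H → InfinitePlace F ⊕ HeightOneSpectrum (𝓞 F)
  | Sum.inl w => Sum.inl (w.comap (algebraMap F H))
  | Sum.inr w => Sum.inr (exists_above (F := F) w).choose

theorem below_inr {v : HeightOneSpectrum (𝓞 F)} {w : HeightOneSpectrum (𝓞 H)} (h : Above {v} w) :
    below F (Sum.inr w : Place H) = Sum.inr v := by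
  change Sum.inr (exists_above (F := F) w).choose = Sum.inr v
  congr 1
  have h1 := (exists_above (F := F) w).choose_spec
  rw [above_singleton] at h h1
  exact HeightOneSpectrum.ext (h1.symm.trans h)

theorem absNorm_conj (w w' : HeightOneSpectrum (𝓞 H)) (γ : G)
    (h : ∀ x : H, w.valuation H x = w'.valuation H (γ • x)) :
    Ideal.absNorm w.asIdeal = Ideal.absNorm w'.asIdeal := by
  let e := MulSemiringAction.toRingEquiv G (𝓞 H) γ
  have h1 : w.asIdeal = w'.asIdeal.map (e.symm : 𝓞 H →+* 𝓞 H) := by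
    have h2 : w'.asIdeal.map (e.symm : 𝓞 H →+* 𝓞 H) = w'.asIdeal.comap (e : 𝓞 H →+* 𝓞 H) :=
      Ideal.map_symm e
    rw [h2]
    ext y
    rw [Ideal.mem_comap, ← w.valuation_lt_one_iff_mem (K := H),
      ← w'.valuation_lt_one_iff_mem (K := H)]
    change w.valuation H (y : H) < 1 ↔ w'.valuation H (γ • (y : H)) < 1
    rw [h]
  have e2 := Ideal.quotientEquiv w'.asIdeal w.asIdeal e.symm h1
  rw [Ideal.absNorm_apply, Ideal.absNorm_apply, Submodule.cardQuot_apply,
    Submodule.cardQuot_apply]
  exact (Nat.card_congr e2.toEquiv).symm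

theorem adicAbv_conj (w w' : HeightOneSpectrum (𝓞 H)) (γ : G)
    (h : ∀ x : H, w.valuation H x = w'.valuation H (γ • x)) (x : H) :
    HeightOneSpectrum.adicAbv H w x = HeightOneSpectrum.adicAbv H w' (γ • x) := by
  have h1 := absNorm_conj w w' γ h
  have h2 := h x
  by_cases hx : x = 0
  · rw [hx, smul_zero, map_zero, map_zero]
  · have hne : w.valuation H x ≠ 0 := (Valuation.ne_zero_iff _).2 hx
    have hne' : w'.valuation H (γ • x) ≠ 0 := by rw [← h2]; exact hne
    rw [HeightOneSpectrum.adicAbv_def, HeightOneSpectrum.adicAbv_def,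
      WithZeroMulInt.toNNReal_neg_apply _ hne, WithZeroMulInt.toNNReal_neg_apply _ hne']
    have h3 : WithZero.unzero hne = WithZero.unzero hne' := by
      rw [← WithZero.coe_inj, WithZero.coe_unzero, WithZero.coe_unzero, h2]
    rw [h3, h1]

/-- places of `H` over the same place of `F` are conjugate -/
theorem conj_of_below [hG : IsGaloisGroup G F H] (w w' : Place H) (h : below F w = below F w') :
    Conj G w w' := by
  rcases w with w | w <;> rcases w' with w' | w'
  · have h1 : w.comap (algebraMap F H) = w'.comap (algebraMap F H) := Sum.inl.inj h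
    have hgal : IsGalois F H := IsGaloisGroup.isGalois G F H
    obtain ⟨σ, hσ⟩ := InfinitePlace.exists_smul_eq_of_comap_eq h1
    obtain ⟨γ, hγ⟩ := (IsGaloisGroup.mulEquivAlgEquiv G F H).surjective σ
    refine ⟨γ, fun x => ?_⟩
    have h2 : γ • x = σ x := by
      rw [← hγ]
      rfl
    change w x ^ w.mult = w' (γ • x) ^ w'.mult
    rw [h2, ← hσ, InfinitePlace.smul_apply]
    have h3 : (σ • w).mult = w.mult := by
      rcases w.isReal_or_isComplex with h4 | h4
      · have h5 : (σ • w).IsReal := InfinitePlace.isReal_smul_iff.2 h4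
        rw [InfinitePlace.mult_isReal ⟨w, h4⟩, InfinitePlace.mult_isReal ⟨σ • w, h5⟩]
      · have h5 : (σ • w).IsComplex := InfinitePlace.isComplex_smul_iff.2 h4
        rw [InfinitePlace.mult_isComplex ⟨w, h4⟩, InfinitePlace.mult_isComplex ⟨σ • w, h5⟩]
    rw [h3]
    congr 2
    exact (AlgEquiv.symm_apply_apply σ x).symm
  · exact absurd h (by simp [below])
  · exact absurd h (by simp [below])
  · obtain ⟨v, hv⟩ := exists_above (F := F) w
    obtain ⟨v', hv'⟩ := exists_above (F := F) w'
    rw [below_inr hv, below_inr hv'] at h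
    have h1 : v = v' := Sum.inr.inj h
    subst h1
    obtain ⟨γ, hγ⟩ := (Pool.Agent.K3h25.RS.t_TRANS F H G v w' hv').2 w hv
    exact ⟨γ, fun x => adicAbv_conj w w' γ hγ x⟩

theorem below_mem (S : Finset (HeightOneSpectrum (𝓞 F))) (u : Place H)
    (hu : InS (S : Set (HeightOneSpectrum (𝓞 F))) u) :
    below F u ∈ (Finset.univ : Finset (InfinitePlace F)).disjSum S := by
  rcases u with w | w
  · change Sum.inl _ ∈ _
    rw [Finset.inl_mem_disjSum]
    exact Finset.mem_univ _
  · obtain ⟨v, hv, h⟩ := above_mem hu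
    rw [below_inr h, Finset.inr_mem_disjSum]
    exact Finset.mem_coe.1 hv

/-- there are at least `r + 2` places of `F` in `S` -/
theorem card_places [hG : IsGaloisGroup G F H] (D : RubinData F H G) (h2 : Two D) :
    D.r + 2 ≤ Fintype.card (InfinitePlace F) + D.S.card := by
  classical
  obtain ⟨u, u', a, b, c, d, e⟩ := h2
  let p : Fin D.r ⊕ Bool → Place H := Sum.elim D.w fun t => if t then u else u'
  have hp : ∀ z, InS (D.S : Set (HeightOneSpectrum (𝓞 F))) (p z) := by
    rintro (i | t)
    · exact D.inS i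
    · change InS _ (if t then u else u')
      split_ifs
      · exact a
      · exact b
  have hc : ∀ z z' : Place H, Conj G z z' → Conj G z' z := by
    rintro z z' ⟨γ, hγ⟩
    refine ⟨γ⁻¹, fun x => ?_⟩
    rw [hγ, smul_inv_smul]
  have hinj : ∀ z z' : Fin D.r ⊕ Bool, Conj G (p z) (p z') → z = z' := by
    rintro (i | t) (i' | t') h
    · rw [D.distinct i i' h]
    · exfalso
      have h' := hc _ _ h
      change Conj G (if t' then u else u') (D.w i) at h'
      split_ifs at h'
      · exact c i h'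
      · exact d i h'
    · exfalso
      change Conj G (if t then u else u') (D.w i') at h
      split_ifs at h
      · exact c i' h
      · exact d i' h
    · change Conj G (if t then u else u') (if t' then u else u') at h
      rcases t <;> rcases t'
      · rfl
      · exact absurd (hc _ _ h) e
      · exact absurd h e
      · rfl
  have h3 := Finset.card_le_card_of_injOn (s := (Finset.univ : Finset (Fin D.r ⊕ Bool)))
    (t := (Finset.univ : Finset (InfinitePlace F)).disjSum D.S) (fun z => below F (p z))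
    (fun z _ => below_mem D.S (p z) (hp z))
    (fun z _ z' _ h => hinj z z' (conj_of_below _ _ h))
  rw [Finset.card_disjSum, Finset.card_univ, Finset.card_univ, Fintype.card_sum,
    Fintype.card_fin, Fintype.card_bool] at h3
  exact h3

end count

section zeta

variable {F : Type} [Field F] [NumberField F]

/-- the Euler factors at a finite set of prime ideals -/
def EF (S : Finset (HeightOneSpectrum (𝓞 F))) (s : ℂ) : ℂ :=
  ∏ v ∈ S, (1 - (Ideal.absNorm v.asIdeal : ℂ) ^ (-s))

theorem factor_diff (v : HeightOneSpectrum (𝓞 F)) :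
    Differentiable ℂ (fun s : ℂ => 1 - (Ideal.absNorm v.asIdeal : ℂ) ^ (-s)) := by
  have h2 := two_le_absNorm v
  have h3 : (Ideal.absNorm v.asIdeal : ℂ) ≠ 0 := by
    exact_mod_cast (by omega : Ideal.absNorm v.asIdeal ≠ 0)
  exact (differentiable_const _).sub ((differentiable_id.neg).const_cpow (Or.inl h3))

theorem EF_diff (S : Finset (HeightOneSpectrum (𝓞 F))) : Differentiable ℂ (EF S) := by
  unfold EF
  exact Differentiable.fun_finsetProd fun v _ => factor_diff v

theorem factor_slope (v : HeightOneSpectrum (𝓞 F)) : ∃ c : ℂ,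
    Tendsto (fun s : ℂ => (1 - (Ideal.absNorm v.asIdeal : ℂ) ^ (-s)) / s) (𝓝[≠] 0) (𝓝 c) := by
  have h1 := ((factor_diff v) 0).hasDerivAt.tendsto_slope_zero
  refine ⟨_, h1.congr' ?_⟩
  filter_upwards [self_mem_nhdsWithin] with s hs
  simp only [zero_add, smul_eq_mul, neg_zero, Complex.cpow_zero, sub_self, sub_zero]
  rw [div_eq_inv_mul]

theorem EF_slope (S : Finset (HeightOneSpectrum (𝓞 F))) : ∃ c : ℂ,
    Tendsto (fun s : ℂ => EF S s / s ^ S.card) (𝓝[≠] 0) (𝓝 c) := by
  choose c hc using factor_slope (F := F)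
  refine ⟨∏ v ∈ S, c v, (tendsto_finsetProd S fun v _ => hc v).congr' ?_⟩
  refine Filter.Eventually.of_forall fun s => ?_
  unfold EF
  simp only [Finset.prod_div_distrib, Finset.prod_const]

end zeta

section lim

variable {F H G : Type} [Field F] [NumberField F] [Field H] [NumberField H] [Algebra F H]
  [CommGroup G] [Finite G] [MulSemiringAction G H]

theorem L_one (D : RubinData F H G) {s : ℂ} (hs : 1 < s.re) :
    D.L 1 s = EF D.S s * dedekindZeta F s := by
  have h1 := D.euler 1 s hs
  have h2 := Run7.h375.Euler.hasProd_zeta F hs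
  let f : HeightOneSpectrum (𝓞 F) → ℂ := fun v => (1 - (Ideal.absNorm v.asIdeal : ℂ) ^ (-s))⁻¹
  have h3 : HasProd (f ∘ (fun v : ((D.S : Set (HeightOneSpectrum (𝓞 F)))ᶜ :
      Set (HeightOneSpectrum (𝓞 F))) => (v : HeightOneSpectrum (𝓞 F)))) (D.L 1 s) := by
    refine h1.congr_fun ?_
    intro v
    simp only [f, Function.comp_apply, MonoidHom.one_apply, Units.val_one, one_mul]
  have h4 : HasProd (f ∘ (fun v : (D.S : Set (HeightOneSpectrum (𝓞 F))) =>
      (v : HeightOneSpectrum (𝓞 F)))) (∏ v ∈ D.S, f v) := D.S.hasProd f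
  have h5 := h4.mul_compl h3
  have h6 : dedekindZeta F s = (∏ v ∈ D.S, f v) * D.L 1 s := h2.unique h5
  rw [h6, ← mul_assoc]
  have h7 : EF D.S s * ∏ v ∈ D.S, f v = 1 := by
    unfold EF
    rw [← Finset.prod_mul_distrib]
    refine Finset.prod_eq_one fun v _ => mul_inv_cancel₀ ?_
    intro h8
    rw [sub_eq_zero] at h8
    have h9 := Run7.h375.Euler.nm_cpow_lt v (s := s) (by linarith)
    unfold Run7.h375.Euler.nm at h9
    rw [← h8, norm_one] at h9
    exact lt_irrefl _ h9
  rw [h7, one_mul]

/-- `L_S(1, s)` near zero -/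
theorem L_one_near (D : RubinData F H G) {Z : ℂ → ℂ} (hZ1 : ∀ s, MeromorphicAt Z s)
    (hZ2 : ∀ s : ℂ, 1 < s.re → Z s = dedekindZeta F s) :
    ∀ᶠ s in 𝓝[≠] (0 : ℂ), D.L 1 s = EF D.S s * Z s := by
  have hopen : IsOpen ({1}ᶜ : Set ℂ) := isOpen_compl_singleton
  have h1 : MeromorphicOn (D.L 1 - EF D.S * Z) {1}ᶜ := by
    intro s hs
    refine MeromorphicAt.sub ?_ (MeromorphicAt.mul ?_ (hZ1 s))
    · exact ((D.analytic 1).analyticAt (hopen.mem_nhds hs)).meromorphicAt
    · exact ((EF_diff D.S).analyticAt s).meromorphicAt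
  have h2 : meromorphicOrderAt (D.L 1 - EF D.S * Z) 2 = ⊤ := by
    rw [meromorphicOrderAt_eq_top_iff]
    have h3 : {s : ℂ | 1 < s.re} ∈ 𝓝 (2 : ℂ) :=
      (isOpen_lt continuous_const Complex.continuous_re).mem_nhds (by simp)
    filter_upwards [nhdsWithin_le_nhds h3] with s hs
    rw [Pi.sub_apply, Pi.mul_apply, L_one D hs, hZ2 s hs, sub_self]
  have h3 : meromorphicOrderAt (D.L 1 - EF D.S * Z) 0 = ⊤ := by
    by_contra hcon
    exact (h1.meromorphicOrderAt_ne_top_of_isPreconnected
      (isConnected_compl_singleton_of_one_lt_rank (by simp) 1).isPreconnected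
      (by simp : (0 : ℂ) ∈ ({1}ᶜ : Set ℂ)) (by simp : (2 : ℂ) ∈ ({1}ᶜ : Set ℂ)) hcon) h2
  rw [meromorphicOrderAt_eq_top_iff] at h3
  filter_upwards [h3] with s hs
  rw [Pi.sub_apply, Pi.mul_apply, sub_eq_zero] at hs
  exact hs

/-- The zeta function with the Euler factors in `S` removed vanishes at zero to the order
`#S - 1 > r`. -/
theorem lim_one [hG : IsGaloisGroup G F H] (D : RubinData F H G) (h2 : Two D)
    (T : Finset (HeightOneSpectrum (𝓞 F))) : Lim D T 1 0 := by
  have hcard := card_places D h2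
  obtain ⟨Z, hZ1, hZ2, hZ3⟩ := Run7.h375.Zeta.zeta_zero F
  obtain ⟨c, hc⟩ := EF_slope D.S
  have hT := Pool.Agent.K3h3.RS.tendsto_prod D 1 T
  have hrank : Units.rank F = Fintype.card (InfinitePlace F) - 1 := rfl
  have hpos : 0 < Fintype.card (InfinitePlace F) := Fintype.card_pos
  obtain ⟨k, hk, hk0⟩ : ∃ k : ℕ, Units.rank F + D.S.card = D.r + k ∧ k ≠ 0 :=
    ⟨Units.rank F + D.S.card - D.r, by omega, by omega⟩
  have h3 : Tendsto (fun s : ℂ => s ^ k) (𝓝[≠] 0) (𝓝 0) := by
    have := ((continuous_pow k).tendsto (0 : ℂ)).mono_left (nhdsWithin_le_nhds (s := {0}ᶜ))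
    rwa [zero_pow hk0] at this
  have h4 := (hT.mul (h3.mul (hZ3.mul hc)))
  rw [zero_mul, mul_zero] at h4
  unfold Lim
  refine h4.congr' ?_
  filter_upwards [self_mem_nhdsWithin, L_one_near D hZ1 hZ2] with s hs hs'
  have hs0 : s ≠ 0 := hs
  have hinv : (1 : G →* ℂˣ)⁻¹ = 1 := by
    ext g
    simp
  unfold RubinData.LT
  rw [hinv, hs']
  have h5 : s ^ (Units.rank F) * s ^ D.S.card = s ^ D.r * s ^ k := by
    rw [← pow_add, ← pow_add, hk]
  have h6 : s ^ k * (Z s / s ^ Units.rank F * (EF D.S s / s ^ D.S.card)) =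
      (s ^ D.r)⁻¹ * (EF D.S s * Z s) := by
    have e1 : s ^ (Units.rank F) ≠ 0 := pow_ne_zero _ hs0
    have e2 : s ^ D.S.card ≠ 0 := pow_ne_zero _ hs0
    have e3 : s ^ D.r ≠ 0 := pow_ne_zero _ hs0
    rw [div_mul_div_comm, h5]
    have e4 : s ^ k ≠ 0 := pow_ne_zero _ hs0
    field_simp
  rw [h6]
  ring

end lim

end Pool.Agent.Run7.h97.RB
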